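import Pool.Agent.Helper41.CE.FDefs

/-!
# Eigenvalue sums for complex potentials, `d ≥ 2`: definitions

The potential is `V = i` on the annulus `1 < |x| < 2` and `V = 0` elsewhere. The operator, the
algebraic multiplicity `mult V ħ z`, `posRay` and `dRay` are in `Pool/Agent/Helper41/CE/FDefs.lean`.
-/

set_option autoImplicit false

open MeasureTheory Filter Topology Set
open scoped ENNReal NNReal ContDiff

namespace Pool.Agent.Run7.h998.LT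

open Pool.Agent.Helper41.CE

noncomputable section

/-- The potential `V = i 1_{1 < |x| < 2}` on `ℝᵈ`. -/
def VV (d : ℕ) (x : E d) : ℂ := if 1 < ‖x‖ ∧ ‖x‖ < 2 then Complex.I else 0

open Classical in
/-- `S_{γ,σ}(V, ħ) = ∑_j |E_j|^(-σ) δ(E_j)^(γ+σ)`, the sum over the eigenvalues in `ℂ ∖ [0,∞)` of
`-ħ² Δ + V`, each repeated according to its algebraic multiplicity. -/
def SS {d : ℕ} (γ σ : ℝ) (V : E d → ℂ) (ħ : ℝ) : ℝ≥0∞ :=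
  ∑' z : ℂ, if z ∉ posRay then
    mult V ħ z * ENNReal.ofReal (‖z‖ ^ (-σ) * dRay z ^ (γ + σ)) else 0

/-! ### Special functions -/

/-- `∏_{j < m} (D/2 + j)` -/
def poch (D m : ℕ) : ℂ := ∏ j ∈ Finset.range m, ((D : ℂ) / 2 + j)

/-- `Reg D y = ∑_m y^m / (m! (D/2)_m)`, an entire function. -/
def Reg (D : ℕ) (y : ℂ) : ℂ := ∑' m : ℕ, y ^ m / ((m.factorial : ℂ) * poch D m)

/-- `Dec D w = ∫_1^∞ e^(-w t) (t² - 1)^((D-3)/2) dt`, for `Re w > 0`, `D ≥ 4`. -/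
def Dec (D : ℕ) (w : ℂ) : ℂ :=
  ∫ t in Ioi (1 : ℝ), Complex.exp (-(w * t)) * (((t ^ 2 - 1) ^ (((D : ℝ) - 3) / 2) : ℝ) : ℂ)

/-- The regular solution of `4 s g'' + 2 D g' = ν g`. -/
def Ig (D : ℕ) (ν : ℂ) (s : ℝ) : ℂ := Reg D (ν * s / 4)
/-- Its derivative. -/
def Ig1 (D : ℕ) (ν : ℂ) (s : ℝ) : ℂ := ν / (2 * D) * Reg (D + 2) (ν * s / 4)
/-- Its second derivative. -/
def Ig2 (D : ℕ) (ν : ℂ) (s : ℝ) : ℂ := ν ^ 2 / (4 * D * (D + 2)) * Reg (D + 4) (ν * s / 4)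

/-- The decaying solution of `4 s g'' + 2 D g' = κ² g` on `s > 0`, `Re κ > 0`. -/
def Kg (D : ℕ) (κ : ℂ) (s : ℝ) : ℂ := Dec D (κ * (Real.sqrt s : ℝ))
/-- Its derivative. -/
def Kg1 (D : ℕ) (κ : ℂ) (s : ℝ) : ℂ := -κ ^ 2 / (2 * ((D : ℂ) - 1)) * Dec (D + 2) (κ * (Real.sqrt s : ℝ))

/-- `g' = g1` and `4 s g1' + 2 D g1 = ν g` at the points of `T ⊆ (0, ∞)`. In the variable `s = r²`
these are the radial functions in dimension `D` with `f'' + (D-1)/r f' = ν f`. -/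
def SolG (D : ℕ) (ν : ℂ) (g g1 : ℝ → ℂ) (T : Set ℝ) : Prop :=
  ∀ s ∈ T, HasDerivAt g (g1 s) s ∧
    HasDerivAt g1 ((ν * g s - 2 * D * g1 s) / (4 * s)) s

/-- The holomorphic square root on `ℂ ∖ (-∞, 0]`, with positive real part. -/
def sq (w : ℂ) : ℂ := Complex.exp (Complex.log w / 2)

/-- `b = ħ² (D-1)(D-3)/4`, the coefficient of the centrifugal potential `b / r²`. -/
def bb (ħ : ℝ) (D : ℕ) : ℝ := ħ ^ 2 * (((D : ℝ) - 1) * ((D : ℝ) - 3) / 4)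

/-- The local momentum `p(r) = √(z - b/r²)`. -/
def pp (b : ℝ) (z : ℂ) (r : ℝ) : ℂ := sq (z - (b / r ^ 2 : ℝ))

/-- The box of the spectral parameters `z = E - i` at energy `Λ`. -/
def Bx (Λ : ℝ) : Set ℂ := {z | Λ / 4 < z.re ∧ z.re < 2 * Λ ∧ -(1 / 2) < z.im ∧ z.im < 0}

/-- The potential in the variable `s = |x|²`. -/
def vv (s : ℝ) : ℂ := if 1 < s ∧ s < 4 then Complex.I else 0

/-- A radial profile in the variable `s = |x|²`: the function `P(x) g(|x|²)`, with `P` a harmonic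
homogeneous polynomial of degree `ℓ` on `ℝᵈ`, `D = d + 2ℓ`, is an eigenfunction of `-ħ² Δ + V` with
the eigenvalue `E`; `g' = g1`, `g'' = g2`. -/
structure Prof (D : ℕ) (ħ : ℝ) (E : ℂ) (g g1 g2 : ℝ → ℂ) : Prop where
  d1 : ∀ s : ℝ, HasDerivAt g (g1 s) s
  c1 : Continuous g1
  d2 : ∀ s : ℝ, s ≠ 1 → s ≠ 4 → HasDerivAt g1 (g2 s) s ∧ ContinuousAt g2 s
  eq : ∀ s : ℝ, 0 ≤ s → s ≠ 1 → s ≠ 4 →
    4 * (s : ℂ) * g2 s + 2 * D * g1 s + (E - vv s) / (ħ : ℂ) ^ 2 * g s = 0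
  bd : ∃ B : ℝ, ∀ s ∈ Icc (0 : ℝ) 5, ‖g2 s‖ ≤ B
  dec : ∃ C ρ : ℝ, 0 < ρ ∧ ∀ s : ℝ, 0 ≤ s → ‖g s‖ ≤ C * Real.exp (-(ρ * Real.sqrt s)) ∧
    ‖g1 s‖ ≤ C * Real.exp (-(ρ * Real.sqrt s))
  one : g 0 = 1

/-- The Laplacian of polynomials. -/
def LapP (d : ℕ) : MvPolynomial (Fin d) ℝ →ₗ[ℝ] MvPolynomial (Fin d) ℝ :=
  ∑ i, (MvPolynomial.pderiv (R := ℝ) i).toLinearMap ∘ₗ (MvPolynomial.pderiv (R := ℝ) i).toLinearMap

/-- The harmonic homogeneous polynomials of degree `l`. -/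
def HP (d l : ℕ) : Submodule ℝ (MvPolynomial (Fin d) ℝ) :=
  MvPolynomial.homogeneousSubmodule (Fin d) ℝ l ⊓ LinearMap.ker (LapP d)

/-- The function `P(x) g(|x|²)`. -/
def psi {d : ℕ} (P : MvPolynomial (Fin d) ℝ) (g : ℝ → ℂ) (x : E d) : ℂ :=
  ((MvPolynomial.eval (fun i => x i) P : ℝ) : ℂ) * g (‖x‖ ^ 2)

/-- The gradient of `P(x) g(|x|²)`. -/
def dpsi {d : ℕ} (P : MvPolynomial (Fin d) ℝ) (g g1 : ℝ → ℂ) (i : Fin d) (x : E d) : ℂ :=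
  ((MvPolynomial.eval (fun j => x j) (MvPolynomial.pderiv i P) : ℝ) : ℂ) * g (‖x‖ ^ 2) +
    2 * (x i : ℂ) * ((MvPolynomial.eval (fun j => x j) P : ℝ) : ℂ) * g1 (‖x‖ ^ 2)

/-- `u(r) = r^((D-1)/2) g(r²)` -/
def uu (D : ℕ) (g : ℝ → ℂ) (r : ℝ) : ℂ := ((r ^ (((D : ℝ) - 1) / 2) : ℝ) : ℂ) * g (r ^ 2)

/-- The derivative of `uu`. -/
def uu1 (D : ℕ) (g g1 : ℝ → ℂ) (r : ℝ) : ℂ :=
  ((r ^ (((D : ℝ) - 1) / 2) : ℝ) : ℂ) *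
    (2 * (r : ℂ) * g1 (r ^ 2) + ((D : ℂ) - 1) / (2 * (r : ℂ)) * g (r ^ 2))

/-- `κ = -i √(z + i) / ħ`, so that `κ² = -(z + i)/ħ²` and `Re κ > 0` for `Im z > -1`. -/
def kap (ħ : ℝ) (z : ℂ) : ℂ := -Complex.I * sq (z + Complex.I) / ħ

/-- `ħ u'/u` at `r = 1` of the regular solution (energy `z + i`). -/
def aa (ħ : ℝ) (D : ℕ) (z : ℂ) : ℂ :=
  ħ * (2 * (Ig1 D (-(z + Complex.I) / (ħ : ℂ) ^ 2) 1 / Ig D (-(z + Complex.I) / (ħ : ℂ) ^ 2) 1) +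
    ((D : ℂ) - 1) / 2)

/-- `ħ u'/u` at `r = 2` of the decaying solution (energy `z + i`). -/
def cc (ħ : ℝ) (D : ℕ) (z : ℂ) : ℂ :=
  ħ * (4 * (Kg1 D (kap ħ z) 4 / Kg D (kap ħ z) 4) + ((D : ℂ) - 1) / 4)

/-- The action `∫_1^2 √(z - b/r²) dr`. -/
def th (b : ℝ) (z : ℂ) : ℂ := ∫ r in (1 : ℝ)..2, pp b z r

end

end Pool.Agent.Run7.h998.LT
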