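import Pool.Agent.Run7.h998.LT.Stm

set_option autoImplicit false

open MeasureTheory Filter Topology Set
open scoped ENNReal NNReal

namespace Pool.Agent.Run7.h998.LT.PACT

open Pool.Agent.Run7.h998.LT

lemma sq_sq (w : ℂ) (hw : w ≠ 0) : sq w ^ 2 = w := by
  unfold sq
  rw [← Complex.exp_nat_mul]
  have : ((2 : ℕ) : ℂ) * (Complex.log w / 2) = Complex.log w := by push_cast; ring
  rw [this, Complex.exp_log hw]

lemma sq_re_pos (w : ℂ) (hw : 0 < w.re) : 0 < (sq w).re := by
  unfold sq
  rw [Complex.exp_re]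
  apply mul_pos (Real.exp_pos _)
  apply Real.cos_pos_of_mem_Ioo
  have h1 : (Complex.log w / 2).im = Complex.arg w / 2 := by
    rw [show Complex.log w / 2 = (1 / 2 : ℝ) * Complex.log w by push_cast; ring]
    rw [Complex.im_ofReal_mul, Complex.log_im]
    ring
  rw [h1]
  have := Complex.abs_arg_lt_pi_div_two_iff.mpr (Or.inl hw)
  rw [abs_lt] at this
  constructor <;> linarith [this.1, this.2, Real.pi_pos]

lemma sq_real (x : ℝ) (hx : 0 < x) : sq (x : ℂ) = ((Real.sqrt x : ℝ) : ℂ) := by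
  unfold sq
  rw [← Complex.ofReal_log hx.le]
  have : ((Real.log x : ℝ) : ℂ) / 2 = ((Real.log x / 2 : ℝ) : ℂ) := by push_cast; ring
  rw [this, ← Complex.ofReal_exp]
  congr 1
  symm
  rw [Real.sqrt_eq_iff_mul_self_eq_of_pos (Real.exp_pos _)]
  rw [← Real.exp_add]
  rw [show Real.log x / 2 + Real.log x / 2 = Real.log x by ring, Real.exp_log hx]

lemma br_bound (Λ b r : ℝ) (_ : 2 ≤ Λ) (hb : 0 ≤ b) (hb' : b ≤ Λ / 32) (hr : r ∈ Icc (1 : ℝ) 2) :
    0 ≤ b / r ^ 2 ∧ b / r ^ 2 ≤ Λ / 32 := by
  have hr1 : 1 ≤ r ^ 2 := one_le_pow₀ hr.1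
  refine ⟨by positivity, ?_⟩
  have : b / r ^ 2 ≤ b := div_le_self hb hr1
  linarith

lemma cont_pp (Λ b : ℝ) (z : ℂ) (hΛ : 2 ≤ Λ) (hb : 0 ≤ b) (hb' : b ≤ Λ / 32)
    (hz : Λ / 4 < z.re) : ContinuousOn (fun r : ℝ => pp b z r) (Icc 1 2) := by
  unfold pp sq
  apply Complex.continuous_exp.comp_continuousOn
  apply ContinuousOn.div_const
  have h1 : ContinuousOn (fun r : ℝ => z - ((b / r ^ 2 : ℝ) : ℂ)) (Icc 1 2) := by
    apply continuousOn_const.sub
    apply Complex.continuous_ofReal.comp_continuousOn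
    apply continuousOn_const.div (by fun_prop)
    intro r hr
    have : 0 < r := by linarith [hr.1]
    positivity
  apply h1.clog
  intro r hr
  rw [Complex.mem_slitPlane_iff]
  left
  have := br_bound Λ b r hΛ hb hb' hr
  simp only [Complex.sub_re, Complex.ofReal_re]
  linarith [this.2]

theorem p_ACT : S_ACT := by
  intro Λ hΛ
  refine ⟨4, ?_⟩
  intro b x₀ hb hb' hx hx'
  set w₀ : ℝ → ℝ := fun r => x₀ - b / r ^ 2 with hw₀
  have hw0lo : ∀ r ∈ Icc (1 : ℝ) 2, 15 / 16 ≤ w₀ r := by
    intro r hr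
    have := br_bound Λ b r hΛ hb hb' hr
    simp only [hw₀]
    linarith [this.2]
  have hw0hi : ∀ r ∈ Icc (1 : ℝ) 2, w₀ r ≤ Λ := by
    intro r hr
    have := br_bound Λ b r hΛ hb hb' hr
    simp only [hw₀]
    linarith [this.1]
  have hsqlo : ∀ r ∈ Icc (1 : ℝ) 2, 1 / 2 ≤ Real.sqrt (w₀ r) := by
    intro r hr
    apply Real.le_sqrt_of_sq_le
    have := hw0lo r hr
    linarith
  have hsqhi : ∀ r ∈ Icc (1 : ℝ) 2, Real.sqrt (w₀ r) ≤ Real.sqrt Λ := by
    intro r hr
    exact Real.sqrt_le_sqrt (hw0hi r hr)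
  have hΛ0 : 0 < Real.sqrt Λ := Real.sqrt_pos.mpr (by linarith)
  have cw0 : ContinuousOn w₀ (Icc 1 2) := by
    apply continuousOn_const.sub
    apply continuousOn_const.div (by fun_prop)
    intro r hr
    have : 0 < r := by linarith [hr.1]
    positivity
  have csq : ContinuousOn (fun r => Real.sqrt (w₀ r)) (Icc 1 2) := cw0.sqrt
  have cinv : ContinuousOn (fun r => 1 / (2 * Real.sqrt (w₀ r))) (Icc 1 2) := by
    apply continuousOn_const.div (continuousOn_const.mul csq)
    intro r hr
    have := hsqlo r hr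
    have h2 : (0 : ℝ) < 2 * Real.sqrt (w₀ r) := by linarith
    exact h2.ne'
  have huIcc : uIcc (1 : ℝ) 2 = Icc 1 2 := uIcc_of_le (by norm_num)
  have iinv : IntervalIntegrable (fun r => 1 / (2 * Real.sqrt (w₀ r))) volume 1 2 := by
    apply ContinuousOn.intervalIntegrable
    rw [huIcc]; exact cinv
  set τ : ℝ := ∫ r in (1 : ℝ)..2, 1 / (2 * Real.sqrt (w₀ r)) with hτ
  have hppx : ∀ r ∈ Icc (1 : ℝ) 2, pp b x₀ r = ((Real.sqrt (w₀ r) : ℝ) : ℂ) := by
    intro r hr
    unfold pp
    rw [← Complex.ofReal_sub, sq_real]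
    have := hw0lo r hr
    simp only [hw₀] at this
    linarith
  refine ⟨τ, ?_, ?_, ?_, ?_⟩
  · have h := intervalIntegral.integral_mono_on (a := (1 : ℝ)) (b := 2) (by norm_num)
      (f := fun _ => 1 / (2 * Real.sqrt Λ)) (g := fun r => 1 / (2 * Real.sqrt (w₀ r)))
      (by simp) iinv ?_
    · rw [intervalIntegral.integral_const] at h
      have e : ((2 : ℝ) - 1) • (1 / (2 * Real.sqrt Λ)) = 1 / (2 * Real.sqrt Λ) := by
        norm_num
      rw [e] at h
      exact h
    · intro r hr
      have h1 := hsqlo r hr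
      have h2 := hsqhi r hr
      apply one_div_le_one_div_of_le (by positivity)
      linarith
  · have h := intervalIntegral.integral_mono_on (a := (1 : ℝ)) (b := 2) (by norm_num)
      (g := fun _ => (1 : ℝ)) (f := fun r => 1 / (2 * Real.sqrt (w₀ r)))
      iinv (by simp) ?_
    · rw [intervalIntegral.integral_const] at h
      norm_num at h
      rw [hτ]
      norm_num
      exact h
    · intro r hr
      have h1 := hsqlo r hr
      rw [div_le_one (by positivity)]
      linarith
  · have : th b x₀ = ((∫ r in (1 : ℝ)..2, Real.sqrt (w₀ r) : ℝ) : ℂ) := by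
      unfold th
      rw [← intervalIntegral.integral_ofReal]
      apply intervalIntegral.integral_congr
      intro r hr
      rw [huIcc] at hr
      exact hppx r hr
    rw [this, Complex.ofReal_im]
  · intro z hz
    have cz := cont_pp Λ b z hΛ hb hb' hz
    have cx := cont_pp Λ b x₀ hΛ hb hb' (by simp; linarith)
    have iz : IntervalIntegrable (fun r : ℝ => pp b z r) volume 1 2 := by
      apply ContinuousOn.intervalIntegrable
      rw [huIcc]; exact cz
    have ix : IntervalIntegrable (fun r : ℝ => pp b x₀ r) volume 1 2 := by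
      apply ContinuousOn.intervalIntegrable
      rw [huIcc]; exact cx
    have iτ : IntervalIntegrable (fun r : ℝ => ((1 / (2 * Real.sqrt (w₀ r)) : ℝ) : ℂ) * (z - x₀))
        volume 1 2 := by
      apply ContinuousOn.intervalIntegrable
      rw [huIcc]
      apply ContinuousOn.mul _ continuousOn_const
      exact Complex.continuous_ofReal.comp_continuousOn cinv
    have e : th b z - th b x₀ - τ * (z - x₀) = ∫ r in (1 : ℝ)..2,
        (pp b z r - pp b x₀ r - ((1 / (2 * Real.sqrt (w₀ r)) : ℝ) : ℂ) * (z - x₀)) := by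
      rw [intervalIntegral.integral_sub (iz.sub ix) iτ, intervalIntegral.integral_sub iz ix]
      rw [intervalIntegral.integral_mul_const, intervalIntegral.integral_ofReal]
      rfl
    rw [e]
    have hb1 : ∀ r ∈ uIoc (1 : ℝ) 2,
        ‖pp b z r - pp b x₀ r - ((1 / (2 * Real.sqrt (w₀ r)) : ℝ) : ℂ) * (z - x₀)‖ ≤
          4 * ‖z - x₀‖ ^ 2 := by
      intro r hr
      rw [uIoc_of_le (by norm_num)] at hr
      have hr' : r ∈ Icc (1 : ℝ) 2 := ⟨hr.1.le, hr.2⟩
      rw [hppx r hr']
      set w : ℂ := z - ((b / r ^ 2 : ℝ) : ℂ) with hw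
      have hbr := br_bound Λ b r hΛ hb hb' hr'
      have hwre : 0 < w.re := by
        simp only [hw, Complex.sub_re, Complex.ofReal_re]
        linarith [hbr.2]
      have hw0 : w ≠ 0 := by
        intro h; rw [h] at hwre; simp at hwre
      have hp : pp b z r = sq w := rfl
      rw [hp]
      have h2 := sq_sq w hw0
      have h3 := sq_re_pos w hwre
      set S : ℂ := sq w with hS
      set s : ℝ := Real.sqrt (w₀ r) with hs
      have hs0 : 1 / 2 ≤ s := hsqlo r hr'
      have hs2 : s ^ 2 = w₀ r := Real.sq_sqrt (by linarith [hw0lo r hr'])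
      have hdiff : z - x₀ = S ^ 2 - (s : ℂ) ^ 2 := by
        rw [h2]
        have : (s : ℂ) ^ 2 = ((w₀ r : ℝ) : ℂ) := by rw [← hs2]; push_cast; ring
        rw [this]
        simp only [hw, hw₀]
        push_cast
        ring
      have hsc : (s : ℂ) ≠ 0 := by
        have : s ≠ 0 := by linarith
        exact_mod_cast this
      have hSs : 1 / 2 ≤ ‖S + s‖ := by
        have h4 := Complex.re_le_norm (S + s)
        simp only [Complex.add_re, Complex.ofReal_re] at h4
        linarith
      have hSs0 : S + s ≠ 0 := by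
        intro h; rw [h, norm_zero] at hSs; norm_num at hSs
      have e2 : S - (s : ℂ) - ((1 / (2 * s) : ℝ) : ℂ) * (z - x₀) =
          -(z - x₀) ^ 2 / (2 * s * (S + s) ^ 2) := by
        rw [hdiff]
        push_cast
        rw [eq_div_iff (by exact mul_ne_zero (mul_ne_zero (by norm_num) hsc) (pow_ne_zero 2 hSs0))]
        field_simp
        ring
      rw [e2, norm_div, norm_neg, norm_pow]
      have h5 : 1 / 4 ≤ ‖2 * (s : ℂ) * (S + s) ^ 2‖ := by
        rw [norm_mul, norm_mul, norm_pow, Complex.norm_real, Real.norm_of_nonneg (by linarith)]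
        have : (1 / 2 : ℝ) ^ 2 ≤ ‖S + s‖ ^ 2 := pow_le_pow_left₀ (by norm_num) hSs 2
        have h6 : ‖(2 : ℂ)‖ = 2 := by simp
        rw [h6]
        nlinarith
      rw [div_le_iff₀ (by linarith)]
      have h7 : 0 ≤ ‖z - x₀‖ ^ 2 := by positivity
      nlinarith
    have := intervalIntegral.norm_integral_le_of_norm_le_const hb1
    norm_num at this
    norm_num
    exact this

end Pool.Agent.Run7.h998.LT.PACT
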