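import Pool.Agent.Run7.h998.LT.Stm

set_option autoImplicit false

open MeasureTheory Filter Topology Set
open scoped ENNReal NNReal

namespace Pool.Agent.Run7.h998.LT.PCONV

open Pool.Agent.Helper41.CE

/-- derivative of the power factor -/
lemma pow_deriv (a : ℝ) {r : ℝ} (hr : 0 < r) :
    HasDerivAt (fun r : ℝ => ((r ^ a : ℝ) : ℂ)) (((r ^ a : ℝ) : ℂ) * ((a : ℂ) / (r : ℂ))) r := by
  have h1 := (Real.hasDerivAt_rpow_const (x := r) (p := a) (Or.inl hr.ne')).ofReal_comp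
  have h2 : ((a * r ^ (a - 1) : ℝ) : ℂ) = ((r ^ a : ℝ) : ℂ) * ((a : ℂ) / (r : ℂ)) := by
    rw [Real.rpow_sub_one hr.ne']
    push_cast
    ring
  rwa [h2] at h1

lemma sq_deriv (r : ℝ) : HasDerivAt (fun r : ℝ => r ^ 2) (2 * r) r := by
  simpa using hasDerivAt_pow 2 r

lemma conv1 (D : ℕ) (ν : ℂ) (g g1 : ℝ → ℂ) (r : ℝ) (hr : 0 < r) (h : SolG D ν g g1 {r ^ 2}) :
    HasDerivAt (uu D g) (uu1 D g g1 r) r ∧
    HasDerivAt (uu1 D g g1)
      ((ν + ((D : ℂ) - 1) * ((D : ℂ) - 3) / (4 * (r : ℂ) ^ 2)) * uu D g r) r := by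
  obtain ⟨hg, hg1⟩ := h (r ^ 2) rfl
  have hr' : (r : ℂ) ≠ 0 := by exact_mod_cast hr.ne'
  have e1 : HasDerivAt (fun r : ℝ => g (r ^ 2)) ((2 * r : ℝ) • g1 (r ^ 2)) r :=
    HasDerivAt.scomp (h := fun r : ℝ => r ^ 2) r hg (sq_deriv r)
  have e2 : HasDerivAt (fun r : ℝ => g1 (r ^ 2))
      ((2 * r : ℝ) • ((ν * g (r ^ 2) - 2 * D * g1 (r ^ 2)) / (4 * ((r ^ 2 : ℝ) : ℂ)))) r :=
    HasDerivAt.scomp (h := fun r : ℝ => r ^ 2) r hg1 (sq_deriv r)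
  have e3 := pow_deriv (((D : ℝ) - 1) / 2) hr
  have e4 : HasDerivAt (fun r : ℝ => (r : ℂ)) 1 r := by
    simpa using (hasDerivAt_id r).ofReal_comp
  constructor
  · have h1 := e3.mul e1
    refine h1.congr_deriv ?_
    unfold uu1
    rw [Complex.real_smul]
    push_cast
    field_simp
    ring
  · have e5 : HasDerivAt (fun r : ℝ => 2 * (r : ℂ) * g1 (r ^ 2) + ((D : ℂ) - 1) / (2 * (r : ℂ)) * g (r ^ 2))
        ((2 * 1 * g1 (r ^ 2) + 2 * (r : ℂ) * ((2 * r : ℝ) • ((ν * g (r ^ 2) - 2 * D * g1 (r ^ 2)) / (4 * ((r ^ 2 : ℝ) : ℂ)))))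
          + ((((0 : ℂ) * (2 * (r : ℂ)) - ((D : ℂ) - 1) * (2 * 1)) / (2 * (r : ℂ)) ^ 2) * g (r ^ 2) +
            ((D : ℂ) - 1) / (2 * (r : ℂ)) * ((2 * r : ℝ) • g1 (r ^ 2)))) r := by
      refine HasDerivAt.add ?_ ?_
      · exact (e4.const_mul 2).mul e2
      · refine HasDerivAt.mul ?_ e1
        exact (hasDerivAt_const r ((D : ℂ) - 1)).div (e4.const_mul 2) (by simpa using hr')
    have h1 := e3.mul e5
    refine h1.congr_deriv ?_
    unfold uu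
    rw [Complex.real_smul, Complex.real_smul]
    push_cast
    field_simp
    ring

lemma conv2 (D : ℕ) (g g1 : ℝ → ℂ) (r : ℝ) (hr : 0 < r) (hD : 1 ≤ D) :
    (starRingEnd ℂ (uu D g r) * uu1 D g g1 r).im =
      r ^ (D - 1) * (2 * r * (starRingEnd ℂ (g (r ^ 2)) * g1 (r ^ 2)).im) := by
  have h1 : (r ^ (((D : ℝ) - 1) / 2)) * (r ^ (((D : ℝ) - 1) / 2)) = r ^ (D - 1) := by
    rw [← Real.rpow_add hr, add_halves, ← Real.rpow_natCast, Nat.cast_sub hD, Nat.cast_one]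
  have h2 : starRingEnd ℂ (uu D g r) * uu1 D g g1 r =
      ((r ^ (D - 1) : ℝ) : ℂ) * (((2 * r : ℝ) : ℂ) * (starRingEnd ℂ (g (r ^ 2)) * g1 (r ^ 2)) +
        (((((D : ℝ) - 1) / (2 * r)) * Complex.normSq (g (r ^ 2)) : ℝ) : ℂ)) := by
    rw [← h1]
    unfold uu uu1
    rw [map_mul, Complex.conj_ofReal]
    have h3 : ((Complex.normSq (g (r ^ 2)) : ℝ) : ℂ) = starRingEnd ℂ (g (r ^ 2)) * g (r ^ 2) := by
      rw [Complex.normSq_eq_conj_mul_self]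
    push_cast
    rw [h3]
    ring
  rw [h2, Complex.im_ofReal_mul, Complex.add_im, Complex.im_ofReal_mul, Complex.ofReal_im, add_zero]

theorem p_CONV : S_CONV := ⟨fun D ν g g1 r hr h => conv1 D ν g g1 r hr h,
  fun D g g1 r hr hD => conv2 D g g1 r hr hD⟩

end Pool.Agent.Run7.h998.LT.PCONV
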