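import Pool.Agent.Run7.h998.LT.Stm

/-!
# MP_c84763_mp, piece DEC: the decaying solution
-/

set_option autoImplicit false

open MeasureTheory Filter Topology Set
open scoped ENNReal NNReal

namespace Pool.Agent.Run7.h998.LT

namespace DECp

/-- The integrand. -/
noncomputable def Fn (k : ℕ) (β : ℝ) (w : ℂ) (t : ℝ) : ℂ :=
  Complex.exp (-(w * t)) * ((t ^ k * (t ^ 2 - 1) ^ β : ℝ) : ℂ)

noncomputable def J (k : ℕ) (β : ℝ) (w : ℂ) : ℂ := ∫ t in Ioi (1 : ℝ), Fn k β w t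

lemma maj_int (k : ℕ) {β ε : ℝ} (hβ : 0 ≤ β) (hε : 0 < ε) :
    IntegrableOn (fun t : ℝ => t ^ ((k : ℝ) + 2 * β) * Real.exp (-ε * t)) (Ioi 1) := by
  have h := integrableOn_rpow_mul_exp_neg_mul_rpow (p := 1) (s := (k : ℝ) + 2 * β) (b := ε)
    (lt_of_lt_of_le (by norm_num) (by positivity : (0 : ℝ) ≤ (k : ℝ) + 2 * β)) one_pos hε
  simp only [Real.rpow_one] at h
  exact h.mono_set (Ioi_subset_Ioi zero_le_one)

lemma Fn_norm (k : ℕ) {β : ℝ} {t : ℝ} (ht : 1 ≤ t) (w : ℂ) :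
    ‖Fn k β w t‖ = Real.exp (-(w.re * t)) * (t ^ k * (t ^ 2 - 1) ^ β) := by
  have h1 : 0 ≤ (t ^ 2 - 1) ^ β := Real.rpow_nonneg (by nlinarith) _
  have h2 : 0 ≤ t ^ k * (t ^ 2 - 1) ^ β := by positivity
  unfold Fn
  rw [norm_mul, Complex.norm_exp, Complex.norm_real, Real.norm_eq_abs, abs_of_nonneg h2]
  congr 2
  simp

lemma le_maj (k : ℕ) {β ε : ℝ} (hβ : 0 ≤ β) {t : ℝ} (ht : 1 ≤ t) {w : ℂ} (hw : ε ≤ w.re) :
    ‖Fn k β w t‖ ≤ t ^ ((k : ℝ) + 2 * β) * Real.exp (-ε * t) := by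
  have ht0 : 0 < t := by linarith
  have h1 : 0 ≤ (t ^ 2 - 1) ^ β := Real.rpow_nonneg (by nlinarith) _
  rw [Fn_norm k ht w, mul_comm]
  have h3 : (t ^ 2 - 1) ^ β ≤ t ^ (2 * β) := by
    rw [Real.rpow_mul ht0.le, Real.rpow_two]
    exact Real.rpow_le_rpow (by nlinarith) (by linarith) hβ
  have h4 : t ^ k * (t ^ 2 - 1) ^ β ≤ t ^ ((k : ℝ) + 2 * β) := by
    rw [Real.rpow_add ht0, Real.rpow_natCast]
    gcongr
  have h5 : Real.exp (-(w.re * t)) ≤ Real.exp (-ε * t) := by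
    apply Real.exp_le_exp.2
    nlinarith
  exact mul_le_mul h4 h5 (Real.exp_nonneg _) (Real.rpow_nonneg ht0.le _)

lemma cont (k : ℕ) {β : ℝ} (hβ : 0 ≤ β) (w : ℂ) : Continuous (Fn k β w) := by
  have h1 : Continuous (fun t : ℝ => (t ^ 2 - 1) ^ β) :=
    (by fun_prop : Continuous fun t : ℝ => t ^ 2 - 1).rpow_const (fun _ => Or.inr hβ)
  unfold Fn
  exact (by fun_prop : Continuous fun t : ℝ => Complex.exp (-(w * t))).mul
    (Complex.continuous_ofReal.comp ((continuous_pow k).mul h1))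

lemma Fn_int (k : ℕ) {β : ℝ} (hβ : 0 ≤ β) {w : ℂ} (hw : 0 < w.re) :
    IntegrableOn (Fn k β w) (Ioi 1) :=
  (maj_int k hβ hw).mono' (cont k hβ w).aestronglyMeasurable
    (ae_restrict_of_forall_mem measurableSet_Ioi fun _ ht => le_maj k hβ (le_of_lt ht) le_rfl)

lemma Fn_tendsto (k : ℕ) {β : ℝ} (hβ : 0 ≤ β) {w : ℂ} (hw : 0 < w.re) :
    Tendsto (Fn k β w) atTop (𝓝 0) := by
  apply squeeze_zero_norm' (a := fun t : ℝ => t ^ ((k : ℝ) + 2 * β) * Real.exp (-w.re * t))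
  · filter_upwards [eventually_ge_atTop (1 : ℝ)] with t ht
    exact le_maj k hβ ht le_rfl
  · exact tendsto_rpow_mul_exp_neg_mul_atTop_nhds_zero _ _ hw

lemma hasDeriv (k : ℕ) {β : ℝ} (hβ : 0 ≤ β) {w : ℂ} (hw : 0 < w.re) :
    HasDerivAt (J k β) (-J (k + 1) β w) w := by
  have hs : Metric.ball w (w.re / 2) ∈ 𝓝 w := Metric.ball_mem_nhds w (by linarith)
  have h := hasDerivAt_integral_of_dominated_loc_of_deriv_le (μ := volume.restrict (Ioi (1 : ℝ)))
    (F := fun (w : ℂ) (t : ℝ) => Fn k β w t) (F' := fun (w : ℂ) (t : ℝ) => -Fn (k + 1) β w t)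
    (x₀ := w) (s := Metric.ball w (w.re / 2))
    (bound := fun t : ℝ => t ^ (((k + 1 : ℕ) : ℝ) + 2 * β) * Real.exp (-(w.re / 2) * t)) hs
    (Eventually.of_forall fun w => (cont k hβ w).aestronglyMeasurable) (Fn_int k hβ hw)
    (cont (k + 1) hβ w).neg.aestronglyMeasurable
    (ae_restrict_of_forall_mem measurableSet_Ioi fun t ht v hv => by
      rw [norm_neg]
      refine le_maj (k + 1) hβ (le_of_lt ht) ?_
      rw [Metric.mem_ball, dist_eq_norm] at hv
      have := (abs_le.1 ((Complex.abs_re_le_norm (v - w)).trans hv.le)).1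
      rw [Complex.sub_re] at this
      linarith)
    (maj_int (k + 1) hβ (by linarith))
    (ae_restrict_of_forall_mem measurableSet_Ioi fun t ht v hv => by
      have h1 : HasDerivAt (fun v : ℂ => v * (-(t : ℂ))) (1 * (-(t : ℂ))) v :=
        (hasDerivAt_id v).mul_const (-(t : ℂ))
      have h2 := (h1.cexp).mul_const (((t ^ k * (t ^ 2 - 1) ^ β : ℝ)) : ℂ)
      have e1 : (fun v : ℂ => Fn k β v t) = fun v : ℂ => Complex.exp (v * (-(t : ℂ))) *
          (((t ^ k * (t ^ 2 - 1) ^ β : ℝ)) : ℂ) := by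
        funext v
        unfold Fn
        rw [mul_neg]
      have e2 : -Fn (k + 1) β v t = Complex.exp (v * (-(t : ℂ))) * (1 * (-(t : ℂ))) *
          (((t ^ k * (t ^ 2 - 1) ^ β : ℝ)) : ℂ) := by
        unfold Fn
        rw [mul_neg, pow_succ]
        push_cast
        ring
      rw [e1, e2]
      exact h2)
  have h2 := h.2
  rw [integral_neg] at h2
  exact h2

lemma dexp (w : ℂ) (t : ℝ) : HasDerivAt (fun t : ℝ => Complex.exp (-(w * t)))
    (Complex.exp (-(w * t)) * (-w)) t := by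
  have h0 : HasDerivAt (fun t : ℝ => (t : ℂ)) 1 t := (hasDerivAt_id t).ofReal_comp
  have h1 := (h0.const_mul (-w)).cexp
  have e1 : (fun t : ℝ => Complex.exp (-(w * t))) = fun t : ℝ => Complex.exp (-w * t) := by
    funext t
    rw [neg_mul]
  rw [e1, ← neg_mul]
  rwa [mul_one] at h1

lemma dpow {β : ℝ} (hβ : 0 ≤ β) (t : ℝ) : HasDerivAt (fun t : ℝ => (t ^ 2 - 1) ^ (β + 1))
    ((2 * t) * (β + 1) * (t ^ 2 - 1) ^ β) t := by
  have h3 : HasDerivAt (fun t : ℝ => t ^ 2 - 1) (2 * t) t := by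
    simpa using (hasDerivAt_pow 2 t).sub_const 1
  have h4 := h3.rpow_const (p := β + 1) (Or.inr (by linarith))
  rwa [add_sub_cancel_right] at h4

/-- `2 (β+1) J 1 β = w J 0 (β+1)` -/
lemma parts1 {β : ℝ} (hβ : 0 ≤ β) {w : ℂ} (hw : 0 < w.re) :
    2 * ((β : ℂ) + 1) * J 1 β w = w * J 0 (β + 1) w := by
  have hβ1 : 0 ≤ β + 1 := by linarith
  have h := integral_Ioi_of_hasDerivAt_of_tendsto' (a := (1 : ℝ)) (f := Fn 0 (β + 1) w)
    (f' := fun t => 2 * ((β : ℂ) + 1) * Fn 1 β w t - w * Fn 0 (β + 1) w t) (m := 0) (by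
      intro t ht
      have h5 := (dexp w t).fun_mul (dpow hβ t).ofReal_comp
      have e1 : Fn 0 (β + 1) w = fun t : ℝ => Complex.exp (-(w * t)) *
          (((t ^ 2 - 1) ^ (β + 1) : ℝ) : ℂ) := by
        funext t
        unfold Fn
        rw [pow_zero, one_mul]
      have e2 : 2 * ((β : ℂ) + 1) * Fn 1 β w t - w * Fn 0 (β + 1) w t =
          Complex.exp (-(w * t)) * (-w) * (((t ^ 2 - 1) ^ (β + 1) : ℝ) : ℂ) +
          Complex.exp (-(w * t)) * (((2 * t) * (β + 1) * (t ^ 2 - 1) ^ β : ℝ) : ℂ) := by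
        unfold Fn
        push_cast
        ring
      rw [e2, e1]
      exact h5)
    (((Fn_int 1 hβ hw).const_mul _).sub ((Fn_int 0 hβ1 hw).const_mul _)) (Fn_tendsto 0 hβ1 hw)
  have h0 : Fn 0 (β + 1) w 1 = 0 := by
    have hz : ((1 : ℝ) ^ 2 - 1) ^ (β + 1) = 0 := by
      rw [one_pow, sub_self, Real.zero_rpow (by linarith)]
    unfold Fn
    rw [hz]
    simp
  rw [h0, sub_zero, integral_sub ((Fn_int 1 hβ hw).const_mul _) ((Fn_int 0 hβ1 hw).const_mul _),
    integral_const_mul, integral_const_mul] at h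
  unfold J
  linear_combination h

/-- `w J 1 (β+1) = (2β+3) J 0 (β+1) + 2 (β+1) J 0 β` -/
lemma parts2 {β : ℝ} (hβ : 0 ≤ β) {w : ℂ} (hw : 0 < w.re) :
    w * J 1 (β + 1) w = (2 * (β : ℂ) + 3) * J 0 (β + 1) w + 2 * ((β : ℂ) + 1) * J 0 β w := by
  have hβ1 : 0 ≤ β + 1 := by linarith
  have h := integral_Ioi_of_hasDerivAt_of_tendsto' (a := (1 : ℝ)) (f := Fn 1 (β + 1) w)
    (f' := fun t => (2 * (β : ℂ) + 3) * Fn 0 (β + 1) w t + 2 * ((β : ℂ) + 1) * Fn 0 β w t -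
      w * Fn 1 (β + 1) w t) (m := 0) (by
      intro t ht
      have ht1 : (1 : ℝ) ≤ t := ht
      have h5 := (dexp w t).fun_mul ((hasDerivAt_id' t).fun_mul (dpow hβ t)).ofReal_comp
      have e1 : Fn 1 (β + 1) w = fun t : ℝ => Complex.exp (-(w * t)) *
          ((t * (t ^ 2 - 1) ^ (β + 1) : ℝ) : ℂ) := by
        funext t
        unfold Fn
        rw [pow_one]
      have h7 : (t ^ 2 - 1) ^ (β + 1) = (t ^ 2 - 1) ^ β * (t ^ 2 - 1) := by
        rcases eq_or_lt_of_le ht1 with h | h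
        · rw [← h, one_pow, sub_self, Real.zero_rpow (by linarith), mul_zero]
        · rw [Real.rpow_add (by nlinarith), Real.rpow_one]
      have e2 : (2 * (β : ℂ) + 3) * Fn 0 (β + 1) w t + 2 * ((β : ℂ) + 1) * Fn 0 β w t -
          w * Fn 1 (β + 1) w t =
          Complex.exp (-(w * t)) * (-w) * ((t * (t ^ 2 - 1) ^ (β + 1) : ℝ) : ℂ) +
          Complex.exp (-(w * t)) * ((1 * (t ^ 2 - 1) ^ (β + 1) +
            t * ((2 * t) * (β + 1) * (t ^ 2 - 1) ^ β) : ℝ) : ℂ) := by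
        unfold Fn
        rw [h7]
        push_cast
        ring
      rw [e2, e1]
      exact h5)
    ((((Fn_int 0 hβ1 hw).const_mul _).add ((Fn_int 0 hβ hw).const_mul _)).sub
      ((Fn_int 1 hβ1 hw).const_mul _)) (Fn_tendsto 1 hβ1 hw)
  have h0 : Fn 1 (β + 1) w 1 = 0 := by
    have hz : ((1 : ℝ) ^ 2 - 1) ^ (β + 1) = 0 := by
      rw [one_pow, sub_self, Real.zero_rpow (by linarith)]
    unfold Fn
    rw [hz]
    simp
  have i0 := (Fn_int 0 hβ1 hw).const_mul (2 * (β : ℂ) + 3)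
  have i1 := (Fn_int 0 hβ hw).const_mul (2 * ((β : ℂ) + 1))
  have i2 := (Fn_int 1 hβ1 hw).const_mul w
  have e3 : ∫ t in Ioi (1 : ℝ), ((2 * (β : ℂ) + 3) * Fn 0 (β + 1) w t +
      2 * ((β : ℂ) + 1) * Fn 0 β w t - w * Fn 1 (β + 1) w t) =
      (2 * (β : ℂ) + 3) * (∫ t in Ioi (1 : ℝ), Fn 0 (β + 1) w t) +
      2 * ((β : ℂ) + 1) * (∫ t in Ioi (1 : ℝ), Fn 0 β w t) -
      w * ∫ t in Ioi (1 : ℝ), Fn 1 (β + 1) w t := by
    rw [← integral_const_mul, ← integral_const_mul, ← integral_const_mul]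
    rw [← integral_add i0 i1]
    exact integral_sub (i0.add i1) i2
  rw [h0, sub_zero, e3] at h
  unfold J
  linear_combination -h

/-- the exponent -/
noncomputable def al (D : ℕ) : ℝ := ((D : ℝ) - 3) / 2

lemma al_pos {D : ℕ} (hD : 4 ≤ D) : 0 < al D := by
  have : (4 : ℝ) ≤ D := by exact_mod_cast hD
  unfold al
  linarith

lemma al_add (D : ℕ) : al (D + 2) = al D + 1 := by
  unfold al
  push_cast
  ring

lemma Dec_eq (D : ℕ) : Dec D = J 0 (al D) := by
  funext w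
  unfold Dec J Fn al
  simp only [pow_zero, one_mul]

lemma Dec_deriv {D : ℕ} (hD : 4 ≤ D) {w : ℂ} (hw : 0 < w.re) :
    HasDerivAt (Dec D) (-(w / ((D : ℂ) - 1) * Dec (D + 2) w)) w := by
  rw [Dec_eq, Dec_eq, al_add]
  have h := hasDeriv 0 (al_pos hD).le hw
  have h2 := parts1 (al_pos hD).le hw
  have hne : (2 * ((al D : ℂ) + 1)) = (D : ℂ) - 1 := by
    unfold al
    push_cast
    ring
  have hne2 : (D : ℂ) - 1 ≠ 0 := by
    have h3 : (1 : ℝ) < D := by
      have : (4 : ℝ) ≤ D := by exact_mod_cast hD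
      linarith
    have h4 : ((D : ℝ) - 1 : ℝ) ≠ 0 := by linarith
    intro h5
    apply h4
    exact_mod_cast h5
  rw [hne] at h2
  convert h using 1
  rw [zero_add]
  field_simp
  linear_combination h2

lemma Dec_rec {D : ℕ} (hD : 4 ≤ D) {w : ℂ} (hw : 0 < w.re) :
    w ^ 2 / ((D : ℂ) + 1) * Dec (D + 4) w = D * Dec (D + 2) w + ((D : ℂ) - 1) * Dec D w := by
  have h1 := parts2 (al_pos hD).le hw
  have h2 := parts1 (by have := al_pos hD; linarith : 0 ≤ al D + 1) hw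
  have e1 : (2 * (al D : ℂ) + 3) = D := by
    unfold al
    push_cast
    ring
  have e2 : (2 * ((al D : ℂ) + 1)) = (D : ℂ) - 1 := by
    unfold al
    push_cast
    ring
  have e3 : (2 * (((al D + 1 : ℝ) : ℂ) + 1)) = (D : ℂ) + 1 := by
    unfold al
    push_cast
    ring
  rw [e1, e2] at h1
  rw [e3] at h2
  have hne : (D : ℂ) + 1 ≠ 0 := by exact_mod_cast Nat.succ_ne_zero D
  have h4 : Dec (D + 4) w = J 0 (al D + 1 + 1) w := by
    rw [Dec_eq, show D + 4 = D + 2 + 2 by ring, al_add, al_add]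
  have h5 : Dec (D + 2) w = J 0 (al D + 1) w := by rw [Dec_eq, al_add]
  have h6 : Dec D w = J 0 (al D) w := by rw [Dec_eq]
  rw [h4, h5, h6, ← h1]
  field_simp
  linear_combination -w * h2

lemma Dec_norm {D : ℕ} (hD : 4 ≤ D) {κ : ℂ} (hκ : 0 < κ.re) {r : ℝ} (hr : 2 ≤ r) :
    ‖Dec D (κ * (r : ℂ))‖ ≤ Real.exp (-(κ.re * (r - 2))) *
      ∫ t in Ioi (1 : ℝ), ‖Fn 0 (al D) (2 * κ) t‖ := by
  rw [Dec_eq]
  unfold J
  have h2κ : 0 < (2 * κ).re := by simp [hκ]
  rw [← integral_const_mul]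
  refine norm_integral_le_of_norm_le ((Fn_int 0 (al_pos hD).le h2κ).norm.const_mul _) ?_
  refine ae_restrict_of_forall_mem measurableSet_Ioi fun t ht => ?_
  have ht1 : (1 : ℝ) ≤ t := le_of_lt ht
  rw [Fn_norm 0 ht1, Fn_norm 0 ht1]
  have h1 : 0 ≤ (t ^ 2 - 1) ^ (al D) := Real.rpow_nonneg (by nlinarith) _
  rw [← mul_assoc (Real.exp (-(κ.re * (r - 2)))), ← Real.exp_add]
  refine mul_le_mul_of_nonneg_right ?_ (by positivity)
  apply Real.exp_le_exp.2
  have e1 : (κ * (r : ℂ)).re = κ.re * r := by simp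
  have e2 : (2 * κ).re = 2 * κ.re := by simp
  rw [e1, e2]
  nlinarith [mul_nonneg hκ.le (mul_nonneg (sub_nonneg.2 hr) (sub_nonneg.2 ht1))]

lemma Dec_one {D : ℕ} (hD : 4 ≤ D) : Dec D 1 ≠ 0 := by
  have h0 : Dec D 1 = ((∫ t in Ioi (1 : ℝ), Real.exp (-t) * (t ^ 2 - 1) ^ (al D) : ℝ) : ℂ) := by
    rw [Dec_eq]
    unfold J Fn
    rw [← integral_complex_ofReal]
    congr 1
    funext t
    push_cast
    simp
  have hint : IntegrableOn (fun t : ℝ => Real.exp (-t) * (t ^ 2 - 1) ^ (al D)) (Ioi 1) := by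
    have h1 := (Fn_int 0 (al_pos hD).le (w := 1) (by simp)).norm
    refine h1.congr (ae_restrict_of_forall_mem measurableSet_Ioi fun t ht => ?_)
    simp only
    rw [Fn_norm 0 (le_of_lt ht)]
    simp
  have hpos : 0 < ∫ t in Ioi (1 : ℝ), Real.exp (-t) * (t ^ 2 - 1) ^ (al D) := by
    rw [setIntegral_pos_iff_support_of_nonneg_ae]
    · have : Function.support (fun t : ℝ => Real.exp (-t) * (t ^ 2 - 1) ^ (al D)) ∩ Ioi 1 = Ioi 1 := by
        refine Set.inter_eq_right.2 fun t ht => ?_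
        have ht1 : (1 : ℝ) < t := ht
        have : 0 < Real.exp (-t) * (t ^ 2 - 1) ^ (al D) :=
          mul_pos (Real.exp_pos _) (Real.rpow_pos_of_pos (by nlinarith) _)
        exact this.ne'
      rw [this]
      simp
    · refine ae_restrict_of_forall_mem measurableSet_Ioi fun t ht => ?_
      have ht1 : (1 : ℝ) < t := ht
      exact mul_nonneg (Real.exp_nonneg _) (Real.rpow_nonneg (by nlinarith) _)
    · exact hint
  rw [h0]
  exact_mod_cast hpos.ne'

end DECp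

open DECp in
theorem p_DEC : S_DEC := by
  refine ⟨?_, ?_, ?_, ?_⟩
  · intro D hD w hw
    exact (Dec_deriv hD hw).differentiableAt.differentiableWithinAt
  · intro D κ hD hκ s hs
    have hs0 : (0 : ℝ) < s := hs
    have hr : 0 < Real.sqrt s := Real.sqrt_pos.2 hs0
    have hre : 0 < (κ * (Real.sqrt s : ℂ)).re := by
      rw [Complex.re_mul_ofReal]
      positivity
    have hsq : (Real.sqrt s : ℂ) ^ 2 = s := by exact_mod_cast Real.sq_sqrt hs0.le
    have hrne : (Real.sqrt s : ℂ) ≠ 0 := by exact_mod_cast hr.ne'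
    have hsne : (s : ℂ) ≠ 0 := by exact_mod_cast hs0.ne'
    have hDne : (D : ℂ) - 1 ≠ 0 := by
      have h3 : (4 : ℝ) ≤ D := by exact_mod_cast hD
      have h4 : ((D : ℝ) - 1 : ℝ) ≠ 0 := by linarith
      intro h5
      apply h4
      exact_mod_cast h5
    have hDne2 : (D : ℂ) + 1 ≠ 0 := by exact_mod_cast Nat.succ_ne_zero D
    have hder : HasDerivAt (fun s : ℝ => κ * (Real.sqrt s : ℂ)) (κ * (1 / (2 * Real.sqrt s) : ℝ)) s :=
      ((Real.hasDerivAt_sqrt hs0.ne').ofReal_comp).const_mul κ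
    have key : ∀ D' : ℕ, 4 ≤ D' → HasDerivAt (fun s : ℝ => Dec D' (κ * (Real.sqrt s : ℂ)))
        (-κ ^ 2 / (2 * ((D' : ℂ) - 1)) * Dec (D' + 2) (κ * (Real.sqrt s : ℂ))) s := by
      intro D' hD'
      have h1 := (Dec_deriv hD' hre).scomp s hder
      have hDne' : (D' : ℂ) - 1 ≠ 0 := by
        have h3 : (4 : ℝ) ≤ D' := by exact_mod_cast hD'
        have h4 : ((D' : ℝ) - 1 : ℝ) ≠ 0 := by linarith
        intro h5
        apply h4
        exact_mod_cast h5
      have e1 : -κ ^ 2 / (2 * ((D' : ℂ) - 1)) * Dec (D' + 2) (κ * (Real.sqrt s : ℂ)) =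
          (κ * (1 / (2 * Real.sqrt s) : ℝ)) • -(κ * (Real.sqrt s : ℂ) / ((D' : ℂ) - 1) *
            Dec (D' + 2) (κ * (Real.sqrt s : ℂ))) := by
        rw [smul_eq_mul]
        push_cast
        field_simp
      rw [e1]
      exact h1
    refine ⟨key D hD, ?_⟩
    have h2 := (key (D + 2) (by omega)).const_mul (-κ ^ 2 / (2 * ((D : ℂ) - 1)))
    have h3 := Dec_rec hD hre
    have e1 : (((D + 2 : ℕ) : ℂ) - 1) = (D : ℂ) + 1 := by push_cast; ring
    rw [mul_pow, hsq] at h3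
    have e2 : (κ ^ 2 * Kg D κ s - 2 * D * Kg1 D κ s) / (4 * s) =
        -κ ^ 2 / (2 * ((D : ℂ) - 1)) * (-κ ^ 2 / (2 * (((D + 2 : ℕ) : ℂ) - 1)) *
          Dec (D + 2 + 2) (κ * (Real.sqrt s : ℂ))) := by
      rw [e1]
      unfold Kg Kg1
      rw [show D + 2 + 2 = D + 4 by ring]
      field_simp at h3 ⊢
      linear_combination (-4 * κ ^ 2) * h3
    rw [e2]
    exact h2
  · intro D κ hD hκ
    obtain ⟨A, hA⟩ : ∃ A, A = ∫ t in Ioi (1 : ℝ), ‖Fn 0 (al D) (2 * κ) t‖ := ⟨_, rfl⟩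
    obtain ⟨B, hB⟩ : ∃ B, B = ∫ t in Ioi (1 : ℝ), ‖Fn 0 (al (D + 2)) (2 * κ) t‖ := ⟨_, rfl⟩
    have hA0 : 0 ≤ A := by rw [hA]; exact integral_nonneg fun _ => norm_nonneg _
    have hB0 : 0 ≤ B := by rw [hB]; exact integral_nonneg fun _ => norm_nonneg _
    obtain ⟨N, hN⟩ : ∃ N, N = ‖-κ ^ 2 / (2 * ((D : ℂ) - 1))‖ := ⟨_, rfl⟩
    have hN0 : 0 ≤ N := by rw [hN]; exact norm_nonneg _
    refine ⟨Real.exp (2 * κ.re) * (A + N * B), κ.re, hκ, fun s hs => ?_⟩
    have hr2 : 2 ≤ Real.sqrt s := by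
      rw [show (2 : ℝ) = Real.sqrt (2 ^ 2) by rw [Real.sqrt_sq (by norm_num)]]
      exact Real.sqrt_le_sqrt (by linarith)
    have h1 := Dec_norm hD hκ hr2
    have h2 := Dec_norm (show 4 ≤ D + 2 by omega) hκ hr2
    rw [← hA] at h1
    rw [← hB] at h2
    have h3 : Real.exp (-(κ.re * (Real.sqrt s - 2))) = Real.exp (2 * κ.re) *
        Real.exp (-(κ.re * Real.sqrt s)) := by
      rw [← Real.exp_add]
      congr 1
      ring
    have hE1 := Real.exp_pos (2 * κ.re)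
    have hE2 := Real.exp_pos (-(κ.re * Real.sqrt s))
    rw [h3] at h1 h2
    constructor
    · unfold Kg
      refine h1.trans ?_
      have : 0 ≤ Real.exp (2 * κ.re) * Real.exp (-(κ.re * Real.sqrt s)) * (N * B) := by positivity
      linarith
    · unfold Kg1
      rw [norm_mul, ← hN]
      calc N * ‖Dec (D + 2) (κ * (Real.sqrt s : ℂ))‖ ≤ N * (Real.exp (2 * κ.re) *
            Real.exp (-(κ.re * Real.sqrt s)) * B) := by gcongr
        _ ≤ _ := by
          have : 0 ≤ Real.exp (2 * κ.re) * Real.exp (-(κ.re * Real.sqrt s)) * A := by positivity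
          linarith
  · intro D κ hD hκ R
    by_contra hcon
    push Not at hcon
    have hopen : IsOpen {w : ℂ | 0 < w.re} := isOpen_lt continuous_const Complex.continuous_re
    have hd : DifferentiableOn ℂ (Dec D) {w : ℂ | 0 < w.re} := fun w hw =>
      (Dec_deriv hD hw).differentiableAt.differentiableWithinAt
    have han : AnalyticOnNhd ℂ (Dec D) {w : ℂ | 0 < w.re} := hd.analyticOnNhd hopen
    have hpre : IsPreconnected {w : ℂ | 0 < w.re} := (convex_halfSpace_re_gt 0).isPreconnected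
    obtain ⟨r₀, hr₀⟩ : ∃ r₀ : ℝ, r₀ = |R| + 1 := ⟨_, rfl⟩
    have hr₀1 : 1 ≤ r₀ := by rw [hr₀]; linarith [abs_nonneg R]
    have hz₀ : κ * (r₀ : ℂ) ∈ {w : ℂ | 0 < w.re} := by
      change 0 < (κ * (r₀ : ℂ)).re
      rw [Complex.re_mul_ofReal]
      positivity
    have hzero : ∀ r : ℝ, r₀ < r → Dec D (κ * (r : ℂ)) = 0 := by
      intro r hr
      have h1 : R < r ^ 2 := by
        have : |R| < r := by linarith
        have h2 := le_abs_self R
        nlinarith [abs_nonneg R]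
      have h2 := hcon (r ^ 2) h1 (by nlinarith)
      unfold Kg at h2
      rwa [Real.sqrt_sq (by linarith)] at h2
    have hfreq : ∃ᶠ z in 𝓝[≠] (κ * (r₀ : ℂ)), Dec D z = 0 := by
      have ht : Tendsto (fun r : ℝ => κ * (r : ℂ)) (𝓝[>] r₀) (𝓝[≠] (κ * (r₀ : ℂ))) := by
        refine tendsto_nhdsWithin_iff.2 ⟨?_, ?_⟩
        · have : Continuous (fun r : ℝ => κ * (r : ℂ)) := by fun_prop
          exact (this.tendsto r₀).mono_left nhdsWithin_le_nhds
        · filter_upwards [self_mem_nhdsWithin] with r hr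
          have hr' : r₀ < r := hr
          intro h
          have hκne : κ ≠ 0 := by
            rintro rfl
            simp at hκ
          have := mul_left_cancel₀ hκne (Set.mem_singleton_iff.1 h)
          have h4 : r = r₀ := by exact_mod_cast this
          linarith
      refine ht.frequently ?_
      refine Eventually.frequently ?_
      filter_upwards [self_mem_nhdsWithin] with r hr
      exact hzero r hr
    have hall := han.eqOn_zero_of_preconnected_of_frequently_eq_zero hpre hz₀ hfreq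
    have h1 : Dec D 1 = 0 := hall (show (1 : ℂ) ∈ {w : ℂ | 0 < w.re} by
      change 0 < (1 : ℂ).re
      simp)
    exact Dec_one hD h1

end Pool.Agent.Run7.h998.LT
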