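import Pool.Agent.Run7.h998.LT.Stm
import Pool.Agent.N537.RS.HDim

/-!
# DIM: the dimension of the space of harmonic polynomials (helper576)
-/

set_option autoImplicit false

open MvPolynomial

namespace Pool.Agent.Run7.h998.LT

theorem p_DIM : S_DIM := by
  intro d ℓ hd hℓ
  obtain ⟨e, rfl⟩ : ∃ e, d = e + 2 := ⟨d - 2, by omega⟩
  obtain ⟨m, rfl⟩ : ∃ m, ℓ = m + 2 := ⟨ℓ - 2, by omega⟩
  have h1 := Pool.Agent.Helper477.HarmInv.finrank_harmonic (n := e + 2) (by omega)
    (⊤ : Submodule ℝ (MvPolynomial (Fin (e + 2)) ℝ)) (fun _ _ => Submodule.mem_top)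
    (fun _ _ => Submodule.mem_top) m
  rw [inf_top_eq, inf_top_eq, inf_top_eq, Pool.Agent.N537.RS.HD.finrank_homog,
    Pool.Agent.N537.RS.HD.finrank_homog, Nat.multichoose_eq, Nat.multichoose_eq] at h1
  have h2 : Module.finrank ℝ (HP (e + 2) (m + 2)) + (e + 2 + m - 1).choose m =
      (e + 2 + (m + 2) - 1).choose (m + 2) := h1
  have e1 : (e + 2 + m - 1).choose m = (m + e + 1).choose (e + 1) := by
    rw [show e + 2 + m - 1 = m + e + 1 by omega]
    exact Nat.choose_symm_of_eq_add (by omega)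
  have e2 : (e + 2 + (m + 2) - 1).choose (m + 2) = (m + e + 3).choose (e + 1) := by
    rw [show e + 2 + (m + 2) - 1 = m + e + 3 by omega]
    exact Nat.choose_symm_of_eq_add (by omega)
  rw [e1, e2] at h2
  have e3 : (m + e + 3).choose (e + 1) = (m + e + 2).choose e + (m + e + 2).choose (e + 1) :=
    Nat.choose_succ_succ _ _
  have e4 : (m + e + 2).choose (e + 1) = (m + e + 1).choose e + (m + e + 1).choose (e + 1) :=
    Nat.choose_succ_succ _ _
  have e5 : (m + e + 2).choose e ≤ Module.finrank ℝ (HP (e + 2) (m + 2)) := by omega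
  have e6 := Nat.pow_le_choose (α := ℝ) e (m + e + 2)
  have e7 : (m + e + 2).choose e ≤ ((Module.finrank ℝ (HP (e + 2) (m + 2)) : ℕ) : ℝ) := by
    exact_mod_cast e5
  refine le_trans ?_ (e6.trans e7)
  have e8 : (e + 2 - 2 : ℕ) = e := by omega
  rw [e8]
  apply div_le_div_of_nonneg_right _ (by positivity)
  have e9 : m + e + 2 + 1 - e = m + 3 := by omega
  rw [e9]
  push_cast
  exact pow_le_pow_left₀ (by positivity) (by linarith) e

end Pool.Agent.Run7.h998.LT
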