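import Pool.Agent.Run7.h998.LT.Stm

/-!
# EX: existence of the profiles
-/

set_option autoImplicit false

open MeasureTheory Filter Topology Set
open scoped ENNReal NNReal

namespace Pool.Agent.Run7.h998.LT.PEX

open Pool.Agent.Helper41.CE Pool.Agent.Run7.h998.LT

theorem differentiableAt_sq {w : ℂ} (hw : 0 < w.re) : DifferentiableAt ℂ sq w := by
  unfold sq
  have h : w ∈ Complex.slitPlane := Or.inl hw
  exact ((differentiableAt_id.clog h).div_const 2).cexp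

theorem sq_ne_zero (w : ℂ) : sq w ≠ 0 := Complex.exp_ne_zero _

theorem diff_aa (hR : S_REG) (Λ ħ : ℝ) (D : ℕ) (hD : 4 ≤ D)
    (hI : ∀ z ∈ Bx Λ, Ig D (-(z + Complex.I) / (ħ : ℂ) ^ 2) 1 ≠ 0) :
    DifferentiableOn ℂ (aa ħ D) (Bx Λ) := by
  intro z hz
  have h0 := hI z hz
  have hR1 := (hR.1 D (by omega)).1
  have hR2 := (hR.1 (D + 2) (by omega)).1
  have hν : DifferentiableAt ℂ (fun z : ℂ => -(z + Complex.I) / (ħ : ℂ) ^ 2) z := by fun_prop
  have e1 : DifferentiableAt ℂ (fun z : ℂ => Ig D (-(z + Complex.I) / (ħ : ℂ) ^ 2) 1) z := by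
    unfold Ig
    exact (hR1 _).comp z ((hν.mul_const _).div_const _)
  have e2 : DifferentiableAt ℂ (fun z : ℂ => Ig1 D (-(z + Complex.I) / (ħ : ℂ) ^ 2) 1) z := by
    unfold Ig1
    exact (hν.div_const _).mul ((hR2 _).comp z ((hν.mul_const _).div_const _))
  unfold aa
  exact ((((e2.div e1 h0).const_mul 2).add_const _).const_mul _).differentiableWithinAt

theorem diff_kap (Λ ħ : ℝ) (hΛ : 2 ≤ Λ) {z : ℂ} (hz : z ∈ Bx Λ) :
    DifferentiableAt ℂ (kap ħ) z := by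
  unfold kap
  have h1 : 0 < (z + Complex.I).re := by
    have := hz.1
    simp
    linarith
  have h2 : DifferentiableAt ℂ (fun z : ℂ => sq (z + Complex.I)) z :=
    DifferentiableAt.comp (g := sq) (f := fun z : ℂ => z + Complex.I) z (differentiableAt_sq h1)
      (differentiableAt_id.add_const _)
  exact (h2.const_mul _).div_const _

theorem diff_cc (hR : S_DEC) (Λ ħ : ℝ) (hΛ : 2 ≤ Λ) (D : ℕ) (hD : 4 ≤ D)
    (hI : ∀ z ∈ Bx Λ, 0 < (kap ħ z).re ∧ Kg D (kap ħ z) 4 ≠ 0) :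
    DifferentiableOn ℂ (cc ħ D) (Bx Λ) := by
  intro z hz
  obtain ⟨hk, h0⟩ := hI z hz
  have hkap := diff_kap Λ ħ hΛ hz
  have hop : IsOpen {w : ℂ | 0 < w.re} := isOpen_lt continuous_const Complex.continuous_re
  have hs : 0 < Real.sqrt 4 := Real.sqrt_pos.2 (by norm_num)
  have hmem : kap ħ z * ((Real.sqrt 4 : ℝ) : ℂ) ∈ {w : ℂ | 0 < w.re} := by
    show 0 < (kap ħ z * ((Real.sqrt 4 : ℝ) : ℂ)).re
    rw [Complex.re_mul_ofReal]
    positivity
  have hR1 := (hR.1 D hD).differentiableAt (hop.mem_nhds hmem)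
  have hR2 := (hR.1 (D + 2) (by omega)).differentiableAt (hop.mem_nhds hmem)
  have e1 : DifferentiableAt ℂ (fun z : ℂ => Kg D (kap ħ z) 4) z := by
    exact DifferentiableAt.comp (g := Dec D) (f := fun z : ℂ => kap ħ z * ((Real.sqrt 4 : ℝ) : ℂ)) z
      hR1 (hkap.mul_const _)
  have e2 : DifferentiableAt ℂ (fun z : ℂ => Kg1 D (kap ħ z) 4) z := by
    have e3 : DifferentiableAt ℂ (fun z : ℂ => Dec (D + 2) (kap ħ z * ((Real.sqrt 4 : ℝ) : ℂ))) z :=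
      DifferentiableAt.comp (g := Dec (D + 2))
        (f := fun z : ℂ => kap ħ z * ((Real.sqrt 4 : ℝ) : ℂ)) z hR2 (hkap.mul_const _)
    unfold Kg1
    exact (((hkap.pow 2).neg).div_const _).mul e3
  unfold cc
  exact ((((e2.div e1 h0).const_mul 4).add_const _).const_mul _).differentiableWithinAt

theorem p_EX (hREG : S_REG) (hDEC : S_DEC) (hINNER : S_INNER) (hOUTER : S_OUTER) (hMID : S_MID)
    (hZERO : S_ZERO) (hGLUE : S_GLUE) : S_EX := by
  intro Λ hΛ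
  obtain ⟨A, hA, hZ⟩ := hZERO Λ hΛ
  obtain ⟨C1, h1, h1pos, hI⟩ := hINNER Λ hΛ
  obtain ⟨C2, h2, h2pos, hO⟩ := hOUTER Λ hΛ
  obtain ⟨C3, h3, h3pos, hM⟩ := hMID Λ A C1 hΛ hA
  obtain ⟨h4, h4pos, hZ'⟩ := hZ (max C1 (max C2 C3))
  refine ⟨min (min h1 h2) (min h3 h4), lt_min (lt_min h1pos h2pos) (lt_min h3pos h4pos), ?_⟩
  intro ħ D x₀ hħ hħ0 hD hb hx1 hx2
  have hħ1 : ħ < h1 := lt_of_lt_of_le hħ0 (le_trans (min_le_left _ _) (min_le_left _ _))
  have hħ2 : ħ < h2 := lt_of_lt_of_le hħ0 (le_trans (min_le_left _ _) (min_le_right _ _))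
  have hħ3 : ħ < h3 := lt_of_lt_of_le hħ0 (le_trans (min_le_right _ _) (min_le_left _ _))
  have hħ4 : ħ < h4 := lt_of_lt_of_le hħ0 (le_trans (min_le_right _ _) (min_le_right _ _))
  have hI' := hI ħ D hħ hħ1 hD hb
  have hO' := hO ħ D hħ hħ2 hD hb
  have ha := diff_aa hREG Λ ħ D hD (fun z hz => (hI' z hz).1)
  have hc := diff_cc hDEC Λ ħ hΛ D hD (fun z hz => ⟨(hO' z hz).1, (hO' z hz).2.2.1⟩)
  obtain ⟨h, hhd, hh⟩ := hM ħ D (aa ħ D) hħ hħ3 hD hb ha (fun z hz => (hI' z hz).2)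
  have hb0 : 0 ≤ bb ħ D := by
    unfold bb
    have : (4 : ℝ) ≤ D := by exact_mod_cast hD
    have h5 : 0 ≤ ((D : ℝ) - 1) * ((D : ℝ) - 3) / 4 := by nlinarith
    positivity
  obtain ⟨z, hz, hzx, hzA, hzh⟩ := hZ' ħ (bb ħ D) x₀ (aa ħ D) (cc ħ D) h hħ hħ4 hb0 hb hx1 hx2 hc hhd
    (fun z hz => ⟨(hI' z hz).2.trans (by gcongr; exact le_max_left _ _),
      (hO' z hz).2.2.2.trans (by
        gcongr; exact le_trans (le_max_left _ _) (le_max_right _ _))⟩)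
    (fun z hz hzA => (hh z hz hzA).1.trans (by
        gcongr; exact le_trans (le_max_right _ _) (le_max_right _ _)))
  refine ⟨z, hz, hzx, ?_⟩
  obtain ⟨-, g, g1, hS, hg1, hga, hne, hgh⟩ := hh z hz hzA
  obtain ⟨hk, hk2, hK4, -⟩ := hO' z hz
  obtain ⟨hI1, -⟩ := hI' z hz
  have hħc : (ħ : ℂ) ≠ 0 := by exact_mod_cast hħ.ne'
  have hp : pp (bb ħ D) z 2 ≠ 0 := sq_ne_zero _
  refine hGLUE D ħ z g g1 hD hħ hk hk2 hI1 hK4 hS hg1 ?_ ?_
  · have e1 : (ħ : ℂ) * (2 * g1 1 + ((D : ℂ) - 1) / 2) = ħ * (2 * (Ig1 D (-(z + Complex.I) / (ħ : ℂ) ^ 2) 1 / Ig D (-(z + Complex.I) / (ħ : ℂ) ^ 2) 1) +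
      ((D : ℂ) - 1) / 2) := hga
    have e2 := mul_left_cancel₀ hħc e1
    have e3 := add_right_cancel e2
    exact mul_left_cancel₀ two_ne_zero e3
  · set v : ℂ := ħ * (4 * g1 4 + ((D : ℂ) - 1) / 4 * g 4) with hv
    set p : ℂ := pp (bb ħ D) z 2 with hp'
    set c : ℂ := cc ħ D z with hc'
    have e1 : (c + Complex.I * p) * (v - Complex.I * p * g 4) =
        (c - Complex.I * p) * (v + Complex.I * p * g 4) := by
      rw [← hzh, ← hgh]; ring
    have e2 : (2 * Complex.I * p) * (v - c * g 4) = 0 := by linear_combination e1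
    have e3 : v - c * g 4 = 0 := by
      rcases mul_eq_zero.1 e2 with h5 | h5
      · exfalso
        exact (mul_ne_zero (mul_ne_zero two_ne_zero Complex.I_ne_zero) hp) h5
      · exact h5
    have e4 : (ħ : ℂ) * (4 * g1 4 + ((D : ℂ) - 1) / 4 * g 4) =
        ħ * (4 * (Kg1 D (kap ħ z) 4 / Kg D (kap ħ z) 4) + ((D : ℂ) - 1) / 4) * g 4 := by
      have := sub_eq_zero.1 e3
      rw [hv, hc'] at this
      exact this
    have e5 : (4 : ℂ) * ħ * (g1 4 - Kg1 D (kap ħ z) 4 / Kg D (kap ħ z) 4 * g 4) = 0 := by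
      linear_combination e4
    rcases mul_eq_zero.1 e5 with h5 | h5
    · exact absurd h5 (mul_ne_zero (by norm_num) hħc)
    · exact sub_eq_zero.1 h5

end Pool.Agent.Run7.h998.LT.PEX
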