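import Pool.Agent.Run7.h998.LT.Stm

/-!
# FIN: counting the eigenvalues
-/

set_option autoImplicit false

open MeasureTheory Filter Topology Set
open scoped ENNReal NNReal

namespace Pool.Agent.Run7.h998.LT.PFIN

open Pool.Agent.Helper41.CE Pool.Agent.Run7.h998.LT

theorem SS_ge (hIND : S_IND) {d : ℕ} (hd : 2 ≤ d) (γ σ ħ : ℝ) (hħ : 0 < ħ)
    {κ : Type} [DecidableEq κ] (T : Finset κ) (F : κ → ℂ) (L : κ → ℕ)
    (hF : ∀ t ∈ T, F t ∉ posRay ∧ ∃ g g1 g2 : ℝ → ℂ, Prof (d + 2 * L t) ħ (F t) g g1 g2)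
    (hinj : ∀ t ∈ T, ∀ t' ∈ T, L t = L t' → F t = F t' → t = t') :
    ∑ t ∈ T, (Module.finrank ℝ (HP d (L t)) : ℝ≥0∞) *
      ENNReal.ofReal (‖F t‖ ^ (-σ) * dRay (F t) ^ (γ + σ)) ≤ SS γ σ (VV d) ħ := by
  classical
  rw [← Finset.sum_fiberwise_of_maps_to (s := T) (t := T.image F) (g := F)
    (fun t ht => Finset.mem_image_of_mem F ht)]
  unfold SS
  refine le_trans (Finset.sum_le_sum (fun z hz => ?_)) (ENNReal.sum_le_tsum (T.image F))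
  obtain ⟨t0, ht0, rfl⟩ := Finset.mem_image.1 hz
  rw [if_pos (hF t0 ht0).1]
  have e1 : ∑ t ∈ T.filter (fun t => F t = F t0), (Module.finrank ℝ (HP d (L t)) : ℝ≥0∞) *
      ENNReal.ofReal (‖F t‖ ^ (-σ) * dRay (F t) ^ (γ + σ)) =
      (∑ t ∈ T.filter (fun t => F t = F t0), (Module.finrank ℝ (HP d (L t)) : ℝ≥0∞)) *
      ENNReal.ofReal (‖F t0‖ ^ (-σ) * dRay (F t0) ^ (γ + σ)) := by
    rw [Finset.sum_mul]
    refine Finset.sum_congr rfl (fun t ht => ?_)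
    rw [(Finset.mem_filter.1 ht).2]
  rw [e1]
  gcongr
  have e2 : ∑ t ∈ T.filter (fun t => F t = F t0), (Module.finrank ℝ (HP d (L t)) : ℝ≥0∞) =
      ∑ l ∈ (T.filter (fun t => F t = F t0)).image L,
        (Module.finrank ℝ (HP d l) : ℝ≥0∞) := by
    rw [Finset.sum_image]
    intro t ht t' ht' h
    have h1 := Finset.mem_filter.1 (Finset.mem_coe.1 ht)
    have h2 := Finset.mem_filter.1 (Finset.mem_coe.1 ht')
    exact hinj t h1.1 t' h2.1 h (h1.2.trans h2.2.symm)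
  rw [e2]
  have e3 := hIND d ħ (F t0) ((T.filter (fun t => F t = F t0)).image L) hd hħ (by
    intro l hl
    obtain ⟨t, ht, rfl⟩ := Finset.mem_image.1 hl
    have h1 := Finset.mem_filter.1 ht
    have h2 := (hF t h1.1).2
    rw [h1.2] at h2
    exact h2)
  refine le_trans (le_of_eq ?_) e3
  push_cast
  rfl

/-- `dRay` in the first quadrant. -/
theorem dRay_ge {E : ℂ} (h : 0 ≤ E.im) : E.im ≤ dRay E := by
  unfold dRay
  have hne : (posRay).Nonempty := ⟨0, by simp [posRay]⟩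
  refine (Metric.le_infDist hne).2 (fun w hw => ?_)
  have h1 : w.im = 0 := hw.1
  calc E.im = |(E - w).im| := by rw [Complex.sub_im, h1, sub_zero, abs_of_nonneg h]
    _ ≤ ‖E - w‖ := Complex.abs_im_le_norm _
    _ = dist E w := (dist_eq_norm _ _).symm

theorem wt_ge {γ σ Λ : ℝ} (hγ : 0 < γ) (hσ : 0 ≤ σ) (hΛ : 2 ≤ Λ) {z : ℂ} (hz : z ∈ Bx Λ) :
    (3 * Λ) ^ (-σ) * (1 / 2 : ℝ) ^ (γ + σ) ≤
      ‖z + Complex.I‖ ^ (-σ) * dRay (z + Complex.I) ^ (γ + σ) := by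
  obtain ⟨h1, h2, h3, h4⟩ := hz
  have him : (z + Complex.I).im = z.im + 1 := by simp
  have hre : (z + Complex.I).re = z.re := by simp
  have hd : 1 / 2 ≤ dRay (z + Complex.I) := by
    refine le_trans ?_ (dRay_ge (by rw [him]; linarith))
    rw [him]; linarith
  have hn : ‖z + Complex.I‖ ≤ 3 * Λ := by
    refine (Complex.norm_le_abs_re_add_abs_im _).trans ?_
    rw [him, hre, abs_of_pos (by linarith), abs_of_pos (by linarith)]
    linarith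
  have hn0 : 0 < ‖z + Complex.I‖ := by
    refine lt_of_lt_of_le ?_ (Complex.abs_im_le_norm _)
    rw [him, abs_of_pos (by linarith)]
    linarith
  have e1 : (3 * Λ) ^ (-σ) ≤ ‖z + Complex.I‖ ^ (-σ) :=
    Real.rpow_le_rpow_of_nonpos hn0 hn (by linarith)
  have e2 : (1 / 2 : ℝ) ^ (γ + σ) ≤ dRay (z + Complex.I) ^ (γ + σ) :=
    Real.rpow_le_rpow (by norm_num) hd (by linarith)
  exact mul_le_mul e1 e2 (by positivity) (by positivity)

/-- the constant -/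
noncomputable def c0 (d : ℕ) (γ σ : ℝ) : ℝ :=
  (1 / 32 : ℝ) ^ d / ((d - 2).factorial : ℝ) * ((6 : ℝ) ^ (-σ) * (1 / 2 : ℝ) ^ (γ + σ))

theorem c0_pos (d : ℕ) (γ σ : ℝ) : 0 < c0 d γ σ := by
  unfold c0
  positivity

/-- The contribution of one window. -/
theorem window {d : ℕ} (hd : 2 ≤ d) {γ σ : ℝ} (hσ : σ ≤ d / 2) (i : ℕ) {ħ : ℝ} (hħ : 0 < ħ)
    (hħ1 : ħ ≤ 1 / 16) :
    c0 d γ σ ≤ ħ ^ d * ((⌊(2 : ℝ) ^ i / (16 * ħ)⌋₊ : ℝ) * (⌊(2 : ℝ) ^ i / (16 * ħ)⌋₊ : ℝ) *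
      ((⌊(2 : ℝ) ^ i / (16 * ħ)⌋₊ : ℝ) ^ (d - 2) / ((d - 2).factorial : ℝ) *
      ((3 * (2 * 4 ^ i)) ^ (-σ) * (1 / 2 : ℝ) ^ (γ + σ)))) := by
  set M : ℝ := (⌊(2 : ℝ) ^ i / (16 * ħ)⌋₊ : ℝ) with hM
  have h2i : (1 : ℝ) ≤ 2 ^ i := one_le_pow₀ (by norm_num)
  have hx : 1 ≤ (2 : ℝ) ^ i / (16 * ħ) := by
    rw [le_div_iff₀ (by positivity)]
    linarith
  have hM1 : 1 ≤ M := by
    rw [hM]
    exact_mod_cast Nat.one_le_floor_iff _ |>.2 hx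
  have hM2 : (2 : ℝ) ^ i / (16 * ħ) < M + 1 := Nat.lt_floor_add_one _
  have hM3 : (2 : ℝ) ^ i / 32 ≤ ħ * M := by
    have h3 : (2 : ℝ) ^ i / (16 * ħ) ≤ 2 * M := by linarith
    rw [div_le_iff₀ (by positivity)] at h3
    linarith
  have e1 : ħ ^ d * (M * M * (M ^ (d - 2) / ((d - 2).factorial : ℝ) *
      ((3 * (2 * 4 ^ i)) ^ (-σ) * (1 / 2 : ℝ) ^ (γ + σ)))) =
      (ħ * M) ^ d / ((d - 2).factorial : ℝ) *
      ((3 * (2 * 4 ^ i)) ^ (-σ) * (1 / 2 : ℝ) ^ (γ + σ)) := by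
    obtain ⟨m, rfl⟩ := Nat.exists_eq_add_of_le hd
    rw [show 2 + m - 2 = m by omega, mul_pow, pow_add M 2 m]
    ring
  rw [e1]
  unfold c0
  have e2 : (3 * (2 * 4 ^ i) : ℝ) ^ (-σ) = 6 ^ (-σ) * (4 ^ i : ℝ) ^ (-σ) := by
    rw [show (3 * (2 * 4 ^ i) : ℝ) = 6 * 4 ^ i by ring,
      Real.mul_rpow (by norm_num) (by positivity)]
  have e3 : (1 : ℝ) ≤ (2 ^ i) ^ d * (4 ^ i : ℝ) ^ (-σ) := by
    have h4 : (1 : ℝ) ≤ 4 ^ i := one_le_pow₀ (by norm_num)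
    have h5 : ((4 : ℝ) ^ i) ^ σ ≤ (4 ^ i : ℝ) ^ ((d : ℝ) / 2) :=
      Real.rpow_le_rpow_of_exponent_le h4 hσ
    have h6 : (4 ^ i : ℝ) ^ ((d : ℝ) / 2) = (2 ^ i) ^ d := by
      rw [show (4 : ℝ) ^ i = ((2 : ℝ) ^ i) ^ (2 : ℝ) by
        rw [Real.rpow_two, ← pow_mul, mul_comm, pow_mul]; norm_num]
      rw [← Real.rpow_mul (by positivity), show (2 : ℝ) * ((d : ℝ) / 2) = (d : ℝ) by ring,
        Real.rpow_natCast]
    rw [Real.rpow_neg (by positivity), ← div_eq_mul_inv, le_div_iff₀ (by positivity), one_mul,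
      ← h6]
    exact h5
  calc (1 / 32 : ℝ) ^ d / ((d - 2).factorial : ℝ) * ((6 : ℝ) ^ (-σ) * (1 / 2 : ℝ) ^ (γ + σ))
      = (1 / 32 : ℝ) ^ d / ((d - 2).factorial : ℝ) * ((6 : ℝ) ^ (-σ) * (1 / 2 : ℝ) ^ (γ + σ)) * 1 :=
        (mul_one _).symm
    _ ≤ (1 / 32 : ℝ) ^ d / ((d - 2).factorial : ℝ) * ((6 : ℝ) ^ (-σ) * (1 / 2 : ℝ) ^ (γ + σ)) *
        ((2 ^ i) ^ d * (4 ^ i : ℝ) ^ (-σ)) := by gcongr
    _ = (2 ^ i / 32 : ℝ) ^ d / ((d - 2).factorial : ℝ) *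
        (6 ^ (-σ) * (4 ^ i : ℝ) ^ (-σ) * (1 / 2 : ℝ) ^ (γ + σ)) := by
        rw [div_pow, div_pow, one_pow]; ring
    _ ≤ (ħ * M) ^ d / ((d - 2).factorial : ℝ) *
        (6 ^ (-σ) * (4 ^ i : ℝ) ^ (-σ) * (1 / 2 : ℝ) ^ (γ + σ)) := by gcongr
    _ = _ := by rw [e2]

theorem sqrtΛ (i : ℕ) : Real.sqrt (2 * 4 ^ i) ≤ 3 / 2 * 2 ^ i := by
  rw [Real.sqrt_le_left (by positivity)]
  have : (4 : ℝ) ^ i = 2 ^ i * 2 ^ i := by rw [← mul_pow]; norm_num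
  rw [this]
  nlinarith [show (0 : ℝ) < 2 ^ i * 2 ^ i by positivity]

theorem main_bound (hEX : S_EX) (hIND : S_IND) (hDIM : S_DIM) {d : ℕ} {γ σ : ℝ} (hd : 2 ≤ d)
    (hγ : 0 < γ) (hσ : 0 ≤ σ) (hσd : σ ≤ d / 2) (n : ℕ) :
    ∀ᶠ ħ : ℝ in 𝓝[>] 0, ENNReal.ofReal (n * c0 d γ σ) ≤
      ENNReal.ofReal (ħ ^ d) * SS γ σ (VV d) ħ := by
  classical
  have hΛ : ∀ i : ℕ, (2 : ℝ) ≤ 2 * 4 ^ i := fun i => by
    have : (1 : ℝ) ≤ 4 ^ i := one_le_pow₀ (by norm_num)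
    linarith
  have hex : ∀ i : ℕ, ∃ ħ₀ : ℝ, 0 < ħ₀ ∧ ∀ (ħ : ℝ) (D : ℕ) (x₀ : ℝ), 0 < ħ → ħ < ħ₀ → 4 ≤ D →
    bb ħ D ≤ (2 * 4 ^ i) / 32 → (2 * 4 ^ i) / 2 ≤ x₀ → x₀ ≤ (2 * 4 ^ i) →
    ∃ z ∈ Bx (2 * 4 ^ i), |z.re - x₀| ≤ 5 * Real.sqrt (2 * 4 ^ i) * ħ ∧
      ∃ g g1 g2 : ℝ → ℂ, Prof D ħ (z + Complex.I) g g1 g2 := fun i => hEX _ (hΛ i)
  choose h0 h0pos hex using hex
  have hev1 : ∀ᶠ ħ : ℝ in 𝓝[>] 0, ∀ i ∈ Finset.range n, ħ < h0 i := by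
    rw [Filter.eventually_all_finset]
    intro i _
    exact Filter.Eventually.filter_mono nhdsWithin_le_nhds (gt_mem_nhds (h0pos i))
  have hd0 : (0 : ℝ) < d := by
    have : 0 < d := by omega
    exact_mod_cast this
  have hev2 : ∀ᶠ ħ : ℝ in 𝓝[>] 0, ħ < min (1 / 100 : ℝ) (1 / (4 * (d : ℝ))) :=
    Filter.Eventually.filter_mono nhdsWithin_le_nhds
      (gt_mem_nhds (lt_min (by norm_num : (0 : ℝ) < 1 / 100)
        (by positivity : (0 : ℝ) < 1 / (4 * d))))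
  filter_upwards [hev1, hev2, self_mem_nhdsWithin] with ħ hħn hħs hħpos
  have hħ : 0 < ħ := hħpos
  have hħ1 : ħ < 1 / 100 := lt_of_lt_of_le hħs (min_le_left _ _)
  have hħ2 : ħ < 1 / (4 * d) := lt_of_lt_of_le hħs (min_le_right _ _)
  set M : ℕ → ℕ := fun i => ⌊(2 : ℝ) ^ i / (16 * ħ)⌋₊ with hM
  have hMle : ∀ i, (M i : ℝ) ≤ 2 ^ i / (16 * ħ) := fun i => Nat.floor_le (by positivity)
  have h2i : ∀ i : ℕ, (1 : ℝ) ≤ 2 ^ i := fun i => one_le_pow₀ (by norm_num)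
  have h4i : ∀ i : ℕ, (4 : ℝ) ^ i = 2 ^ i * 2 ^ i := fun i => by rw [← mul_pow]; norm_num
  have hMle' : ∀ i, 16 * ħ * (M i : ℝ) ≤ 2 ^ i := fun i => by
    have := hMle i
    rw [le_div_iff₀ (by positivity)] at this
    linarith
  have hex' : ∀ i j l : ℕ, (i < n ∧ j < M i ∧ M i < l ∧ l ≤ 2 * M i) →
      ∃ z ∈ Bx (2 * 4 ^ i), |z.re - (4 ^ i + 16 * 2 ^ i * ħ * j)| ≤
        5 * Real.sqrt (2 * 4 ^ i) * ħ ∧
      ∃ g g1 g2 : ℝ → ℂ, Prof (d + 2 * l) ħ (z + Complex.I) g g1 g2 := by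
    rintro i j l ⟨hi, hj, hl1, hl2⟩
    refine hex i ħ (d + 2 * l) _ hħ (hħn i (Finset.mem_range.2 hi)) (by omega) ?_ ?_ ?_
    · unfold bb
      have hD : ((d + 2 * l : ℕ) : ℝ) * ħ ≤ 2 ^ i / 2 := by
        push_cast
        have h3 : (l : ℝ) ≤ 2 * M i := by exact_mod_cast hl2
        have h4 : (d : ℝ) * ħ ≤ 1 / 4 := by
          rw [lt_div_iff₀ (by positivity)] at hħ2
          linarith
        have h5 : (l : ℝ) * ħ ≤ 2 ^ i / 8 := by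
          have h6 : (l : ℝ) * ħ ≤ 2 * M i * ħ := by gcongr
          have := hMle' i
          linarith
        have := h2i i
        nlinarith
      have hD0 : (0 : ℝ) ≤ ((d + 2 * l : ℕ) : ℝ) := Nat.cast_nonneg _
      have hD1 : (1 : ℝ) ≤ ((d + 2 * l : ℕ) : ℝ) := by
        have : 1 ≤ d + 2 * l := by omega
        exact_mod_cast this
      have h7 : ħ ^ 2 * ((((d + 2 * l : ℕ) : ℝ) - 1) * (((d + 2 * l : ℕ) : ℝ) - 3) / 4) ≤
          (((d + 2 * l : ℕ) : ℝ) * ħ) ^ 2 / 4 := by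
        have : (((d + 2 * l : ℕ) : ℝ) - 1) * (((d + 2 * l : ℕ) : ℝ) - 3) ≤
            ((d + 2 * l : ℕ) : ℝ) ^ 2 := by nlinarith
        calc ħ ^ 2 * ((((d + 2 * l : ℕ) : ℝ) - 1) * (((d + 2 * l : ℕ) : ℝ) - 3) / 4)
            ≤ ħ ^ 2 * (((d + 2 * l : ℕ) : ℝ) ^ 2 / 4) := by gcongr
          _ = _ := by ring
      refine h7.trans ?_
      have h8 : (((d + 2 * l : ℕ) : ℝ) * ħ) ^ 2 ≤ (2 ^ i / 2) ^ 2 := by gcongr
      rw [h4i]
      linarith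
    · have : 0 ≤ 16 * 2 ^ i * ħ * (j : ℝ) := by positivity
      linarith
    · have h3 : (j : ℝ) ≤ M i := by exact_mod_cast hj.le
      have h4 : 16 * 2 ^ i * ħ * (j : ℝ) ≤ 2 ^ i * 2 ^ i := by
        calc 16 * 2 ^ i * ħ * (j : ℝ) ≤ 16 * 2 ^ i * ħ * (M i : ℝ) := by gcongr
          _ = 2 ^ i * (16 * ħ * (M i : ℝ)) := by ring
          _ ≤ 2 ^ i * 2 ^ i := by
            have := hMle' i
            gcongr
      rw [h4i]
      linarith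
  choose! Z hZB hZx hZP using hex'
  set T : Finset (Σ _ : ℕ, ℕ × ℕ) :=
    (Finset.range n).sigma (fun i => Finset.range (M i) ×ˢ Finset.Ioc (M i) (2 * M i)) with hT
  have hTm : ∀ t ∈ T, t.1 < n ∧ t.2.1 < M t.1 ∧ M t.1 < t.2.2 ∧ t.2.2 ≤ 2 * M t.1 := by
    intro t ht
    rw [hT, Finset.mem_sigma, Finset.mem_product, Finset.mem_range, Finset.mem_range,
      Finset.mem_Ioc] at ht
    exact ⟨ht.1, ht.2.1, ht.2.2.1, ht.2.2.2⟩
  have hloc : ∀ i j l : ℕ, (i < n ∧ j < M i ∧ M i < l ∧ l ≤ 2 * M i) →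
      92 / 100 * 4 ^ i ≤ (Z i j l).re ∧ (Z i j l).re ≤ 208 / 100 * 4 ^ i ∧
      |(Z i j l).re - (4 ^ i + 16 * 2 ^ i * ħ * j)| ≤ 15 / 2 * 2 ^ i * ħ := by
    intro i j l h
    have h1 := hZx i j l h
    have h2 := sqrtΛ i
    have h3 : 5 * Real.sqrt (2 * 4 ^ i) * ħ ≤ 15 / 2 * 2 ^ i * ħ := by
      have : 5 * Real.sqrt (2 * 4 ^ i) ≤ 15 / 2 * 2 ^ i := by linarith
      gcongr
    have h4 := h1.trans h3
    have h5 := abs_le.1 h4
    have h6 : 15 / 2 * 2 ^ i * ħ ≤ 8 / 100 * 4 ^ i := by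
      rw [h4i]
      have := h2i i
      have h7 : (2 : ℝ) ^ i * ħ ≤ 2 ^ i * (1 / 100) := by gcongr
      nlinarith
    have h8 : (j : ℝ) ≤ M i := by exact_mod_cast h.2.1.le
    have h9 : 16 * 2 ^ i * ħ * (j : ℝ) ≤ 4 ^ i := by
      rw [h4i]
      calc 16 * 2 ^ i * ħ * (j : ℝ) ≤ 16 * 2 ^ i * ħ * (M i : ℝ) := by gcongr
        _ = 2 ^ i * (16 * ħ * (M i : ℝ)) := by ring
        _ ≤ 2 ^ i * 2 ^ i := by
          have := hMle' i
          gcongr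
    have h10 : 0 ≤ 16 * 2 ^ i * ħ * (j : ℝ) := by positivity
    exact ⟨by linarith, by linarith, h4⟩
  have key := SS_ge hIND hd γ σ ħ hħ T (fun t => Z t.1 t.2.1 t.2.2 + Complex.I) (fun t => t.2.2)
    (by
      intro t ht
      have h1 := hTm t ht
      refine ⟨?_, hZP _ _ _ h1⟩
      rintro ⟨h2, -⟩
      have h3 := (hZB _ _ _ h1).2.2.1
      simp at h2
      linarith)
    (by
      rintro ⟨i, j, l⟩ ht ⟨i', j', l'⟩ ht' hl hZ
      have h1 := hTm _ ht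
      have h1' := hTm _ ht'
      simp only at hl hZ h1 h1'
      subst hl
      have hZ' : Z i j l = Z i' j' l := add_right_cancel hZ
      obtain ⟨a1, a2, a3⟩ := hloc i j l h1
      obtain ⟨b1, b2, b3⟩ := hloc i' j' l h1'
      rw [hZ'] at a1 a2 a3
      have hlt : ∀ p q : ℕ, p < q → ∀ x : ℝ, x ≤ 208 / 100 * 4 ^ p → 92 / 100 * 4 ^ q ≤ x →
          False := by
        intro p q hpq x hx hx'
        have h5 : (4 : ℝ) ^ (p + 1) ≤ 4 ^ q := pow_le_pow_right₀ (by norm_num) hpq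
        rw [pow_succ] at h5
        have h6 : (0 : ℝ) < 4 ^ p := by positivity
        linarith
      have hii : i = i' := by
        rcases lt_trichotomy i i' with h | h | h
        · exact (hlt _ _ h _ a2 b1).elim
        · exact h
        · exact (hlt _ _ h _ b2 a1).elim
      subst hii
      have hjj : j = j' := by
        have h5 := abs_le.1 a3
        have h6 := abs_le.1 b3
        have h7 : (0 : ℝ) < 2 ^ i * ħ := by positivity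
        have h8 : (j : ℝ) < j' + 1 := by
          by_contra hc
          have : (j' : ℝ) + 1 ≤ j := not_lt.1 hc
          have h9 : 16 * (2 ^ i * ħ) * ((j' : ℝ) + 1) ≤ 16 * (2 ^ i * ħ) * j := by gcongr
          nlinarith
        have h8' : (j' : ℝ) < j + 1 := by
          by_contra hc
          have : (j : ℝ) + 1 ≤ j' := not_lt.1 hc
          have h9 : 16 * (2 ^ i * ħ) * ((j : ℝ) + 1) ≤ 16 * (2 ^ i * ħ) * j' := by gcongr
          nlinarith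
        have h10 : j < j' + 1 := by exact_mod_cast h8
        have h11 : j' < j + 1 := by exact_mod_cast h8'
        omega
      subst hjj
      rfl)
  -- lower bound of the sum
  set tt : ℕ → ℝ := fun i => (M i : ℝ) ^ (d - 2) / ((d - 2).factorial : ℝ) *
      ((3 * (2 * 4 ^ i)) ^ (-σ) * (1 / 2 : ℝ) ^ (γ + σ)) with htt
  have htt0 : ∀ i, 0 ≤ tt i := fun i => by rw [htt]; positivity
  have hsum : ENNReal.ofReal (∑ i ∈ Finset.range n, (M i : ℝ) * M i * tt i) ≤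
      ∑ t ∈ T, (Module.finrank ℝ (HP d t.2.2) : ℝ≥0∞) *
      ENNReal.ofReal (‖Z t.1 t.2.1 t.2.2 + Complex.I‖ ^ (-σ) *
        dRay (Z t.1 t.2.1 t.2.2 + Complex.I) ^ (γ + σ)) := by
    rw [hT, Finset.sum_sigma, ENNReal.ofReal_sum_of_nonneg
      (fun i _ => mul_nonneg (by positivity) (htt0 i))]
    refine Finset.sum_le_sum (fun i hi => ?_)
    have e1 : ENNReal.ofReal ((M i : ℝ) * M i * tt i) =
        ∑ t ∈ Finset.range (M i) ×ˢ Finset.Ioc (M i) (2 * M i), ENNReal.ofReal (tt i) := by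
      rw [Finset.sum_const, Finset.card_product, Finset.card_range, Nat.card_Ioc,
        show 2 * M i - M i = M i by omega, nsmul_eq_mul, ENNReal.ofReal_mul (by positivity)]
      congr 1
      rw [← ENNReal.ofReal_natCast]
      push_cast
      rfl
    rw [e1]
    refine Finset.sum_le_sum (fun t ht => ?_)
    have h1 : i < n ∧ t.1 < M i ∧ M i < t.2 ∧ t.2 ≤ 2 * M i := by
      rw [Finset.mem_product, Finset.mem_range, Finset.mem_Ioc] at ht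
      exact ⟨Finset.mem_range.1 hi, ht.1, ht.2.1, ht.2.2⟩
    have h2 := wt_ge hγ hσ (hΛ i) (hZB _ _ _ h1)
    have h3 := hDIM d t.2 hd (by omega)
    have h4 : (M i : ℝ) ^ (d - 2) / ((d - 2).factorial : ℝ) ≤
        (Module.finrank ℝ (HP d t.2) : ℝ) := by
      refine le_trans ?_ h3
      have : (M i : ℝ) ≤ t.2 := by exact_mod_cast h1.2.2.1.le
      gcongr
    have h5 : tt i ≤ (Module.finrank ℝ (HP d t.2) : ℝ) *
        (‖Z i t.1 t.2 + Complex.I‖ ^ (-σ) * dRay (Z i t.1 t.2 + Complex.I) ^ (γ + σ)) := by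
      rw [htt]
      exact mul_le_mul h4 h2 (by positivity) (by positivity)
    refine (ENNReal.ofReal_le_ofReal h5).trans ?_
    rw [ENNReal.ofReal_mul (by positivity), ENNReal.ofReal_natCast]
  have hfin : ENNReal.ofReal (n * c0 d γ σ) ≤
      ENNReal.ofReal (ħ ^ d) * ENNReal.ofReal (∑ i ∈ Finset.range n, (M i : ℝ) * M i * tt i) := by
    rw [← ENNReal.ofReal_mul (by positivity)]
    refine ENNReal.ofReal_le_ofReal ?_
    rw [Finset.mul_sum]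
    calc (n : ℝ) * c0 d γ σ = ∑ i ∈ Finset.range n, c0 d γ σ := by
          rw [Finset.sum_const, Finset.card_range, nsmul_eq_mul]
      _ ≤ _ := Finset.sum_le_sum (fun i _ => window hd hσd i hħ (by linarith))
  calc ENNReal.ofReal (n * c0 d γ σ) ≤
      ENNReal.ofReal (ħ ^ d) * ENNReal.ofReal (∑ i ∈ Finset.range n, (M i : ℝ) * M i * tt i) := hfin
    _ ≤ _ := by gcongr; exact hsum.trans key

theorem p_FIN (hEX : S_EX) (hIND : S_IND) (hDIM : S_DIM) : S_FIN := by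
  intro d γ σ hd hγ hσ hσd
  rw [ENNReal.tendsto_nhds_top_iff_nat]
  intro m
  have hc := c0_pos d γ σ
  obtain ⟨n, hn⟩ := exists_nat_gt ((m + 1 : ℝ) / c0 d γ σ)
  filter_upwards [main_bound hEX hIND hDIM hd hγ hσ hσd n] with ħ h
  refine lt_of_lt_of_le ?_ h
  rw [div_lt_iff₀ hc] at hn
  rw [← ENNReal.ofReal_natCast]
  have hm : (0 : ℝ) ≤ m := Nat.cast_nonneg m
  exact (ENNReal.ofReal_lt_ofReal_iff (by linarith)).2 (by linarith)

end Pool.Agent.Run7.h998.LT.PFIN
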