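import Pool.Agent.Run7.h998.LT.Stm

set_option autoImplicit false

open MeasureTheory Filter Topology Set
open scoped ENNReal NNReal

namespace Pool.Agent.Run7.h998.LT.PGLUE

open Pool.Agent.Run7.h998.LT

/-- gluing of derivatives, pointwise -/
lemma glue_at (f h : ℝ → ℂ) (f' h' : ℂ) (c s : ℝ) (hf : s ≤ c → HasDerivAt f f' s)
    (hh : c ≤ s → HasDerivAt h h' s) (e0 : s = c → f c = h c) (e1 : s = c → f' = h') :
    HasDerivAt (fun s => if s ≤ c then f s else h s) (if s ≤ c then f' else h') s := by
  rcases lt_trichotomy s c with hs | hs | hs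
  · rw [if_pos hs.le]
    apply (hf hs.le).congr_of_eventuallyEq
    filter_upwards [Iio_mem_nhds hs] with x hx
    rw [if_pos (le_of_lt hx)]
  · subst hs
    rw [if_pos le_rfl]
    have h1 : HasDerivWithinAt (fun x => if x ≤ s then f x else h x) f' (Iic s) s := by
      apply (hf le_rfl).hasDerivWithinAt.congr
      · intro x hx
        simp only [if_pos (show x ≤ s from hx)]
      · simp
    have h2 : HasDerivWithinAt (fun x => if x ≤ s then f x else h x) f' (Ici s) s := by
      rw [e1 rfl]
      apply (hh le_rfl).hasDerivWithinAt.congr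
      · intro x hx
        rcases eq_or_lt_of_le (show s ≤ x from hx) with h | h
        · subst h
          simp [e0 rfl]
        · simp only [if_neg (not_le.mpr h)]
      · simp [e0 rfl]
    have h3 := h1.union h2
    rw [Iic_union_Ici] at h3
    exact h3.hasDerivAt univ_mem
  · rw [if_neg (not_le.mpr hs)]
    apply (hh hs.le).congr_of_eventuallyEq
    filter_upwards [Ioi_mem_nhds hs] with x hx
    rw [if_neg (not_le.mpr hx)]

/-- gluing of continuity, pointwise -/
lemma cglue_at (f h : ℝ → ℂ) (c s : ℝ) (hf : s ≤ c → ContinuousAt f s)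
    (hh : c ≤ s → ContinuousAt h s) (e0 : s = c → f c = h c) :
    ContinuousAt (fun s => if s ≤ c then f s else h s) s := by
  rcases lt_trichotomy s c with hs | hs | hs
  · apply (hf hs.le).congr
    filter_upwards [Iio_mem_nhds hs] with x hx
    rw [if_pos (le_of_lt hx)]
  · subst hs
    have h1 : ContinuousWithinAt (fun x => if x ≤ s then f x else h x) (Iic s) s := by
      apply (hf le_rfl).continuousWithinAt.congr
      · intro x hx
        simp only [if_pos (show x ≤ s from hx)]
      · simp
    have h2 : ContinuousWithinAt (fun x => if x ≤ s then f x else h x) (Ici s) s := by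
      apply (hh le_rfl).continuousWithinAt.congr
      · intro x hx
        rcases eq_or_lt_of_le (show s ≤ x from hx) with h | h
        · subst h
          simp [e0 rfl]
        · simp only [if_neg (not_le.mpr h)]
      · simp [e0 rfl]
    have h3 := h1.union h2
    rw [Iic_union_Ici] at h3
    exact continuousWithinAt_univ _ _ |>.mp h3
  · apply (hh hs.le).congr
    filter_upwards [Ioi_mem_nhds hs] with x hx
    rw [if_neg (not_le.mpr hx)]

theorem p_GLUE (hREG : S_REG) (hDEC : S_DEC) : S_GLUE := by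
  intro D ħ z g g1 hD hħ hκ hκ2 hI1 hK4 hsol hg1 hg11 hg14
  obtain ⟨hR1, hR2⟩ := hREG
  obtain ⟨-, hK, hKd, -⟩ := hDEC
  set ν : ℂ := -(z + Complex.I) / (ħ : ℂ) ^ 2 with hν
  set κ : ℂ := kap ħ z with hκdef
  have hD0 : 0 < D := by omega
  have hDc : (D : ℂ) ≠ 0 := by exact_mod_cast hD0.ne'
  have hħc : (ħ : ℂ) ≠ 0 := by exact_mod_cast hħ.ne'
  have hKs := hK D κ hD hκ
  set n : ℂ := Ig D ν 1 with hn
  set c4 : ℂ := n * g 4 / Kg D κ 4 with hc4
  -- continuity facts
  have cIg : Continuous (Ig D ν) :=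
    continuous_iff_continuousAt.mpr fun s => (hR2 D ν s hD0).1.continuousAt
  have cIg1 : Continuous (Ig1 D ν) :=
    continuous_iff_continuousAt.mpr fun s => (hR2 D ν s hD0).2.1.continuousAt
  have cIg2 : Continuous (Ig2 D ν) := by
    have h1 : Continuous (Reg (D + 4)) := (hR1 (D + 4) (by omega)).1.continuous
    unfold Ig2
    apply Continuous.mul continuous_const
    apply h1.comp
    fun_prop
  have cg : ∀ s : ℝ, 0 < s → ContinuousAt g s := fun s hs => (hsol s hs).1.continuousAt
  have cg1 : ∀ s : ℝ, 0 < s → ContinuousAt g1 s := fun s hs => (hsol s hs).2.continuousAt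
  have cK : ∀ s : ℝ, 0 < s → ContinuousAt (Kg D κ) s := fun s hs => (hKs s hs).1.continuousAt
  have cK1 : ∀ s : ℝ, 0 < s → ContinuousAt (Kg1 D κ) s := fun s hs => (hKs s hs).2.continuousAt
  -- second derivatives
  set m2 : ℝ → ℂ := fun s => n * ((-z / (ħ : ℂ) ^ 2 * g s - 2 * D * g1 s) / (4 * s)) with hm2
  set k2 : ℝ → ℂ := fun s => c4 * ((κ ^ 2 * Kg D κ s - 2 * D * Kg1 D κ s) / (4 * s)) with hk2
  have cm2 : ∀ s : ℝ, 0 < s → ContinuousAt m2 s := by
    intro s hs
    have hsc : (4 * (s : ℂ)) ≠ 0 := by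
      have : (s : ℂ) ≠ 0 := by exact_mod_cast hs.ne'
      exact mul_ne_zero (by norm_num) this
    have h4 : ContinuousAt (fun s : ℝ => (4 * (s : ℂ))) s := by fun_prop
    exact ((((cg s hs).const_mul _).sub ((cg1 s hs).const_mul _)).div h4 hsc).const_mul _
  have ck2 : ∀ s : ℝ, 0 < s → ContinuousAt k2 s := by
    intro s hs
    have hsc : (4 * (s : ℂ)) ≠ 0 := by
      have : (s : ℂ) ≠ 0 := by exact_mod_cast hs.ne'
      exact mul_ne_zero (by norm_num) this
    have h4 : ContinuousAt (fun s : ℝ => (4 * (s : ℂ))) s := by fun_prop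
    exact ((((cK s hs).const_mul _).sub ((cK1 s hs).const_mul _)).div h4 hsc).const_mul _
  -- middle-outer glued functions
  set M : ℝ → ℂ := fun s => if s ≤ 4 then n * g s else c4 * Kg D κ s with hM
  set M1 : ℝ → ℂ := fun s => if s ≤ 4 then n * g1 s else c4 * Kg1 D κ s with hM1
  set M2 : ℝ → ℂ := fun s => if s ≤ 4 then m2 s else k2 s with hM2
  set F : ℝ → ℂ := fun s => if s ≤ 1 then Ig D ν s else M s with hF
  set F1 : ℝ → ℂ := fun s => if s ≤ 1 then Ig1 D ν s else M1 s with hF1
  set F2 : ℝ → ℂ := fun s => if s ≤ 1 then Ig2 D ν s else M2 s with hF2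
  have e4 : n * g 4 = c4 * Kg D κ 4 := by
    rw [hc4]; field_simp
  have e41 : n * g1 4 = c4 * Kg1 D κ 4 := by
    rw [hc4, hg14]; field_simp
  have dM : ∀ s : ℝ, 0 < s → HasDerivAt M (M1 s) s := by
    intro s hs
    apply glue_at
    · intro _; exact (hsol s hs).1.const_mul n
    · intro _; exact (hKs s hs).1.const_mul c4
    · intro _; exact e4
    · intro h; rw [h]; exact e41
  have dM1 : ∀ s : ℝ, 0 < s → s ≠ 4 → HasDerivAt M1 (M2 s) s := by
    intro s hs hs4
    apply glue_at
    · intro _; exact (hsol s hs).2.const_mul n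
    · intro _; exact (hKs s hs).2.const_mul c4
    · intro h; exact absurd h hs4
    · intro h; exact absurd h hs4
  have cM1 : ∀ s : ℝ, 0 < s → ContinuousAt M1 s := by
    intro s hs
    apply cglue_at
    · intro _; exact (cg1 s hs).const_mul n
    · intro _; exact (cK1 s hs).const_mul c4
    · intro _; exact e41
  have cM2 : ∀ s : ℝ, 0 < s → s ≠ 4 → ContinuousAt M2 s := by
    intro s hs hs4
    apply cglue_at
    · intro _; exact cm2 s hs
    · intro _; exact ck2 s hs
    · intro h; exact absurd h hs4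
  have M_one : M 1 = n := by
    simp only [hM]
    rw [if_pos (by norm_num), hg1, mul_one]
  have M1_one : M1 1 = Ig1 D ν 1 := by
    simp only [hM1]
    rw [if_pos (by norm_num), hg11]
    field_simp
  have dF : ∀ s : ℝ, HasDerivAt F (F1 s) s := by
    intro s
    apply glue_at
    · intro _; exact (hR2 D ν s hD0).1
    · intro h; exact dM s (by linarith)
    · intro _; rw [M_one]
    · intro h; rw [h, M1_one]
  have cF : Continuous F := continuous_iff_continuousAt.mpr fun s => (dF s).continuousAt
  have cF1 : Continuous F1 := by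
    rw [continuous_iff_continuousAt]
    intro s
    apply cglue_at
    · intro _; exact cIg1.continuousAt
    · intro h; exact cM1 s (by linarith)
    · intro _; rw [M1_one]
  have dF1 : ∀ s : ℝ, s ≠ 1 → s ≠ 4 → HasDerivAt F1 (F2 s) s := by
    intro s h1 h4
    apply glue_at
    · intro _; exact (hR2 D ν s hD0).2.1
    · intro h; exact dM1 s (by linarith) h4
    · intro h; exact absurd h h1
    · intro h; exact absurd h h1
  have cF2 : ∀ s : ℝ, s ≠ 1 → s ≠ 4 → ContinuousAt F2 s := by
    intro s h1 h4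
    apply cglue_at
    · intro _; exact cIg2.continuousAt
    · intro h; exact cM2 s (by linarith) h4
    · intro h; exact absurd h h1
  refine ⟨F, F1, F2, ⟨dF, cF1, fun s h1 h4 => ⟨dF1 s h1 h4, cF2 s h1 h4⟩, ?_, ?_, ?_, ?_⟩⟩
  · -- the equation
    intro s hs h1 h4
    have hsc : 0 < s → (s : ℂ) ≠ 0 := fun h => by exact_mod_cast h.ne'
    rcases lt_or_gt_of_ne h1 with h | h
    · have hv : vv s = 0 := by
        unfold vv
        rw [if_neg]
        intro hh; linarith [hh.1]
      have hode := (hR2 D ν s hD0).2.2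
      simp only [hF, hF1, hF2, if_pos h.le, hv]
      rw [hode, hν]
      ring
    · have hs0 : 0 < s := by linarith
      have hsc' := hsc hs0
      simp only [hF, hF1, hF2, if_neg (not_le.mpr h)]
      rcases lt_or_gt_of_ne h4 with h' | h'
      · have hv : vv s = Complex.I := by
          unfold vv
          rw [if_pos ⟨h, h'⟩]
        simp only [hM, hM1, hM2, if_pos h'.le, hv, hm2]
        field_simp
        ring
      · have hv : vv s = 0 := by
          unfold vv
          rw [if_neg]
          intro hh; linarith [hh.2]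
        simp only [hM, hM1, hM2, if_neg (not_le.mpr h'), hv, hk2]
        rw [hκ2, hν]
        field_simp
        ring
  · -- bound of F2
    obtain ⟨B1, hB1⟩ := (isCompact_Icc (a := (0 : ℝ)) (b := 1)).exists_bound_of_continuousOn
      cIg2.continuousOn
    obtain ⟨B2, hB2⟩ := (isCompact_Icc (a := (1 : ℝ)) (b := 4)).exists_bound_of_continuousOn
      (f := m2) (fun s hs => (cm2 s (by linarith [hs.1])).continuousWithinAt)
    obtain ⟨B3, hB3⟩ := (isCompact_Icc (a := (4 : ℝ)) (b := 5)).exists_bound_of_continuousOn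
      (f := k2) (fun s hs => (ck2 s (by linarith [hs.1])).continuousWithinAt)
    refine ⟨max B1 (max B2 B3), ?_⟩
    intro s hs
    simp only [hF2, hM2]
    split_ifs with h h'
    · exact (hB1 s ⟨hs.1, h⟩).trans (le_max_left _ _)
    · exact (hB2 s ⟨(not_le.mp h).le, h'⟩).trans ((le_max_left _ _).trans (le_max_right _ _))
    · exact (hB3 s ⟨(not_le.mp h').le, hs.2⟩).trans ((le_max_right _ _).trans (le_max_right _ _))
  · -- decay
    obtain ⟨C, ρ, hρ, hC⟩ := hKd D κ hD hκ
    obtain ⟨B1, hB1⟩ := (isCompact_Icc (a := (0 : ℝ)) (b := 4)).exists_bound_of_continuousOn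
      cF.continuousOn
    obtain ⟨B2, hB2⟩ := (isCompact_Icc (a := (0 : ℝ)) (b := 4)).exists_bound_of_continuousOn
      cF1.continuousOn
    have hB10 : 0 ≤ B1 := (norm_nonneg _).trans (hB1 0 ⟨le_rfl, by norm_num⟩)
    have hB20 : 0 ≤ B2 := (norm_nonneg _).trans (hB2 0 ⟨le_rfl, by norm_num⟩)
    have hC0 : 0 ≤ C := by
      have h := (norm_nonneg _).trans (hC 4 le_rfl).1
      by_contra hneg
      push Not at hneg
      have : C * Real.exp (-(ρ * Real.sqrt 4)) < 0 := mul_neg_of_neg_of_pos hneg (Real.exp_pos _)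
      linarith
    refine ⟨(B1 + B2) * Real.exp (ρ * 2) + ‖c4‖ * C, ρ, hρ, ?_⟩
    intro s hs
    have hT0 : 0 ≤ (B1 + B2) * Real.exp (ρ * 2) := by positivity
    have hT1 : 0 ≤ ‖c4‖ * C := by positivity
    rcases le_or_gt s 4 with h4 | h4
    · have hsq : Real.sqrt s ≤ 2 := by
        rw [show (2 : ℝ) = Real.sqrt 4 by
          rw [show (4 : ℝ) = 2 ^ 2 by norm_num, Real.sqrt_sq (by norm_num)]]
        exact Real.sqrt_le_sqrt h4
      have hexp : 1 ≤ Real.exp (ρ * 2) * Real.exp (-(ρ * Real.sqrt s)) := by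
        rw [← Real.exp_add]
        apply Real.one_le_exp
        nlinarith
      have hkey : B1 + B2 ≤ ((B1 + B2) * Real.exp (ρ * 2) + ‖c4‖ * C) *
          Real.exp (-(ρ * Real.sqrt s)) := by
        have he := Real.exp_pos (-(ρ * Real.sqrt s))
        calc B1 + B2 = (B1 + B2) * 1 := by ring
          _ ≤ (B1 + B2) * (Real.exp (ρ * 2) * Real.exp (-(ρ * Real.sqrt s))) := by gcongr
          _ ≤ (B1 + B2) * (Real.exp (ρ * 2) * Real.exp (-(ρ * Real.sqrt s))) +
              ‖c4‖ * C * Real.exp (-(ρ * Real.sqrt s)) := by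
                have : 0 ≤ ‖c4‖ * C * Real.exp (-(ρ * Real.sqrt s)) := by positivity
                linarith
          _ = _ := by ring
      exact ⟨((hB1 s ⟨hs, h4⟩).trans (by linarith)).trans hkey,
        ((hB2 s ⟨hs, h4⟩).trans (by linarith)).trans hkey⟩
    · have hF' : F s = c4 * Kg D κ s := by
        simp only [hF, hM]
        rw [if_neg (by linarith), if_neg (by linarith)]
      have hF1' : F1 s = c4 * Kg1 D κ s := by
        simp only [hF1, hM1]
        rw [if_neg (by linarith), if_neg (by linarith)]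
      have he := Real.exp_pos (-(ρ * Real.sqrt s))
      have hT2 : 0 ≤ (B1 + B2) * Real.exp (ρ * 2) * Real.exp (-(ρ * Real.sqrt s)) := by positivity
      rw [hF', hF1', norm_mul, norm_mul]
      constructor
      · calc ‖c4‖ * ‖Kg D κ s‖ ≤ ‖c4‖ * (C * Real.exp (-(ρ * Real.sqrt s))) := by
              gcongr
              exact (hC s h4.le).1
          _ ≤ _ := by nlinarith
      · calc ‖c4‖ * ‖Kg1 D κ s‖ ≤ ‖c4‖ * (C * Real.exp (-(ρ * Real.sqrt s))) := by
              gcongr
              exact (hC s h4.le).2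
          _ ≤ _ := by nlinarith
  · -- value at zero
    simp only [hF]
    rw [if_pos (by norm_num)]
    unfold Ig
    simp only [Complex.ofReal_zero, mul_zero, zero_div]
    exact (hR1 D hD0).2

end Pool.Agent.Run7.h998.LT.PGLUE
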