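import Pool.Agent.Run7.h998.LT.Stm

/-!
# Piece IND of MP_c84763_mp: multiplicity
-/

set_option autoImplicit false

open MeasureTheory Filter Topology Set
open scoped ENNReal NNReal

namespace Pool.Agent.Run7.h998.LT.IND

open Pool.Agent.Helper41.CE Pool.Agent.Run7.h998.LT

theorem eval_smul_hom {d n : ℕ} {P : MvPolynomial (Fin d) ℝ} (hP : P.IsHomogeneous n) (t : ℝ)
    (x : Fin d → ℝ) : MvPolynomial.eval (fun i => t * x i) P = t ^ n * MvPolynomial.eval x P := by
  rw [MvPolynomial.eval_eq', MvPolynomial.eval_eq', Finset.mul_sum]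
  refine Finset.sum_congr rfl fun e he => ?_
  have h1 : ∑ i, e i = n := by
    have h2 := hP (MvPolynomial.mem_support_iff.1 he)
    rw [← h2, Finsupp.weight_apply]
    simp [Finsupp.sum_fintype]
  have h3 : ∏ i, (t * x i) ^ e i = t ^ n * ∏ i, x i ^ e i := by
    simp only [mul_pow]
    rw [Finset.prod_mul_distrib, Finset.prod_pow_eq_pow_sum, h1]
  rw [h3]
  ring

theorem indep_core {d : ℕ} (L : Finset ℕ) (n : L → ℕ)
    (P : (ℓ : L) → Fin (n ℓ) → MvPolynomial (Fin d) ℝ)
    (hP : ∀ ℓ j, (P ℓ j).IsHomogeneous ℓ) (hli : ∀ ℓ, LinearIndependent ℝ (P ℓ))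
    (g : L → ℝ → ℂ) (hg : ∀ ℓ, Continuous (g ℓ)) (hg0 : ∀ ℓ, g ℓ 0 = 1)
    (c : (Σ ℓ : L, Fin (n ℓ)) → ℂ)
    (h : ∀ x : E d, ∑ i, c i * psi (P i.1 i.2) (g i.1) x = 0) : ∀ i, c i = 0 := by
  have key : ∀ m : ℕ, ∀ i : (Σ ℓ : L, Fin (n ℓ)), (i.1 : ℕ) = m → c i = 0 := by
    intro m
    induction m using Nat.strong_induction_on with
    | _ m ih =>
    intro i0 hi0
    -- the leading coefficient vanishes
    have hlead : ∀ ω : Fin d → ℝ,
        ∑ j, c ⟨i0.1, j⟩ * ((MvPolynomial.eval ω (P i0.1 j) : ℝ) : ℂ) = 0 := by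
      intro ω
      set y : E d := WithLp.toLp 2 ω with hy
      set F : ℝ → ℂ := fun t => ∑ i : (Σ ℓ : L, Fin (n ℓ)),
        c i * ((t : ℂ) ^ ((i.1 : ℕ) - m) * ((MvPolynomial.eval ω (P i.1 i.2) : ℝ) : ℂ) *
          g i.1 (t ^ 2 * ‖y‖ ^ 2)) with hF
      have hFc : Continuous F := by
        refine continuous_finsetSum _ fun i _ => ?_
        refine continuous_const.mul ((Continuous.mul ?_ continuous_const).mul ?_)
        · exact (Complex.continuous_ofReal.pow _)
        · exact (hg i.1).comp (by fun_prop)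
      have hF0 : ∀ t : ℝ, t ≠ 0 → F t = 0 := by
        intro t ht
        have h1 : (t : ℂ) ^ m * F t = 0 := by
          rw [← h (t • y), hF, Finset.mul_sum]
          refine Finset.sum_congr rfl fun i _ => ?_
          rcases lt_or_ge (i.1 : ℕ) m with hlt | hge
          · rw [ih _ hlt i rfl]; ring
          · have e1 : (t : ℂ) ^ m * (t : ℂ) ^ ((i.1 : ℕ) - m) = (t : ℂ) ^ (i.1 : ℕ) := by
              rw [← pow_add]; congr 1; omega
            have e2 : psi (P i.1 i.2) (g i.1) (t • y) =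
                (t : ℂ) ^ (i.1 : ℕ) * ((MvPolynomial.eval ω (P i.1 i.2) : ℝ) : ℂ) *
                  g i.1 (t ^ 2 * ‖y‖ ^ 2) := by
              unfold psi
              have e3 : (fun k => (t • y) k) = fun k => t * ω k := by
                funext k
                simp [hy]
              rw [e3, eval_smul_hom (hP i.1 i.2), norm_smul, mul_pow, Real.norm_eq_abs, sq_abs]
              push_cast
              ring
            rw [e2, ← e1]
            ring
        rcases mul_eq_zero.1 h1 with h2 | h2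
        · exact absurd h2 (pow_ne_zero _ (by exact_mod_cast ht))
        · exact h2
      have hF00 : F 0 = 0 := by
        have h1 : Tendsto F (𝓝[≠] 0) (𝓝 (F 0)) := (hFc.tendsto 0).mono_left nhdsWithin_le_nhds
        have h2 : Tendsto F (𝓝[≠] 0) (𝓝 0) := by
          refine Tendsto.congr' ?_ tendsto_const_nhds
          filter_upwards [self_mem_nhdsWithin] with t ht
          exact (hF0 t ht).symm
        exact tendsto_nhds_unique h1 h2
      rw [← hF00, hF]
      simp only
      rw [Fintype.sum_sigma, Finset.sum_eq_single i0.1]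
      · refine Finset.sum_congr rfl fun j _ => ?_
        simp only [hi0, Nat.sub_self, pow_zero, one_mul]
        simp [hg0]
      · intro ℓ _ hℓ
        refine Finset.sum_eq_zero fun j _ => ?_
        rcases lt_trichotomy (ℓ : ℕ) m with hlt | heq | hgt
        · rw [ih _ hlt ⟨ℓ, j⟩ rfl]; ring
        · exact absurd (Subtype.ext (heq.trans hi0.symm)) hℓ
        · have : (ℓ : ℕ) - m ≠ 0 := by omega
          simp [this]
      · intro hn
        exact absurd (Finset.mem_univ _) hn
    -- real and imaginary parts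
    have hre : ∀ a : Fin (n i0.1) → ℝ,
        (∀ ω : Fin d → ℝ, ∑ j, a j * MvPolynomial.eval ω (P i0.1 j) = 0) → ∀ j, a j = 0 := by
      intro a ha
      have h1 : ∑ j, a j • P i0.1 j = 0 := by
        refine MvPolynomial.funext fun ω => ?_
        rw [map_sum, map_zero, ← ha ω]
        refine Finset.sum_congr rfl fun j _ => ?_
        simp
      exact Fintype.linearIndependent_iff.1 (hli i0.1) a h1
    have h1 := hre (fun j => (c ⟨i0.1, j⟩).re) (fun ω => by
      have := congrArg Complex.re (hlead ω)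
      simpa using this) i0.2
    have h2 := hre (fun j => (c ⟨i0.1, j⟩).im) (fun ω => by
      have := congrArg Complex.im (hlead ω)
      simpa using this) i0.2
    exact Complex.ext h1 h2
  intro i
  exact key _ i rfl

end IND

open Pool.Agent.Helper41.CE

theorem p_IND (hgrad : S_GRAD) (hweak : S_WEAK3) : S_IND := by
  intro d ħ z L hd hħ hL
  choose! g g1 g2 hprof using hL
  have hbas : ∀ ℓ : ℕ, ∃ f : Fin (Module.finrank ℝ (HP d ℓ)) → HP d ℓ, LinearIndependent ℝ f :=
    fun ℓ => exists_linearIndependent_of_le_finrank le_rfl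
  choose f hf using hbas
  set n : L → ℕ := fun ℓ => Module.finrank ℝ (HP d ℓ) with hn
  set P : (ℓ : L) → Fin (n ℓ) → MvPolynomial (Fin d) ℝ := fun ℓ j => (f ℓ j : MvPolynomial (Fin d) ℝ)
    with hPdef
  have hPmem : ∀ (ℓ : L) (j : Fin (n ℓ)), P ℓ j ∈ HP d ℓ := fun ℓ j => (f ℓ j).2
  have hPhom : ∀ (ℓ : L) (j : Fin (n ℓ)), (P ℓ j).IsHomogeneous ℓ := fun ℓ j =>
    (MvPolynomial.mem_homogeneousSubmodule _ _).1 (Submodule.mem_inf.1 (hPmem ℓ j)).1
  have hPli : ∀ ℓ : L, LinearIndependent ℝ (P ℓ) := by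
    intro ℓ
    have := (hf ℓ).map' (HP d ℓ).subtype (Submodule.ker_subtype _)
    exact this
  have hd0 : 0 < d := by omega
  have hgr : ∀ (ℓ : L) (j : Fin (n ℓ)), Continuous (psi (P ℓ j) (g ℓ)) ∧
      MemLp (psi (P ℓ j) (g ℓ)) 2 volume ∧
      IsGrad (psi (P ℓ j) (g ℓ)) (dpsi (P ℓ j) (g ℓ) (g1 ℓ)) := fun ℓ j =>
    hgrad d ℓ ħ z (P ℓ j) (g ℓ) (g1 ℓ) (g2 ℓ) hd0 (hPmem ℓ j) (hprof ℓ ℓ.2)
  have hV : Measurable (VV d) := by
    unfold VV
    refine Measurable.ite ?_ measurable_const measurable_const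
    exact (measurableSet_lt measurable_const measurable_norm).inter
      (measurableSet_lt measurable_norm measurable_const)
  have hVle : ∀ x, ‖VV d x‖ ≤ 1 := by
    intro x
    unfold VV
    split_ifs <;> simp
  have hgraph : ∀ (ℓ : L) (j : Fin (n ℓ)),
      Graph (VV d) ħ (psi (P ℓ j) (g ℓ)) (fun x => z * psi (P ℓ j) (g ℓ) x) := by
    intro ℓ j
    obtain ⟨hc, hm, hg⟩ := hgr ℓ j
    refine ⟨hm, hm.const_mul z, ?_, dpsi (P ℓ j) (g ℓ) (g1 ℓ), hg,
      hweak d ℓ ħ z (P ℓ j) (g ℓ) (g1 ℓ) (g2 ℓ) hd0 hħ (hPmem ℓ j) (hprof ℓ ℓ.2)⟩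
    have h1 : Integrable (fun x => ‖psi (P ℓ j) (g ℓ) x‖ ^ 2) volume :=
      hm.integrable_norm_pow (by norm_num)
    refine h1.mono ?_ ?_
    · exact (hV.norm.aestronglyMeasurable).mul (hc.norm.pow 2).aestronglyMeasurable
    · refine Eventually.of_forall fun x => ?_
      rw [norm_mul, norm_norm]
      calc ‖VV d x‖ * ‖‖psi (P ℓ j) (g ℓ) x‖ ^ 2‖ ≤ 1 * ‖‖psi (P ℓ j) (g ℓ) x‖ ^ 2‖ := by
            gcongr; exact hVle x
        _ = _ := one_mul _
  have hcard : Fintype.card (Σ ℓ : L, Fin (n ℓ)) = ∑ ℓ ∈ L, Module.finrank ℝ (HP d ℓ) := by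
    rw [Fintype.card_sigma]
    simp only [Fintype.card_fin, hn]
    exact Finset.sum_coe_sort L (fun ℓ => Module.finrank ℝ (HP d ℓ))
  set e := (Fintype.equivFinOfCardEq hcard).symm with he
  have hind : IndepVecs (VV d) ħ z (∑ ℓ ∈ L, Module.finrank ℝ (HP d ℓ)) := by
    refine ⟨fun i => psi (P (e i).1 (e i).2) (g (e i).1), fun i => ⟨1, fun _ => 0,
      Filter.EventuallyEq.rfl, ?_⟩, ?_⟩
    · simpa using hgraph (e i).1 (e i).2
    · intro c hc
      have hcont : Continuous (fun x : E d => ∑ i, c i * psi (P (e i).1 (e i).2) (g (e i).1) x) :=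
        continuous_finsetSum _ fun i _ => continuous_const.mul (hgr _ _).1
      have h0 : (fun x : E d => ∑ i, c i * psi (P (e i).1 (e i).2) (g (e i).1) x) = fun _ => 0 :=
        (Continuous.ae_eq_iff_eq volume hcont continuous_const).1 hc
      have h1 := IND.indep_core (d := d) L n P hPhom hPli (fun ℓ => g ℓ)
        (fun ℓ => continuous_iff_continuousAt.2 fun s => ((hprof ℓ ℓ.2).d1 s).continuousAt)
        (fun ℓ => (hprof ℓ ℓ.2).one) (fun i => c (e.symm i)) (fun x => by
          have h2 := congrFun h0 x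
          rw [← e.sum_comp]
          simpa using h2)
      funext i
      have := h1 (e i)
      simpa using this
  unfold mult
  exact le_iSup_of_le _ (le_iSup_of_le hind le_rfl)

end Pool.Agent.Run7.h998.LT
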