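import Pool.Agent.Run7.h998.LT.Stm

/-!
# INNER: the boundary value at `r = 1` of the regular solution (helper576)
-/

set_option autoImplicit false

open MeasureTheory Filter Topology Set

namespace Pool.Agent.Run7.h998.LT

namespace InnerP

theorem bb_nonneg {ħ : ℝ} {D : ℕ} (hD : 4 ≤ D) : 0 ≤ bb ħ D := by
  have h : (4 : ℝ) ≤ D := by exact_mod_cast hD
  unfold bb
  exact mul_nonneg (sq_nonneg _) (div_nonneg (mul_nonneg (by linarith) (by linarith)) (by norm_num))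

theorem ne_zero_of_im {a b : ℂ} (h : (starRingEnd ℂ a * b).im ≠ 0) : a ≠ 0 := by
  rintro rfl
  apply h
  simp

theorem nu_eq (ħ : ℝ) (D : ℕ) (z : ℂ) (r : ℝ) (hħ : ħ ≠ 0) (hr : r ≠ 0) :
    -(z + Complex.I) / (ħ : ℂ) ^ 2 + ((D : ℂ) - 1) * ((D : ℂ) - 3) / (4 * (r : ℂ) ^ 2) =
      -(z + Complex.I - ((bb ħ D / r ^ 2 : ℝ) : ℂ)) / (ħ : ℂ) ^ 2 := by
  have h1 : (ħ : ℂ) ≠ 0 := by exact_mod_cast hħ
  have h2 : (r : ℂ) ≠ 0 := by exact_mod_cast hr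
  unfold bb
  push_cast
  field_simp
  ring

theorem nu_im (ħ : ℝ) (z : ℂ) : (-(z + Complex.I) / (ħ : ℂ) ^ 2).im = -(z.im + 1) / ħ ^ 2 := by
  rw [← Complex.ofReal_pow, Complex.div_ofReal_im, Complex.neg_im, Complex.add_im, Complex.I_im]

theorem hasDerivAt_w (b : ℝ) (z : ℂ) (r : ℝ) (hr : r ≠ 0) :
    HasDerivAt (fun x : ℝ => z + Complex.I - ((b / x ^ 2 : ℝ) : ℂ)) ((2 * b / r ^ 3 : ℝ) : ℂ) r := by
  have h1 : HasDerivAt (fun x : ℝ => b / x ^ 2) (-(2 * b / r ^ 3)) r := by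
    have h := (hasDerivAt_const r b).div (hasDerivAt_pow 2 r) (pow_ne_zero 2 hr)
    convert! h using 1
    field_simp
    push_cast
    ring
  have h2 := h1.ofReal_comp.const_sub (z + Complex.I)
  convert! h2 using 1
  push_cast
  ring

theorem w_bounds {Λ b r : ℝ} {z : ℂ} (hΛ : 2 ≤ Λ) (hb : 0 ≤ b) (hb' : b ≤ Λ / 32)
    (hr : 3 / 4 ≤ r) (hz : z ∈ Bx Λ) :
    ‖z + Complex.I - ((b / r ^ 2 : ℝ) : ℂ)‖ ≤ 4 * Λ ∧ ‖((2 * b / r ^ 3 : ℝ) : ℂ)‖ ≤ 4 * Λ ∧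
      1 / 2 ≤ (z + Complex.I - ((b / r ^ 2 : ℝ) : ℂ)).im ∧
      0 ≤ (z + Complex.I - ((b / r ^ 2 : ℝ) : ℂ)).re := by
  obtain ⟨h1, h2, h3, h4⟩ := hz
  have hr0 : 0 < r := by linarith
  have e1 : 0 ≤ b / r ^ 2 := by positivity
  have e2 : b / r ^ 2 ≤ Λ / 18 := by
    rw [div_le_iff₀ (by positivity)]
    have : (3 / 4 : ℝ) ^ 2 ≤ r ^ 2 := pow_le_pow_left₀ (by norm_num) hr 2
    nlinarith
  have e3 : 0 ≤ 2 * b / r ^ 3 := by positivity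
  have e4 : 2 * b / r ^ 3 ≤ Λ := by
    rw [div_le_iff₀ (by positivity)]
    have : (3 / 4 : ℝ) ^ 3 ≤ r ^ 3 := pow_le_pow_left₀ (by norm_num) hr 3
    nlinarith
  have him : (z + Complex.I - ((b / r ^ 2 : ℝ) : ℂ)).im = z.im + 1 := by
    rw [Complex.sub_im, Complex.add_im, Complex.I_im, Complex.ofReal_im, sub_zero]
  have hre : (z + Complex.I - ((b / r ^ 2 : ℝ) : ℂ)).re = z.re - b / r ^ 2 := by
    rw [Complex.sub_re, Complex.add_re, Complex.I_re, Complex.ofReal_re, add_zero]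
  refine ⟨?_, ?_, ?_, ?_⟩
  · refine (Complex.norm_le_abs_re_add_abs_im _).trans ?_
    rw [him, hre, abs_of_nonneg (by linarith), abs_of_nonneg (by linarith)]
    linarith
  · rw [Complex.norm_real, Real.norm_of_nonneg e3]
    linarith
  · rw [him]; linarith
  · rw [hre]; linarith

theorem solG_Ig (hREG : S_REG) (D : ℕ) (hD : 0 < D) (ν : ℂ) (r : ℝ) (hr : 0 < r) :
    SolG D ν (Ig D ν) (Ig1 D ν) {r ^ 2} := by
  intro s hs
  have hs' : 0 < s := by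
    rw [Set.mem_singleton_iff] at hs
    rw [hs]; positivity
  obtain ⟨h1, h2, h3⟩ := hREG.2 D ν s hD
  refine ⟨h1, ?_⟩
  have e : Ig2 D ν s = (ν * Ig D ν s - 2 * D * Ig1 D ν s) / (4 * s) := by
    have hs0 : (s : ℂ) ≠ 0 := by exact_mod_cast hs'.ne'
    rw [eq_div_iff (by simpa using hs0)]
    linear_combination h3
  rw [← e]
  exact h2

end InnerP

open InnerP

theorem p_INNER (hREG : S_REG) (hCONV : S_CONV) (hSGN : S_SGN) (hRIC : S_RIC) : S_INNER := by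
  intro Λ hΛ
  obtain ⟨C, ħ₀, hħ₀, H⟩ := hRIC (4 * Λ)
  refine ⟨C, ħ₀, hħ₀, ?_⟩
  intro ħ D hħ hħ' hD hb z hz
  obtain ⟨ν, hν⟩ : ∃ ν : ℂ, ν = -(z + Complex.I) / (ħ : ℂ) ^ 2 := ⟨_, rfl⟩
  have hνim : ν.im < 0 := by
    rw [hν, nu_im]
    have : 0 < z.im + 1 := by linarith [hz.2.2.1]
    exact div_neg_of_neg_of_pos (by linarith) (by positivity)
  have hneg : ∀ s : ℝ, 0 < s → (starRingEnd ℂ (Ig D ν s) * Ig1 D ν s).im < 0 := by
    intro s hs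
    have h := hSGN.1 D ν s (by omega) hνim.ne hs
    by_contra hcon
    push Not at hcon
    nlinarith
  rw [← hν]
  refine ⟨ne_zero_of_im (hneg 1 one_pos).ne, ?_⟩
  have hbb : 0 ≤ bb ħ D := bb_nonneg hD
  have key := H ħ (fun t => z + Complex.I - ((bb ħ D / (t + 3 / 4) ^ 2 : ℝ) : ℂ))
    (fun t => ((2 * bb ħ D / (t + 3 / 4) ^ 3 : ℝ) : ℂ))
    (fun t => uu D (Ig D ν) (t + 3 / 4)) (fun t => uu1 D (Ig D ν) (Ig1 D ν) (t + 3 / 4)) hħ hħ' ?_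
  · have e1 : uu D (Ig D ν) (1 / 4 + 3 / 4) = Ig D ν 1 := by
      unfold uu
      norm_num
    have e2 : uu1 D (Ig D ν) (Ig1 D ν) (1 / 4 + 3 / 4) =
        2 * Ig1 D ν 1 + ((D : ℂ) - 1) / 2 * Ig D ν 1 := by
      unfold uu1
      norm_num
    have hI : Ig D ν 1 ≠ 0 := ne_zero_of_im (hneg 1 one_pos).ne
    have e3 : (ħ : ℂ) * ((2 * Ig1 D ν 1 + ((D : ℂ) - 1) / 2 * Ig D ν 1) / Ig D ν 1) = aa ħ D z := by
      unfold aa
      rw [← hν]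
      field_simp
    have e4 : sq (z + Complex.I - ((bb ħ D / (1 / 4 + 3 / 4) ^ 2 : ℝ) : ℂ)) =
        pp (bb ħ D) (z + Complex.I) 1 := by
      unfold pp
      norm_num
    simp only [e1, e2, e3, e4] at key
    exact key
  · intro t ht
    have hr : 3 / 4 ≤ t + 3 / 4 := by linarith [ht.1]
    have hr0 : 0 < t + 3 / 4 := by linarith
    obtain ⟨b1, b2, b3, b4⟩ := w_bounds hΛ hbb hb hr hz
    have hs := solG_Ig hREG D (by omega) ν (t + 3 / 4) hr0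
    obtain ⟨c1, c2⟩ := hCONV.1 D ν (Ig D ν) (Ig1 D ν) (t + 3 / 4) hr0 hs
    refine ⟨?_, ?_, ?_, b1, b2, b3, b4, ?_⟩
    · exact (hasDerivAt_w (bb ħ D) z (t + 3 / 4) hr0.ne').comp_add_const t (3 / 4)
    · exact c1.comp_add_const t (3 / 4)
    · have c2' := c2.comp_add_const t (3 / 4)
      rw [hν, nu_eq ħ D z _ hħ.ne' hr0.ne', ← hν] at c2'
      exact c2'
    · show (starRingEnd ℂ (uu D (Ig D ν) (t + 3 / 4)) *
        uu1 D (Ig D ν) (Ig1 D ν) (t + 3 / 4)).im < 0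
      rw [hCONV.2 D _ _ _ hr0 (by omega)]
      have h := hneg ((t + 3 / 4) ^ 2) (by positivity)
      have h' : 2 * (t + 3 / 4) * (starRingEnd ℂ (Ig D ν ((t + 3 / 4) ^ 2)) *
        Ig1 D ν ((t + 3 / 4) ^ 2)).im < 0 := mul_neg_of_pos_of_neg (by linarith) h
      exact mul_neg_of_pos_of_neg (by positivity) h'

end Pool.Agent.Run7.h998.LT
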