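import Pool.Agent.Run7.h998.LT.Stm

/-!
# MP_c84763_mp, piece MID: transfer through the annulus
-/

set_option autoImplicit false

open MeasureTheory Filter Topology Set
open scoped ENNReal NNReal

namespace Pool.Agent.Run7.h998.LT

namespace MIDp

lemma sq_sq {w : ℂ} (hw : w ≠ 0) : sq w ^ 2 = w := by
  unfold sq
  rw [← Complex.exp_nat_mul, show ((2 : ℕ) : ℂ) * (Complex.log w / 2) = Complex.log w by
    push_cast; ring]
  exact Complex.exp_log hw

lemma sq_re_pos {w : ℂ} (hw : 0 < w.re) : 0 < (sq w).re := by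
  unfold sq
  rw [Complex.exp_re]
  refine mul_pos (Real.exp_pos _) (Real.cos_pos_of_mem_Ioo ?_)
  have h1 : (Complex.log w / 2).im = w.arg / 2 := by
    rw [show Complex.log w / 2 = (Complex.log w) / ((2 : ℝ) : ℂ) by norm_num,
      Complex.div_ofReal_im, Complex.log_im]
  have h2 := abs_le.1 (Complex.abs_arg_le_pi_div_two_iff.2 hw.le)
  have h3 := Real.pi_pos
  rw [h1]
  constructor <;> linarith [h2.1, h2.2]

lemma ne_of_re {w : ℂ} (hw : 0 < w.re) : w ≠ 0 := by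
  rintro rfl
  simp at hw

lemma sq_re {w : ℂ} (hw : 0 < w.re) : w.re ≤ (sq w).re ^ 2 := by
  have h1 : ((sq w) ^ 2).re = w.re := by rw [sq_sq (ne_of_re hw)]
  have h2 : ((sq w) ^ 2).re = (sq w).re ^ 2 - (sq w).im ^ 2 := by
    rw [pow_two, Complex.mul_re]; ring
  nlinarith [sq_nonneg (sq w).im]

lemma low {w : ℂ} (hw : 9 / 25 ≤ w.re) : 3 / 5 ≤ (sq w).re := by
  have h1 := sq_re (w := w) (by linarith)
  have h2 := sq_re_pos (w := w) (by linarith)
  by_contra h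
  push Not at h
  nlinarith

lemma sq_diff {w : ℂ} (hw : 0 < w.re) : DifferentiableAt ℂ sq w := by
  have h1 : w ∈ Complex.slitPlane := Or.inl hw
  have h2 : DifferentiableAt ℂ (fun w => Complex.exp (Complex.log w / 2)) w :=
    ((Complex.differentiableAt_log h1).div_const 2).cexp
  exact h2

lemma arg_re {Λ b : ℝ} (hΛ : 2 ≤ Λ) (hb : b ≤ Λ / 32) (hb0 : 0 ≤ b) {r : ℝ} (hr : 1 ≤ r) {z : ℂ}
    (hz : Λ / 4 ≤ z.re) : 9 / 25 ≤ (z - ((b / r ^ 2 : ℝ) : ℂ)).re ∧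
      9 / 25 ≤ (z + Complex.I - ((b / r ^ 2 : ℝ) : ℂ)).re ∧ b / r ^ 2 ≤ Λ / 32 ∧
      0 ≤ b / r ^ 2 := by
  have h1 : b / r ^ 2 ≤ b := div_le_self hb0 (by nlinarith)
  have h2 : 0 ≤ b / r ^ 2 := by positivity
  simp only [Complex.sub_re, Complex.add_re, Complex.ofReal_re, Complex.I_re]
  refine ⟨by linarith, by linarith, by linarith, h2⟩

/-- the starting values -/
lemma start {p p' a : ℂ} {δ : ℝ} (hp : 3 / 5 ≤ p.re) (hp' : 3 / 5 ≤ p'.re)
    (h : p' ^ 2 - p ^ 2 = Complex.I) (he : ‖a + Complex.I * p'‖ ≤ δ) (hδ : δ ≤ 1 / 8) :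
    a - Complex.I * p ≠ 0 ∧ ‖a + Complex.I * p‖ ≤ ‖a - Complex.I * p‖ := by
  obtain ⟨e, hed⟩ : ∃ e, e = a + Complex.I * p' := ⟨_, rfl⟩
  rw [← hed] at he
  have ha : a = e - Complex.I * p' := by rw [hed]; ring
  have h1 : (6 / 5 : ℝ) ≤ ‖p' + p‖ := by
    calc (6 / 5 : ℝ) ≤ (p' + p).re := by rw [Complex.add_re]; linarith
      _ ≤ ‖p' + p‖ := Complex.re_le_norm _
  have h2 : ‖p' - p‖ * ‖p' + p‖ = 1 := by
    rw [← norm_mul, show (p' - p) * (p' + p) = Complex.I by rw [← h]; ring, Complex.norm_I]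
  have h3 : ‖p' - p‖ ≤ 5 / 6 := by
    by_contra hc
    push Not at hc
    nlinarith
  have e1 : a - Complex.I * p = e - Complex.I * (p' + p) := by rw [ha]; ring
  have e2 : a + Complex.I * p = e - Complex.I * (p' - p) := by rw [ha]; ring
  have h4 : ‖p' + p‖ ≤ ‖a - Complex.I * p‖ + δ := by
    rw [e1]
    calc ‖p' + p‖ = ‖Complex.I * (p' + p)‖ := by rw [norm_mul, Complex.norm_I, one_mul]
      _ = ‖e - (e - Complex.I * (p' + p))‖ := by rw [sub_sub_cancel]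
      _ ≤ ‖e‖ + ‖e - Complex.I * (p' + p)‖ := norm_sub_le _ _
      _ ≤ _ := by linarith
  have h5 : ‖a + Complex.I * p‖ ≤ δ + 5 / 6 := by
    rw [e2]
    calc ‖e - Complex.I * (p' - p)‖ ≤ ‖e‖ + ‖Complex.I * (p' - p)‖ := norm_sub_le _ _
      _ ≤ _ := by
        rw [norm_mul, Complex.norm_I, one_mul]
        linarith
  refine ⟨?_, by linarith⟩
  intro h0
  rw [h0, norm_zero] at h4
  linarith

end MIDp

open MIDp in
theorem p_MID (hC : S_CONV) (hW : S_WKB) (hM : S_MIDSOL) : S_MID := by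
  intro Λ A C₁ hΛ hA
  obtain ⟨C, ħ₀, hħ₀, hWKB⟩ := hW (A + 3 * Λ) 3 (by norm_num)
  refine ⟨C, min ħ₀ (1 / (8 * (|C₁| + 1))), lt_min hħ₀ (by positivity), ?_⟩
  intro ħ D a hħ hħ1 hD hb hda ha
  have hħ2 : ħ < ħ₀ := lt_of_lt_of_le hħ1 (min_le_left _ _)
  have hħ3 : C₁ * ħ ≤ 1 / 8 := by
    have h1 : ħ < 1 / (8 * (|C₁| + 1)) := lt_of_lt_of_le hħ1 (min_le_right _ _)
    rw [lt_div_iff₀ (by positivity)] at h1
    have h2 : C₁ * ħ ≤ (|C₁| + 1) * ħ := by
      gcongr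
      linarith [le_abs_self C₁]
    linarith
  have hħne : (ħ : ℂ) ≠ 0 := Complex.ofReal_ne_zero.2 hħ.ne'
  have hDr : (4 : ℝ) ≤ D := by exact_mod_cast hD
  obtain ⟨b, hbd⟩ : ∃ b, b = bb ħ D := ⟨_, rfl⟩
  rw [← hbd] at hb ha ⊢
  have hb0 : 0 ≤ b := by
    rw [hbd]
    unfold bb
    have : 0 ≤ ((D : ℝ) - 1) * ((D : ℝ) - 3) := mul_nonneg (by linarith) (by linarith)
    positivity
  have hUopen : IsOpen {z : ℂ | z ∈ Bx Λ ∧ -(A * ħ) < z.im} := by
    have : {z : ℂ | z ∈ Bx Λ ∧ -(A * ħ) < z.im} =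
        {z : ℂ | Λ / 4 < z.re} ∩ {z : ℂ | z.re < 2 * Λ} ∩ {z : ℂ | -(1 / 2) < z.im} ∩
        {z : ℂ | z.im < 0} ∩ {z : ℂ | -(A * ħ) < z.im} := by
      ext z
      simp only [Bx, Set.mem_ofPred_eq, Set.mem_inter_iff]
      tauto
    rw [this]
    refine ((((isOpen_lt continuous_const Complex.continuous_re).inter
      (isOpen_lt Complex.continuous_re continuous_const)).inter
      (isOpen_lt continuous_const Complex.continuous_im)).inter
      (isOpen_lt Complex.continuous_im continuous_const)).inter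
      (isOpen_lt continuous_const Complex.continuous_im)
  have hUsub : {z : ℂ | z ∈ Bx Λ ∧ -(A * ħ) < z.im} ⊆ Bx Λ := fun z hz => hz.1
  obtain ⟨G, G1, hG, hGd⟩ := hM Λ ħ D (fun z => (a z / ħ - ((D : ℂ) - 1) / 2) / 2)
    {z : ℂ | z ∈ Bx Λ ∧ -(A * ħ) < z.im} hΛ hħ hD hUopen hUsub
    ((((hda.mono hUsub).div_const _).sub_const _).div_const _)
  -- the transfer at a point
  have key : ∀ z : ℂ, z ∈ Bx Λ → -(A * ħ) < z.im →
      (ħ * (4 * G1 z 4 + ((D : ℂ) - 1) / 4 * G z 4) - Complex.I * pp b z 2 * G z 4 ≠ 0) ∧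
      ‖Complex.exp (-(2 * Complex.I / ħ * th b z)) *
        ((ħ * (4 * G1 z 4 + ((D : ℂ) - 1) / 4 * G z 4) + Complex.I * pp b z 2 * G z 4) /
          (ħ * (4 * G1 z 4 + ((D : ℂ) - 1) / 4 * G z 4) - Complex.I * pp b z 2 * G z 4)) -
          (a z + Complex.I * pp b z 1) / (a z - Complex.I * pp b z 1)‖ ≤ C * ħ := by
    intro z hz hzim
    obtain ⟨hsol, hg1, hq⟩ := hG z ⟨hz, hzim⟩
    obtain ⟨g, hg⟩ : ∃ g, g = G z := ⟨_, rfl⟩
    obtain ⟨g1, hg1d⟩ : ∃ g1, g1 = G1 z := ⟨_, rfl⟩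
    rw [← hg, ← hg1d] at hsol
    rw [← hg] at hg1
    rw [← hg1d] at hq
    rw [← hg, ← hg1d]
    have hzr : Λ / 4 ≤ z.re := hz.1.le
    obtain ⟨w, hw⟩ : ∃ w : ℝ → ℂ, w = fun t => z - ((b / (1 + t) ^ 2 : ℝ) : ℂ) := ⟨_, rfl⟩
    obtain ⟨u, hu⟩ : ∃ u : ℝ → ℂ, u = fun t => uu D g (1 + t) := ⟨_, rfl⟩
    obtain ⟨u1, hu1⟩ : ∃ u1 : ℝ → ℂ, u1 = fun t => uu1 D g g1 (1 + t) := ⟨_, rfl⟩
    have hu0 : u 0 = 1 := by
      rw [hu]
      simp only [uu, add_zero, Real.one_rpow, one_pow, Complex.ofReal_one, one_mul]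
      exact hg1
    have hu10 : ħ * u1 0 = a z := by
      rw [hu1]
      simp only [uu1, add_zero, Real.one_rpow, one_pow, Complex.ofReal_one, one_mul, mul_one]
      rw [hg1, hq]
      field_simp
      ring
    have hw0 : sq (w 0) = pp b z 1 := by
      rw [hw]
      simp only [pp, add_zero]
    have hw1 : sq (w 1) = pp b z 2 := by
      rw [hw]
      simp only [pp]
      norm_num
    obtain ⟨κ, hκ⟩ : ∃ κ : ℂ, κ = (((2 : ℝ) ^ (((D : ℝ) - 1) / 2) : ℝ) : ℂ) := ⟨_, rfl⟩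
    have hκ0 : κ ≠ 0 := by
      rw [hκ]
      exact Complex.ofReal_ne_zero.2 (Real.rpow_pos_of_pos (by norm_num) _).ne'
    have hu11 : u 1 = κ * g 4 := by
      rw [hu, hκ]
      simp only [uu]
      norm_num
    have hu111 : u1 1 = κ * (4 * g1 4 + ((D : ℂ) - 1) / 4 * g 4) := by
      rw [hu1, hκ]
      simp only [uu1]
      norm_num
    have hint : ∫ t in (0 : ℝ)..1, sq (w t) = th b z := by
      unfold th
      have h1 : (fun t : ℝ => sq (w t)) = fun t => (fun r => pp b z r) (1 + t) := by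
        funext t
        rw [hw]
        simp only [pp]
      rw [h1, intervalIntegral.integral_comp_add_left (fun r => pp b z r) 1]
      norm_num
    obtain ⟨hst1, hst2⟩ := start (p := pp b z 1) (p' := pp b (z + Complex.I) 1) (a := a z)
      (δ := C₁ * ħ) (low (arg_re hΛ hb hb0 le_rfl hzr).1) (low (arg_re hΛ hb hb0 le_rfl hzr).2.1)
      (by
        have h1 := (arg_re hΛ hb hb0 (le_refl (1 : ℝ)) hzr).1
        have h2 := (arg_re hΛ hb hb0 (le_refl (1 : ℝ)) hzr).2.1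
        unfold pp
        rw [sq_sq (ne_of_re (by linarith)), sq_sq (ne_of_re (by linarith))]
        ring)
      (ha z hz) hħ3
    have hyp : ∀ t ∈ Icc (0 : ℝ) 1, HasDerivAt w ((2 * b / (1 + t) ^ 3 : ℝ) : ℂ) t ∧
        HasDerivAt (fun t : ℝ => ((2 * b / (1 + t) ^ 3 : ℝ) : ℂ)) ((-(6 * b) / (1 + t) ^ 4 : ℝ) : ℂ) t ∧
        HasDerivAt u (u1 t) t ∧ HasDerivAt u1 (-(w t) / (ħ : ℂ) ^ 2 * u t) t ∧
        ‖w t‖ ≤ A + 3 * Λ ∧ ‖((2 * b / (1 + t) ^ 3 : ℝ) : ℂ)‖ ≤ A + 3 * Λ ∧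
        ‖((-(6 * b) / (1 + t) ^ 4 : ℝ) : ℂ)‖ ≤ A + 3 * Λ ∧ 1 ≤ 3 * (w t).re ∧
        |(w t).im| ≤ (A + 3 * Λ) * ħ := by
      intro t ht
      have ht0 : 0 ≤ t := ht.1
      have h1t : (1 : ℝ) ≤ 1 + t := by linarith
      have h1tp : (0 : ℝ) < 1 + t := by linarith
      have hlin : HasDerivAt (fun t : ℝ => 1 + t) 1 t := by
        simpa using (hasDerivAt_id t).const_add 1
      obtain ⟨r1, r2, r3, r4⟩ := arg_re hΛ hb hb0 h1t hzr
      have p3 : (1 : ℝ) ≤ (1 + t) ^ 3 := one_le_pow₀ h1t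
      have p4 : (1 : ℝ) ≤ (1 + t) ^ 4 := one_le_pow₀ h1t
      obtain ⟨c1, c2⟩ := hC.1 D (-z / (ħ : ℂ) ^ 2) g g1 (1 + t) h1tp (by
        intro s hs
        rw [Set.mem_singleton_iff] at hs
        rw [hs]
        exact hsol _ (by
          change (0 : ℝ) < (1 + t) ^ 2
          positivity))
      refine ⟨?_, ?_, ?_, ?_, ?_, ?_, ?_, ?_, ?_⟩
      · have h1 : HasDerivAt (fun t : ℝ => b / (1 + t) ^ 2) (-(2 * b / (1 + t) ^ 3)) t := by
          have h2 := (hlin.fun_pow 2)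
          have h3 := (hasDerivAt_const t b).fun_div h2 (by positivity)
          refine h3.congr_deriv ?_
          field_simp
          ring
        have h4 := (hasDerivAt_const t z).fun_sub h1.ofReal_comp
        rw [hw]
        refine h4.congr_deriv ?_
        push_cast
        ring
      · have h1 : HasDerivAt (fun t : ℝ => 2 * b / (1 + t) ^ 3) (-(6 * b) / (1 + t) ^ 4) t := by
          have h2 := (hlin.fun_pow 3)
          have h3 := (hasDerivAt_const t (2 * b)).fun_div h2 (by positivity)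
          refine h3.congr_deriv ?_
          field_simp
          ring
        exact h1.ofReal_comp
      · rw [hu, hu1]
        have h1 := c1.scomp t hlin
        rw [one_smul] at h1
        exact h1
      · rw [hu1]
        have h1 := c2.scomp t hlin
        rw [one_smul] at h1
        refine h1.congr_deriv ?_
        rw [hw, hu]
        simp only
        rw [hbd]
        unfold bb
        have h5 : ((1 + t : ℝ) : ℂ) ≠ 0 := Complex.ofReal_ne_zero.2 h1tp.ne'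
        push_cast at h5 ⊢
        field_simp
        ring
      · rw [hw]
        have h1 : ‖z‖ ≤ 2 * Λ + 1 / 2 := by
          refine (Complex.norm_le_abs_re_add_abs_im z).trans ?_
          have h2 : |z.re| ≤ 2 * Λ := abs_le.2 ⟨by linarith, hz.2.1.le⟩
          have h3 : |z.im| ≤ 1 / 2 := abs_le.2 ⟨by linarith [hz.2.2.1], by linarith [hz.2.2.2]⟩
          linarith
        calc ‖z - ((b / (1 + t) ^ 2 : ℝ) : ℂ)‖ ≤ ‖z‖ + ‖((b / (1 + t) ^ 2 : ℝ) : ℂ)‖ :=
              norm_sub_le _ _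
          _ ≤ (2 * Λ + 1 / 2) + Λ / 32 := by
            rw [Complex.norm_real, Real.norm_eq_abs, abs_of_nonneg r4]
            linarith
          _ ≤ A + 3 * Λ := by linarith
      · rw [Complex.norm_real, Real.norm_eq_abs, abs_of_nonneg (by positivity)]
        have : 2 * b / (1 + t) ^ 3 ≤ 2 * b := div_le_self (by linarith) p3
        linarith
      · rw [Complex.norm_real, Real.norm_eq_abs, neg_div, abs_neg, abs_of_nonneg (by positivity)]
        have : 6 * b / (1 + t) ^ 4 ≤ 6 * b := div_le_self (by linarith) p4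
        linarith
      · rw [hw]
        simp only
        linarith
      · rw [hw]
        simp only [Complex.sub_im, Complex.ofReal_im, sub_zero]
        have h3 : |z.im| ≤ A * ħ := abs_le.2 ⟨by linarith, by
          have := hz.2.2.2
          have : 0 ≤ A * ħ := by positivity
          linarith⟩
        have : 0 ≤ 3 * Λ * ħ := by positivity
        linarith
    have hres := hWKB ħ w (fun t => ((2 * b / (1 + t) ^ 3 : ℝ) : ℂ))
      (fun t => ((-(6 * b) / (1 + t) ^ 4 : ℝ) : ℂ)) u u1 hħ hħ2 hyp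
      (by rw [hu10, hw0, hu0, mul_one]; exact hst1)
      (by rw [hu10, hw0, hu0, mul_one]; exact hst2)
    rw [hu10, hw0, hu0, mul_one, hint, hw1, hu11, hu111] at hres
    have e1 : ħ * (κ * (4 * g1 4 + ((D : ℂ) - 1) / 4 * g 4)) - Complex.I * pp b z 2 * (κ * g 4) =
        κ * (ħ * (4 * g1 4 + ((D : ℂ) - 1) / 4 * g 4) - Complex.I * pp b z 2 * g 4) := by ring
    have e2 : ħ * (κ * (4 * g1 4 + ((D : ℂ) - 1) / 4 * g 4)) + Complex.I * pp b z 2 * (κ * g 4) =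
        κ * (ħ * (4 * g1 4 + ((D : ℂ) - 1) / 4 * g 4) + Complex.I * pp b z 2 * g 4) := by ring
    rw [e1, e2, mul_div_mul_left _ _ hκ0] at hres
    exact ⟨(mul_ne_zero_iff.1 hres.1).2, hres.2⟩
  have hpp2 : DifferentiableOn ℂ (fun z => pp b z 2) {z : ℂ | z ∈ Bx Λ ∧ -(A * ħ) < z.im} := by
    intro z hz
    have hzr : Λ / 4 ≤ z.re := hz.1.1.le
    obtain ⟨h1, -, -, -⟩ := arg_re hΛ hb hb0 (show (1 : ℝ) ≤ 2 by norm_num) hzr
    have h2 : DifferentiableAt ℂ (fun z : ℂ => z - ((b / (2 : ℝ) ^ 2 : ℝ) : ℂ)) z :=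
      differentiableAt_id.sub_const _
    exact (DifferentiableAt.comp z (sq_diff (by linarith)) h2).differentiableWithinAt
  refine ⟨fun z => (ħ * (4 * G1 z 4 + ((D : ℂ) - 1) / 4 * G z 4) + Complex.I * pp b z 2 * G z 4) /
    (ħ * (4 * G1 z 4 + ((D : ℂ) - 1) / 4 * G z 4) - Complex.I * pp b z 2 * G z 4), ?_, ?_⟩
  · obtain ⟨d1, d2⟩ := hGd 4 (by norm_num)
    have d3 := ((d2.const_mul 4).add (d1.const_mul (((D : ℂ) - 1) / 4))).const_mul (ħ : ℂ)
    have d4 := (hpp2.const_mul Complex.I).mul d1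
    exact (d3.add d4).div (d3.sub d4) fun z hz => (key z hz.1 hz.2).1
  · intro z hz hzim
    refine ⟨(key z hz hzim).2, G z, G1 z, ?_⟩
    obtain ⟨hsol, hg1, hq⟩ := hG z ⟨hz, hzim⟩
    refine ⟨hsol, hg1, ?_, (key z hz hzim).1, ?_⟩
    · rw [hq]
      field_simp
      ring
    · exact div_mul_cancel₀ _ (key z hz hzim).1

end Pool.Agent.Run7.h998.LT
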