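import Pool.Agent.Run7.h998.LT.Stm

set_option autoImplicit false

open MeasureTheory Filter Topology Set
open scoped ENNReal NNReal

namespace Pool.Agent.Run7.h998.LT.PMIDSOL

open Pool.Agent.Helper41.CE

lemma sq_sq {z : ℂ} (hz : z ≠ 0) : sq z ^ 2 = z := by
  unfold sq
  rw [← Complex.exp_nat_mul]
  have : ((2 : ℕ) : ℂ) * (Complex.log z / 2) = Complex.log z := by push_cast; ring
  rw [this, Complex.exp_log hz]

lemma sq_im_neg {z : ℂ} (hz : z.im < 0) : (sq z).im < 0 := by
  unfold sq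
  rw [Complex.exp_im]
  have h1 : (Complex.log z / 2).im = Complex.arg z / 2 := by
    rw [Complex.div_ofNat_im, Complex.log_im]
  rw [h1]
  have h2 : Complex.arg z < 0 := Complex.arg_neg_iff.2 hz
  have h3 := Complex.neg_pi_lt_arg z
  have h4 : Real.sin (Complex.arg z / 2) < 0 :=
    Real.sin_neg_of_neg_of_neg_pi_lt (by linarith) (by linarith [Real.pi_pos])
  exact mul_neg_of_pos_of_neg (Real.exp_pos _) h4

theorem p_MIDSOL (hREG : S_REG) (hDEC : S_DEC) (hSGN : S_SGN) : S_MIDSOL := by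
  intro Λ ħ D q U hΛ hħ hD hUo hU hq
  have hħ' : (ħ : ℂ) ≠ 0 := by exact_mod_cast hħ.ne'
  obtain ⟨hR1, hR2⟩ := hREG
  obtain ⟨hD1, hD2, -, -⟩ := hDEC
  obtain ⟨hS1, hS2⟩ := hSGN
  -- parameters
  set ν : ℂ → ℂ := fun z => -z / (ħ : ℂ) ^ 2 with hν
  set κ : ℂ → ℂ := fun z => Complex.I * sq z / ħ with hκ
  have hz : ∀ z ∈ U, 0 < z.re ∧ z.im < 0 := by
    intro z hzU
    obtain ⟨h1, -, -, h4⟩ := hU hzU
    exact ⟨by linarith, h4⟩
  have hz0 : ∀ z ∈ U, z ≠ 0 := by
    intro z hzU h0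
    have := (hz z hzU).1
    rw [h0] at this
    simp at this
  have hκν : ∀ z ∈ U, κ z ^ 2 = ν z := by
    intro z hzU
    simp only [hκ, hν]
    rw [div_pow, mul_pow, sq_sq (hz0 z hzU), Complex.I_sq, neg_one_mul]
  have hκre : ∀ z ∈ U, 0 < (κ z).re := by
    intro z hzU
    have h1 := sq_im_neg (hz z hzU).2
    simp only [hκ]
    rw [Complex.div_ofReal_re, Complex.I_mul_re]
    exact div_pos (by linarith) hħ
  have hνim : ∀ z ∈ U, 0 < (ν z).im := by
    intro z hzU
    have h1 := (hz z hzU).2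
    simp only [hν]
    rw [← Complex.ofReal_pow, Complex.div_ofReal_im, Complex.neg_im]
    exact div_pos (by linarith) (by positivity)
  -- holomorphy
  have hνd : DifferentiableOn ℂ ν U := by
    intro z _
    simp only [hν]
    fun_prop
  have hκd : DifferentiableOn ℂ κ U := by
    intro z hzU
    simp only [hκ]
    have h1 : z ∈ Complex.slitPlane := by
      rw [Complex.mem_slitPlane_iff]
      exact Or.inl (hz z hzU).1
    have h2 : DifferentiableAt ℂ sq z := by
      unfold sq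
      exact ((Complex.differentiableAt_log h1).div_const 2).cexp
    exact ((h2.const_mul Complex.I).div_const (ħ : ℂ)).differentiableWithinAt
  have hDp : 0 < D := by omega
  have hIgd : ∀ s : ℝ, DifferentiableOn ℂ (fun z => Ig D (ν z) s) U := by
    intro s z hzU
    unfold Ig
    exact ((hR1 D hDp).1 _).comp_differentiableWithinAt z (((hνd z hzU).mul_const _).div_const _)
  have hIg1d : ∀ s : ℝ, DifferentiableOn ℂ (fun z => Ig1 D (ν z) s) U := by
    intro s z hzU
    unfold Ig1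
    refine ((hνd z hzU).div_const _).mul ?_
    exact ((hR1 (D + 2) (by omega)).1 _).comp_differentiableWithinAt z (((hνd z hzU).mul_const _).div_const _)
  have hre : ∀ s : ℝ, 0 < s → ∀ z ∈ U, 0 < (κ z * (Real.sqrt s : ℝ)).re := by
    intro s hs z hzU
    rw [Complex.re_mul_ofReal]
    exact mul_pos (hκre z hzU) (Real.sqrt_pos.2 hs)
  have hopen : IsOpen {w : ℂ | 0 < w.re} := isOpen_lt continuous_const Complex.continuous_re
  have hDecd : ∀ (E : ℕ), 4 ≤ E → ∀ s : ℝ, 0 < s →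
      DifferentiableOn ℂ (fun z => Dec E (κ z * (Real.sqrt s : ℝ))) U := by
    intro E hE s hs z hzU
    have h1 : DifferentiableAt ℂ (Dec E) (κ z * (Real.sqrt s : ℝ)) :=
      (hD1 E hE _ (hre s hs z hzU)).differentiableAt (hopen.mem_nhds (hre s hs z hzU))
    have h2 : DifferentiableWithinAt ℂ (fun z => κ z * (Real.sqrt s : ℝ)) U z := (hκd z hzU).mul_const _
    exact DifferentiableAt.comp_differentiableWithinAt (g := Dec E)
      (f := fun z => κ z * (Real.sqrt s : ℝ)) z h1 h2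
  have hKgd : ∀ s : ℝ, 0 < s → DifferentiableOn ℂ (fun z => Kg D (κ z) s) U := by
    intro s hs
    unfold Kg
    exact hDecd D hD s hs
  have hKg1d : ∀ s : ℝ, 0 < s → DifferentiableOn ℂ (fun z => Kg1 D (κ z) s) U := by
    intro s hs z hzU
    unfold Kg1
    refine (DifferentiableWithinAt.div_const ?_ _).mul (hDecd (D + 2) (by omega) s hs z hzU)
    exact ((hκd z hzU).pow 2).neg
  -- the Wronskian
  set W : ℂ → ℂ := fun z => Ig D (ν z) 1 * Kg1 D (κ z) 1 - Ig1 D (ν z) 1 * Kg D (κ z) 1 with hW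
  have hWne : ∀ z ∈ U, W z ≠ 0 := by
    intro z hzU h0
    have h1 := hS1 D (ν z) 1 (by omega) (hνim z hzU).ne' one_pos
    have h2 := hS2 D (κ z) 1 hD (hκre z hzU) (by rw [hκν z hzU]; exact (hνim z hzU).ne') one_pos
    rw [hκν z hzU] at h2
    have h3 : 0 < (starRingEnd ℂ (Ig D (ν z) 1) * Ig1 D (ν z) 1).im :=
      (mul_pos_iff_of_pos_left (hνim z hzU)).1 h1
    have h4 : (starRingEnd ℂ (Kg D (κ z) 1) * Kg1 D (κ z) 1).im < 0 := by
      by_contra hcon
      have := mul_nonneg (hνim z hzU).le (not_lt.1 hcon)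
      linarith
    have hI0 : Ig D (ν z) 1 ≠ 0 := by
      intro h
      rw [h] at h3
      simp at h3
    -- `Kg1 = Ig1 * Kg / Ig`
    simp only [hW] at h0
    have h5 : Kg1 D (κ z) 1 = Ig1 D (ν z) 1 * Kg D (κ z) 1 / Ig D (ν z) 1 := by
      rw [eq_div_iff hI0]
      linear_combination h0
    have h6 : starRingEnd ℂ (Kg D (κ z) 1) * Kg1 D (κ z) 1 =
        ((Complex.normSq (Kg D (κ z) 1) / Complex.normSq (Ig D (ν z) 1) : ℝ) : ℂ) *
          (starRingEnd ℂ (Ig D (ν z) 1) * Ig1 D (ν z) 1) := by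
      rw [h5]
      push_cast
      rw [Complex.normSq_eq_conj_mul_self, Complex.normSq_eq_conj_mul_self]
      have hI0' : starRingEnd ℂ (Ig D (ν z) 1) ≠ 0 := by
        rw [Ne, map_eq_zero]; exact hI0
      field_simp
    rw [h6, Complex.im_ofReal_mul] at h4
    have h7 : 0 ≤ Complex.normSq (Kg D (κ z) 1) / Complex.normSq (Ig D (ν z) 1) :=
      div_nonneg (Complex.normSq_nonneg _) (Complex.normSq_nonneg _)
    have := mul_nonneg h7 h3.le
    linarith
  have hWd : DifferentiableOn ℂ W U := by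
    have h1 := (hIgd 1).mul (hKg1d 1 one_pos)
    have h2 := (hIg1d 1).mul (hKgd 1 one_pos)
    exact h1.sub h2
  set α : ℂ → ℂ := fun z => (Kg1 D (κ z) 1 - q z * Kg D (κ z) 1) / W z with hα
  set β : ℂ → ℂ := fun z => (q z * Ig D (ν z) 1 - Ig1 D (ν z) 1) / W z with hβ
  have hαd : DifferentiableOn ℂ α U :=
    (((hKg1d 1 one_pos).sub (hq.mul (hKgd 1 one_pos))).div hWd hWne)
  have hβd : DifferentiableOn ℂ β U :=
    ((hq.mul (hIgd 1)).sub (hIg1d 1)).div hWd hWne
  refine ⟨fun z s => α z * Ig D (ν z) s + β z * Kg D (κ z) s,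
    fun z s => α z * Ig1 D (ν z) s + β z * Kg1 D (κ z) s, ?_, ?_⟩
  · intro z hzU
    refine ⟨?_, ?_, ?_⟩
    · intro s hs
      have hs' : (0 : ℝ) < s := hs
      have hsc : (s : ℂ) ≠ 0 := by exact_mod_cast hs'.ne'
      obtain ⟨a1, a2, a3⟩ := hR2 D (ν z) s hDp
      obtain ⟨b1, b2⟩ := hD2 D (κ z) hD (hκre z hzU) s hs
      rw [hκν z hzU] at b2
      refine ⟨(a1.const_mul _).add (b1.const_mul _), ?_⟩
      refine ((a2.const_mul (α z)).add (b2.const_mul (β z))).congr_deriv ?_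
      have a4 : Ig2 D (ν z) s = (ν z * Ig D (ν z) s - 2 * D * Ig1 D (ν z) s) / (4 * s) := by
        rw [eq_div_iff (by simpa using hsc)]
        linear_combination a3
      rw [a4]
      show _ = (ν z * _ - _) / _
      field_simp
      ring
    · simp only [hα, hβ]
      rw [div_mul_eq_mul_div, div_mul_eq_mul_div, ← add_div, div_eq_one_iff_eq (hWne z hzU)]
      simp only [hW]
      ring
    · simp only [hα, hβ]
      rw [div_mul_eq_mul_div, div_mul_eq_mul_div, ← add_div, div_eq_iff (hWne z hzU)]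
      simp only [hW]
      ring
  · intro s hs
    exact ⟨(hαd.mul (hIgd s)).add (hβd.mul (hKgd s hs)), (hαd.mul (hIg1d s)).add (hβd.mul (hKg1d s hs))⟩

end Pool.Agent.Run7.h998.LT.PMIDSOL
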