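import Pool.Agent.Run7.h998.LT.Stm

/-!
# OUTER: the boundary value at `r = 2` of the decaying solution (helper576)
-/

set_option autoImplicit false

open MeasureTheory Filter Topology Set

namespace Pool.Agent.Run7.h998.LT

namespace OuterP

theorem bb_nonneg {ħ : ℝ} {D : ℕ} (hD : 4 ≤ D) : 0 ≤ bb ħ D := by
  have h : (4 : ℝ) ≤ D := by exact_mod_cast hD
  unfold bb
  exact mul_nonneg (sq_nonneg _) (div_nonneg (mul_nonneg (by linarith) (by linarith)) (by norm_num))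

theorem ne_zero_of_im {a b : ℂ} (h : (starRingEnd ℂ a * b).im ≠ 0) : a ≠ 0 := by
  rintro rfl
  apply h
  simp

theorem nu_eq (ħ : ℝ) (D : ℕ) (z : ℂ) (r : ℝ) (hħ : ħ ≠ 0) (hr : r ≠ 0) :
    -(z + Complex.I) / (ħ : ℂ) ^ 2 + ((D : ℂ) - 1) * ((D : ℂ) - 3) / (4 * (r : ℂ) ^ 2) =
      -(z + Complex.I - ((bb ħ D / r ^ 2 : ℝ) : ℂ)) / (ħ : ℂ) ^ 2 := by
  have h1 : (ħ : ℂ) ≠ 0 := by exact_mod_cast hħ
  have h2 : (r : ℂ) ≠ 0 := by exact_mod_cast hr
  unfold bb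
  push_cast
  field_simp
  ring

theorem nu_im (ħ : ℝ) (z : ℂ) : (-(z + Complex.I) / (ħ : ℂ) ^ 2).im = -(z.im + 1) / ħ ^ 2 := by
  rw [← Complex.ofReal_pow, Complex.div_ofReal_im, Complex.neg_im, Complex.add_im, Complex.I_im]

theorem hasDerivAt_w (b : ℝ) (z : ℂ) (r : ℝ) (hr : r ≠ 0) :
    HasDerivAt (fun x : ℝ => z + Complex.I - ((b / x ^ 2 : ℝ) : ℂ)) ((2 * b / r ^ 3 : ℝ) : ℂ) r := by
  have h1 : HasDerivAt (fun x : ℝ => b / x ^ 2) (-(2 * b / r ^ 3)) r := by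
    have h := (hasDerivAt_const r b).div (hasDerivAt_pow 2 r) (pow_ne_zero 2 hr)
    convert! h using 1
    field_simp
    push_cast
    ring
  have h2 := h1.ofReal_comp.const_sub (z + Complex.I)
  convert! h2 using 1
  push_cast
  ring

theorem w_bounds {Λ b r : ℝ} {z : ℂ} (hΛ : 2 ≤ Λ) (hb : 0 ≤ b) (hb' : b ≤ Λ / 32)
    (hr : 3 / 4 ≤ r) (hz : z ∈ Bx Λ) :
    ‖z + Complex.I - ((b / r ^ 2 : ℝ) : ℂ)‖ ≤ 4 * Λ ∧ ‖((2 * b / r ^ 3 : ℝ) : ℂ)‖ ≤ 4 * Λ ∧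
      1 / 2 ≤ (z + Complex.I - ((b / r ^ 2 : ℝ) : ℂ)).im ∧
      0 ≤ (z + Complex.I - ((b / r ^ 2 : ℝ) : ℂ)).re := by
  obtain ⟨h1, h2, h3, h4⟩ := hz
  have hr0 : 0 < r := by linarith
  have e1 : 0 ≤ b / r ^ 2 := by positivity
  have e2 : b / r ^ 2 ≤ Λ / 18 := by
    rw [div_le_iff₀ (by positivity)]
    have : (3 / 4 : ℝ) ^ 2 ≤ r ^ 2 := pow_le_pow_left₀ (by norm_num) hr 2
    nlinarith
  have e3 : 0 ≤ 2 * b / r ^ 3 := by positivity
  have e4 : 2 * b / r ^ 3 ≤ Λ := by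
    rw [div_le_iff₀ (by positivity)]
    have : (3 / 4 : ℝ) ^ 3 ≤ r ^ 3 := pow_le_pow_left₀ (by norm_num) hr 3
    nlinarith
  have him : (z + Complex.I - ((b / r ^ 2 : ℝ) : ℂ)).im = z.im + 1 := by
    rw [Complex.sub_im, Complex.add_im, Complex.I_im, Complex.ofReal_im, sub_zero]
  have hre : (z + Complex.I - ((b / r ^ 2 : ℝ) : ℂ)).re = z.re - b / r ^ 2 := by
    rw [Complex.sub_re, Complex.add_re, Complex.I_re, Complex.ofReal_re, add_zero]
  refine ⟨?_, ?_, ?_, ?_⟩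
  · refine (Complex.norm_le_abs_re_add_abs_im _).trans ?_
    rw [him, hre, abs_of_nonneg (by linarith), abs_of_nonneg (by linarith)]
    linarith
  · rw [Complex.norm_real, Real.norm_of_nonneg e3]
    linarith
  · rw [him]; linarith
  · rw [hre]; linarith

theorem sq_sq {w : ℂ} (hw : w ≠ 0) : sq w ^ 2 = w := by
  unfold sq
  rw [← Complex.exp_nat_mul]
  push_cast
  rw [mul_div_cancel₀ _ two_ne_zero, Complex.exp_log hw]

theorem sq_im_pos {w : ℂ} (hw : 0 < w.im) : 0 < (sq w).im := by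
  unfold sq
  rw [Complex.exp_im]
  refine mul_pos (Real.exp_pos _) (Real.sin_pos_of_pos_of_lt_pi ?_ ?_)
  · have h1 : (Complex.log w / 2).im = Complex.arg w / 2 := by
      rw [show (2 : ℂ) = ((2 : ℝ) : ℂ) by norm_num, Complex.div_ofReal_im, Complex.log_im]
    rw [h1]
    have h2 : 0 ≤ Complex.arg w := Complex.arg_nonneg_iff.2 hw.le
    have h3 : Complex.arg w ≠ 0 := by
      intro h
      rw [Complex.arg_eq_zero_iff] at h
      exact hw.ne' h.2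
    have h4 : 0 < Complex.arg w := lt_of_le_of_ne h2 h3.symm
    linarith
  · have h1 : (Complex.log w / 2).im = Complex.arg w / 2 := by
      rw [show (2 : ℂ) = ((2 : ℝ) : ℂ) by norm_num, Complex.div_ofReal_im, Complex.log_im]
    rw [h1]
    have h2 := Complex.arg_le_pi w
    linarith [Real.pi_pos]

end OuterP

open OuterP

theorem p_OUTER (hDEC : S_DEC) (hCONV : S_CONV) (hSGN : S_SGN) (hRIC : S_RIC) : S_OUTER := by
  intro Λ hΛ
  obtain ⟨C, ħ₀, hħ₀, H⟩ := hRIC (4 * Λ)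
  refine ⟨C, ħ₀, hħ₀, ?_⟩
  intro ħ D hħ hħ' hD hb z hz
  have him : 0 < (z + Complex.I).im := by
    rw [Complex.add_im, Complex.I_im]
    linarith [hz.2.2.1]
  have hne : z + Complex.I ≠ 0 := by
    intro h
    rw [h, Complex.zero_im] at him
    exact lt_irrefl _ him
  have hħC : (ħ : ℂ) ≠ 0 := by exact_mod_cast hħ.ne'
  obtain ⟨κ, hκ⟩ : ∃ κ : ℂ, κ = kap ħ z := ⟨_, rfl⟩
  have hκre : 0 < κ.re := by
    rw [hκ]
    unfold kap
    rw [Complex.div_ofReal_re]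
    have : (-Complex.I * sq (z + Complex.I)).re = (sq (z + Complex.I)).im := by
      rw [Complex.mul_re, Complex.neg_re, Complex.I_re, Complex.neg_im, Complex.I_im]
      ring
    rw [this]
    exact div_pos (sq_im_pos him) hħ
  have hκsq : κ ^ 2 = -(z + Complex.I) / (ħ : ℂ) ^ 2 := by
    rw [hκ]
    unfold kap
    rw [div_pow, mul_pow, sq_sq hne, neg_pow, Complex.I_sq]
    ring
  have hνim : (κ ^ 2).im < 0 := by
    rw [hκsq, nu_im]
    have : 0 < z.im + 1 := by linarith [hz.2.2.1]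
    exact div_neg_of_neg_of_pos (by linarith) (by positivity)
  have hpos : ∀ s : ℝ, 0 < s → 0 < (starRingEnd ℂ (Kg D κ s) * Kg1 D κ s).im := by
    intro s hs
    have h := hSGN.2 D κ s hD hκre hνim.ne hs
    by_contra hcon
    push Not at hcon
    nlinarith
  rw [← hκ]
  have hK : Kg D κ 4 ≠ 0 := ne_zero_of_im (hpos 4 (by norm_num)).ne'
  refine ⟨hκre, hκsq, hK, ?_⟩
  have hbb : 0 ≤ bb ħ D := bb_nonneg hD
  have key := H ħ (fun t => z + Complex.I - ((bb ħ D / (9 / 4 - t) ^ 2 : ℝ) : ℂ))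
    (fun t => -((2 * bb ħ D / (9 / 4 - t) ^ 3 : ℝ) : ℂ))
    (fun t => uu D (Kg D κ) (9 / 4 - t)) (fun t => -uu1 D (Kg D κ) (Kg1 D κ) (9 / 4 - t)) hħ hħ' ?_
  · have h94 : (9 / 4 - 1 / 4 : ℝ) = 2 := by norm_num
    have h22 : (2 : ℝ) ^ 2 = 4 := by norm_num
    obtain ⟨m, hm⟩ : ∃ m : ℂ, m = (((2 : ℝ) ^ (((D : ℝ) - 1) / 2) : ℝ) : ℂ) := ⟨_, rfl⟩
    have hm0 : m ≠ 0 := by
      rw [hm]
      exact_mod_cast (Real.rpow_pos_of_pos (by norm_num : (0 : ℝ) < 2) _).ne'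
    have e1 : uu D (Kg D κ) (9 / 4 - 1 / 4) = m * Kg D κ 4 := by
      rw [h94, hm]
      unfold uu
      rw [h22]
    have e2 : uu1 D (Kg D κ) (Kg1 D κ) (9 / 4 - 1 / 4) =
        m * (4 * Kg1 D κ 4 + ((D : ℂ) - 1) / 4 * Kg D κ 4) := by
      rw [h94, hm]
      unfold uu1
      rw [h22]
      push_cast
      ring
    have e3 : (ħ : ℂ) * (-(m * (4 * Kg1 D κ 4 + ((D : ℂ) - 1) / 4 * Kg D κ 4)) / (m * Kg D κ 4)) =
        -cc ħ D z := by
      unfold cc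
      rw [← hκ]
      field_simp
    have e4 : sq (z + Complex.I - ((bb ħ D / (9 / 4 - 1 / 4) ^ 2 : ℝ) : ℂ)) =
        pp (bb ħ D) (z + Complex.I) 2 := by
      unfold pp
      rw [h94]
    simp only [e1, e2, e3, e4] at key
    rw [← norm_neg]
    refine le_trans (le_of_eq ?_) key
    congr 1
    ring
  · intro t ht
    have hr : 3 / 4 ≤ 9 / 4 - t := by linarith [ht.2]
    have hr0 : 0 < 9 / 4 - t := by linarith
    obtain ⟨b1, b2, b3, b4⟩ := w_bounds hΛ hbb hb hr hz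
    have hs : SolG D (κ ^ 2) (Kg D κ) (Kg1 D κ) {(9 / 4 - t) ^ 2} := by
      intro s hs
      rw [Set.mem_singleton_iff] at hs
      exact hDEC.2.1 D κ hD hκre s (by rw [hs]; exact Set.mem_Ioi.2 (by positivity))
    obtain ⟨c1, c2⟩ := hCONV.1 D (κ ^ 2) (Kg D κ) (Kg1 D κ) (9 / 4 - t) hr0 hs
    refine ⟨?_, ?_, ?_, b1, ?_, b3, b4, ?_⟩
    · exact (hasDerivAt_w (bb ħ D) z (9 / 4 - t) hr0.ne').comp_const_sub (9 / 4) t
    · exact c1.comp_const_sub (9 / 4) t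
    · have c2' := (c2.comp_const_sub (9 / 4) t).neg
      rw [hκsq, nu_eq ħ D z _ hħ.ne' hr0.ne', neg_neg] at c2'
      exact c2'
    · rw [norm_neg]; exact b2
    · show (starRingEnd ℂ (uu D (Kg D κ) (9 / 4 - t)) *
        -uu1 D (Kg D κ) (Kg1 D κ) (9 / 4 - t)).im < 0
      rw [mul_neg, Complex.neg_im, neg_lt_zero, hCONV.2 D _ _ _ hr0 (by omega)]
      have h := hpos ((9 / 4 - t) ^ 2) (by positivity)
      exact mul_pos (by positivity) (mul_pos (by linarith) h)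

end Pool.Agent.Run7.h998.LT
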