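import Pool.Agent.Run7.h998.LT.Stm

set_option autoImplicit false

open MeasureTheory Filter Topology Set
open scoped ENNReal NNReal

namespace Pool.Agent.Run7.h998.LT.PREG

open Pool.Agent.Run7.h998.LT

lemma poch_succ (D m : ℕ) : poch D (m + 1) = ((D : ℂ) / 2) * poch (D + 2) m := by
  unfold poch
  rw [Finset.prod_range_succ']
  rw [mul_comm]
  congr 1
  · simp
  · apply Finset.prod_congr rfl
    intro j _
    push_cast
    ring

lemma poch_succ' (D m : ℕ) : poch D (m + 1) = poch D m * ((D : ℂ) / 2 + m) := by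
  unfold poch
  rw [Finset.prod_range_succ]

lemma norm_factor (D j : ℕ) : ‖(D : ℂ) / 2 + j‖ = (D : ℝ) / 2 + j := by
  have : ((D : ℂ) / 2 + j) = (((D : ℝ) / 2 + j : ℝ) : ℂ) := by push_cast; ring
  rw [this, Complex.norm_real, Real.norm_of_nonneg (by positivity)]

lemma norm_poch (D m : ℕ) (hD : 0 < D) : 1 / 2 ≤ ‖poch D m‖ := by
  have hD' : (1 : ℝ) ≤ D := by exact_mod_cast hD
  induction m with
  | zero => simp [poch]; norm_num
  | succ n ih =>
    rw [poch_succ', norm_mul, norm_factor]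
    rcases Nat.eq_zero_or_pos n with h | h
    · subst h
      simp [poch]
      linarith
    · have hn : (1 : ℝ) ≤ n := by exact_mod_cast h
      nlinarith [norm_nonneg (poch D n)]

lemma poch_ne (D m : ℕ) (hD : 0 < D) : poch D m ≠ 0 := by
  intro h
  have := norm_poch D m hD
  rw [h] at this
  simp at this
  linarith

lemma summ (D : ℕ) (hD : 0 < D) (y : ℂ) :
    Summable (fun m : ℕ => y ^ m / ((m.factorial : ℂ) * poch D m)) := by
  apply Summable.of_norm_bounded (g := fun m : ℕ => 2 * (‖y‖ ^ m / (m.factorial : ℝ)))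
  · exact (Real.summable_pow_div_factorial ‖y‖).mul_left 2
  · intro m
    rw [norm_div, norm_mul, norm_pow]
    have h1 := norm_poch D m hD
    have hf : (0 : ℝ) < (m.factorial : ℝ) := by exact_mod_cast Nat.factorial_pos m
    have h2 : ‖(m.factorial : ℂ)‖ = (m.factorial : ℝ) := by simp
    rw [h2]
    rw [div_le_iff₀ (by positivity)]
    have : 2 * (‖y‖ ^ m / (m.factorial : ℝ)) * ((m.factorial : ℝ) * ‖poch D m‖)
        = ‖y‖ ^ m * (2 * ‖poch D m‖) := by
      field_simp
    rw [this]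
    have h3 : (0 : ℝ) ≤ ‖y‖ ^ m := by positivity
    nlinarith

lemma hasDerivAt_Reg (D : ℕ) (hD : 0 < D) (y : ℂ) :
    HasDerivAt (Reg D) (2 / D * Reg (D + 2) y) y := by
  have hDc : (D : ℂ) ≠ 0 := by exact_mod_cast hD.ne'
  set R : ℝ := ‖y‖ + 1 with hR
  have hR0 : 0 < R := by positivity
  set u : ℕ → ℝ := fun n => (n : ℝ) * R ^ (n - 1) * 2 / (n.factorial : ℝ) with hu
  have hsu : Summable u := by
    rw [← summable_nat_add_iff 1]
    have : (fun n => u (n + 1)) = fun n : ℕ => 2 * (R ^ n / (n.factorial : ℝ)) := by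
      funext n
      simp only [hu]
      have : ((n + 1).factorial : ℝ) = (n + 1) * (n.factorial : ℝ) := by
        rw [Nat.factorial_succ]; push_cast; ring
      rw [this]
      have hf : (n.factorial : ℝ) ≠ 0 := by exact_mod_cast (Nat.factorial_ne_zero n)
      have hn : (n + 1 : ℝ) ≠ 0 := by positivity
      push_cast
      try simp only [Nat.add_sub_cancel]
      field_simp
    rw [this]
    exact (Real.summable_pow_div_factorial R).mul_left 2
  have key := hasDerivAt_tsum_of_isPreconnected (𝕜 := ℂ) (u := u)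
    (g := fun (n : ℕ) (z : ℂ) => z ^ n / ((n.factorial : ℂ) * poch D n))
    (g' := fun (n : ℕ) (z : ℂ) => (n : ℂ) * z ^ (n - 1) / ((n.factorial : ℂ) * poch D n))
    (t := Metric.ball (0 : ℂ) R) (y₀ := 0) (y := y) hsu Metric.isOpen_ball
    (convex_ball _ _).isPreconnected ?_ ?_ (Metric.mem_ball_self hR0) (summ D hD 0) ?_
  · have h2 : (∑' n : ℕ, (n : ℂ) * y ^ (n - 1) / ((n.factorial : ℂ) * poch D n)) =
        2 / D * Reg (D + 2) y := by
      have hs : Summable (fun n : ℕ => (n : ℂ) * y ^ (n - 1) / ((n.factorial : ℂ) * poch D n)) := by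
        rw [← summable_nat_add_iff 1]
        have := (summ (D + 2) (by omega) y).mul_left (2 / (D : ℂ))
        refine this.congr ?_
        intro n
        rw [poch_succ]
        have : ((n + 1).factorial : ℂ) = (n + 1) * (n.factorial : ℂ) := by
          rw [Nat.factorial_succ]; push_cast; ring
        rw [this]
        have hf : (n.factorial : ℂ) ≠ 0 := by exact_mod_cast (Nat.factorial_ne_zero n)
        have hn : (n + 1 : ℂ) ≠ 0 := by exact_mod_cast (Nat.succ_ne_zero n)
        have hp := poch_ne (D + 2) n (by omega)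
        push_cast
        try simp only [Nat.add_sub_cancel]
        field_simp
      rw [hs.tsum_eq_zero_add]
      simp only [Nat.cast_zero, zero_mul, zero_div, zero_add]
      unfold Reg
      rw [← tsum_mul_left]
      apply tsum_congr
      intro n
      rw [poch_succ]
      have : ((n + 1).factorial : ℂ) = (n + 1) * (n.factorial : ℂ) := by
        rw [Nat.factorial_succ]; push_cast; ring
      rw [this]
      have hf : (n.factorial : ℂ) ≠ 0 := by exact_mod_cast (Nat.factorial_ne_zero n)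
      have hn : (n + 1 : ℂ) ≠ 0 := by exact_mod_cast (Nat.succ_ne_zero n)
      have hp := poch_ne (D + 2) n (by omega)
      push_cast
      try simp only [Nat.add_sub_cancel]
      field_simp
    rw [← h2]
    exact key
  · intro n z _
    exact (hasDerivAt_pow n z).div_const _
  · intro n z hz
    have hz' : ‖z‖ ≤ R := by
      have := mem_ball_zero_iff.mp hz
      exact this.le
    rw [norm_div, norm_mul, norm_mul, norm_pow]
    have h1 := norm_poch D n hD
    have hf : (0 : ℝ) < (n.factorial : ℝ) := by exact_mod_cast Nat.factorial_pos n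
    have h2 : ‖(n.factorial : ℂ)‖ = (n.factorial : ℝ) := by simp
    have h3 : ‖(n : ℂ)‖ = (n : ℝ) := by simp
    rw [h2, h3]
    have h4 : ‖z‖ ^ (n - 1) ≤ R ^ (n - 1) := pow_le_pow_left₀ (norm_nonneg _) hz' _
    simp only [hu]
    rw [div_le_div_iff₀ (by positivity) hf]
    have h5 : (n : ℝ) * ‖z‖ ^ (n - 1) ≤ n * R ^ (n - 1) := by gcongr
    have h6 : (0 : ℝ) ≤ n * R ^ (n - 1) := by positivity
    calc (n : ℝ) * ‖z‖ ^ (n - 1) * (n.factorial : ℝ) ≤ n * R ^ (n - 1) * (n.factorial : ℝ) := by gcongr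
      _ = n * R ^ (n - 1) * 2 * ((n.factorial : ℝ) * (1 / 2)) := by ring
      _ ≤ n * R ^ (n - 1) * 2 * ((n.factorial : ℝ) * ‖poch D n‖) := by gcongr
  · rw [mem_ball_zero_iff]
    rw [hR]; linarith

lemma Reg_zero (D : ℕ) : Reg D 0 = 1 := by
  unfold Reg
  rw [tsum_eq_single 0]
  · simp [poch]
  · intro m hm
    simp [hm]

lemma Reg_rel (D : ℕ) (hD : 0 < D) (y : ℂ) :
    Reg D y = Reg (D + 2) y + 4 * y / (D * (D + 2)) * Reg (D + 4) y := by
  have hDc : (D : ℂ) ≠ 0 := by exact_mod_cast hD.ne'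
  have hD2c : ((D : ℂ) + 2) ≠ 0 := by
    have : ((D + 2 : ℕ) : ℂ) ≠ 0 := by exact_mod_cast (by omega : D + 2 ≠ 0)
    push_cast at this; exact this
  unfold Reg
  rw [(summ D hD y).tsum_eq_zero_add, (summ (D + 2) (by omega) y).tsum_eq_zero_add]
  have s1 := (summ (D + 2) (by omega) y)
  rw [← summable_nat_add_iff 1] at s1
  have s2 := (summ (D + 4) (by omega) y).mul_left (4 * y / (D * (D + 2)))
  rw [← tsum_mul_left]
  rw [show poch D 0 = 1 by simp [poch], show poch (D + 2) 0 = 1 by simp [poch]]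
  rw [add_assoc, ← s1.tsum_add s2]
  congr 1
  apply tsum_congr
  intro m
  have hf : (m.factorial : ℂ) ≠ 0 := by exact_mod_cast (Nat.factorial_ne_zero m)
  have hfs : ((m + 1).factorial : ℂ) = (m + 1) * (m.factorial : ℂ) := by
    rw [Nat.factorial_succ]; push_cast; ring
  have hn : (m + 1 : ℂ) ≠ 0 := by exact_mod_cast (Nat.succ_ne_zero m)
  have hp4 := poch_ne (D + 4) m (by omega)
  -- (a)_{m+1} , (a+1)_{m+1} = (a+1) (a+2)_m
  have e1 : poch (D + 2) (m + 1) = (((D : ℂ) + 2) / 2) * poch (D + 4) m := by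
    rw [poch_succ]; push_cast; ring
  have e2 : poch D (m + 1) = (D : ℂ) / 2 * poch (D + 2) m := poch_succ D m
  have e3 : poch (D + 2) (m + 1) = poch (D + 2) m * (((D : ℂ) + 2) / 2 + m) := by
    rw [poch_succ']; push_cast; ring
  have hp2 := poch_ne (D + 2) m (by omega)
  have hfac : (((D : ℂ) + 2) / 2 + m) ≠ 0 := by
    have := norm_factor (D + 2) m
    intro h
    have h' : (((D + 2 : ℕ) : ℂ) / 2 + m) = 0 := by push_cast; exact h
    rw [h', norm_zero] at this
    have : (0 : ℝ) < ((D + 2 : ℕ) : ℝ) / 2 + m := by positivity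
    linarith
  have e4 : poch (D + 4) m = poch (D + 2) m * (((D : ℂ) + 2) / 2 + m) * (2 / ((D : ℂ) + 2)) := by
    have : poch (D + 4) m = (2 / ((D : ℂ) + 2)) * poch (D + 2) (m + 1) := by
      rw [e1]; field_simp
    rw [this, e3]; ring
  rw [e2, e3, hfs, e4]
  have hfac' : ((D : ℂ) + 2 + 2 * m) ≠ 0 := by
    intro h
    apply hfac
    have : (((D : ℂ) + 2) / 2 + m) = ((D : ℂ) + 2 + 2 * m) / 2 := by ring
    rw [this, h]; simp
  have hfac'' : (((D : ℂ) + 2) / 2 + m) = ((D : ℂ) + 2 + 2 * m) / 2 := by ring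
  rw [hfac'']
  obtain ⟨W, hW⟩ : ∃ W, W = (D : ℂ) + 2 + 2 * m := ⟨_, rfl⟩
  rw [← hW] at hfac' ⊢
  field_simp
  rw [hW]
  ring

theorem p_REG : S_REG := by
  refine ⟨fun D hD => ⟨fun y => (hasDerivAt_Reg D hD y).differentiableAt, Reg_zero D⟩, ?_⟩
  intro D ν s hD
  have hDc : (D : ℂ) ≠ 0 := by exact_mod_cast hD.ne'
  have hD2c : ((D : ℂ) + 2) ≠ 0 := by
    have : ((D + 2 : ℕ) : ℂ) ≠ 0 := by exact_mod_cast (by omega : D + 2 ≠ 0)
    push_cast at this; exact this
  have hin : HasDerivAt (fun s : ℝ => ν * (s : ℂ) / 4) (ν / 4) s := by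
    have h1 : HasDerivAt (fun s : ℝ => (s : ℂ)) 1 s := Complex.ofRealCLM.hasDerivAt
    have := (h1.const_mul ν).div_const 4
    simpa using this
  refine ⟨?_, ?_, ?_⟩
  · have h := (hasDerivAt_Reg D hD (ν * s / 4)).comp s hin
    have e : Ig1 D ν s = 2 / D * Reg (D + 2) (ν * s / 4) * (ν / 4) := by
      unfold Ig1
      field_simp
      ring
    rw [e]
    exact h
  · have h := ((hasDerivAt_Reg (D + 2) (by omega) (ν * s / 4)).comp s hin).const_mul (ν / (2 * D))
    have e : Ig2 D ν s = ν / (2 * D) * (2 / ((D + 2 : ℕ) : ℂ) * Reg (D + 2 + 2) (ν * s / 4) * (ν / 4)) := by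
      unfold Ig2
      push_cast
      field_simp
    rw [e]
    exact h
  · unfold Ig Ig1 Ig2
    rw [Reg_rel D hD (ν * s / 4)]
    field_simp
    ring

end Pool.Agent.Run7.h998.LT.PREG
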