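import Pool.Agent.Run7.h998.LT.Stm

/-! The piece RIC: Riccati estimate in the absorbing region. -/

set_option autoImplicit false

open MeasureTheory Filter Topology Set
open scoped ENNReal NNReal

namespace Pool.Agent.Run7.h998.LT.PRIC

theorem sq_sq {w : ℂ} (hw : w ≠ 0) : sq w ^ 2 = w := by
  unfold sq
  rw [← Complex.exp_nat_mul]
  rw [show ((2 : ℕ) : ℂ) * (Complex.log w / 2) = Complex.log w by push_cast; ring]
  exact Complex.exp_log hw

theorem sq_ne {w : ℂ} : sq w ≠ 0 := Complex.exp_ne_zero _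

theorem sq_re_pos {w : ℂ} (hw : w ∈ Complex.slitPlane) : 0 < (sq w).re := by
  unfold sq
  rw [Complex.exp_re]
  refine mul_pos (Real.exp_pos _) ?_
  have h1 : (Complex.log w / 2).im = w.arg / 2 := by
    rw [show Complex.log w / 2 = ((1 / 2 : ℝ) : ℂ) * Complex.log w by push_cast; ring]
    rw [Complex.im_ofReal_mul, Complex.log_im]
    ring
  rw [h1]
  have h2 := Complex.neg_pi_lt_arg w
  have h3 := Complex.arg_le_pi w
  have h4 : w.arg ≠ Real.pi := (Complex.mem_slitPlane_iff_arg.mp hw).1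
  have h5 : w.arg < Real.pi := lt_of_le_of_ne h3 h4
  exact Real.cos_pos_of_mem_Ioo ⟨by linarith, by linarith⟩

theorem sq_deriv {w : ℝ → ℂ} {w1 : ℂ} {t : ℝ} (hw : HasDerivAt w w1 t)
    (hs : w t ∈ Complex.slitPlane) :
    HasDerivAt (fun s => sq (w s)) (sq (w t) * (w1 / w t / 2)) t := by
  unfold sq
  exact ((hw.clog_real hs).div_const 2).cexp

theorem core (ħ c K : ℝ) (h S q : ℝ → ℂ) (hħ : 0 < ħ) (hc : 0 < c)
    (hd : ∀ t ∈ Icc (0 : ℝ) (1 / 4),
      HasDerivAt h (2 * Complex.I * q t / ħ * h t + S t * (h t ^ 2 - 1)) t)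
    (hq : ∀ t ∈ Icc (0 : ℝ) (1 / 4), c ≤ (q t).im)
    (hS : ∀ t ∈ Icc (0 : ℝ) (1 / 4), ‖S t‖ ≤ K)
    (hh : ∀ t ∈ Icc (0 : ℝ) (1 / 4), ‖h t‖ ≤ 4) :
    ‖h (1 / 4)‖ ^ 2 ≤ ħ ^ 2 * (128 / c ^ 2 + 289 * K ^ 2 / (4 * c ^ 2)) := by
  set β : ℝ := 289 * K ^ 2 * ħ ^ 2 / (4 * c ^ 2) with hβ
  set a : ℝ := 2 * c / ħ with ha
  have hK : 0 ≤ K := (norm_nonneg _).trans (hS 0 ⟨le_rfl, by norm_num⟩)
  have hapos : 0 < a := by positivity
  have hβ0 : 0 ≤ β := by positivity
  let φ : ℝ → ℝ := fun t => ‖h t‖ ^ 2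
  let ψ : ℝ → ℝ := fun t => (φ t - β) * Real.exp (a * t)
  have hφd : ∀ t ∈ Icc (0 : ℝ) (1 / 4),
      HasDerivAt φ (2 * inner ℝ (h t) (2 * Complex.I * q t / ħ * h t + S t * (h t ^ 2 - 1))) t :=
    fun t ht => (hd t ht).norm_sq
  have hφle : ∀ t ∈ Icc (0 : ℝ) (1 / 4),
      2 * inner ℝ (h t) (2 * Complex.I * q t / ħ * h t + S t * (h t ^ 2 - 1)) ≤
        -a * (φ t - β) := by
    intro t ht
    rw [inner_add_right]
    have e1 : inner ℝ (h t) (2 * Complex.I * q t / ħ * h t) =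
        -(2 * (q t).im / ħ) * ‖h t‖ ^ 2 := by
      rw [Complex.inner]
      have : (2 * Complex.I * q t / ħ * h t) * (starRingEnd ℂ) (h t) =
          ((‖h t‖ ^ 2 / ħ : ℝ) : ℂ) * (2 * Complex.I * q t) := by
        rw [show (2 * Complex.I * q t / ħ * h t) * (starRingEnd ℂ) (h t) =
          (h t * (starRingEnd ℂ) (h t)) * (2 * Complex.I * q t / ħ) by ring, Complex.mul_conj,
          Complex.normSq_eq_norm_sq]
        push_cast
        ring
      rw [this, Complex.re_ofReal_mul]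
      simp
      ring
    have e2 : inner ℝ (h t) (S t * (h t ^ 2 - 1)) ≤ ‖h t‖ * (K * 17) := by
      refine (real_inner_le_norm _ _).trans ?_
      refine mul_le_mul_of_nonneg_left ?_ (norm_nonneg _)
      rw [norm_mul]
      refine mul_le_mul (hS t ht) ?_ (norm_nonneg _) hK
      refine (norm_sub_le _ _).trans ?_
      rw [norm_pow, norm_one]
      have := hh t ht
      have h0 := norm_nonneg (h t)
      nlinarith
    rw [e1]
    have e3 : (q t).im / ħ ≥ c / ħ := by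
      have := hq t ht
      exact div_le_div_of_nonneg_right this hħ.le
    have e4 : -(2 * (q t).im / ħ) * ‖h t‖ ^ 2 ≤ -(2 * c / ħ) * ‖h t‖ ^ 2 := by
      have : 0 ≤ ‖h t‖ ^ 2 := by positivity
      have e5 : 2 * (q t).im / ħ = 2 * ((q t).im / ħ) := by ring
      have e6 : 2 * c / ħ = 2 * (c / ħ) := by ring
      rw [e5, e6]
      nlinarith
    have e7 : 0 ≤ (2 * c * ‖h t‖ - 17 * K * ħ) ^ 2 / (2 * c * ħ) := by positivity
    have e8 : (2 * c * ‖h t‖ - 17 * K * ħ) ^ 2 / (2 * c * ħ) =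
        2 * c / ħ * ‖h t‖ ^ 2 - 34 * K * ‖h t‖ + a * β := by
      rw [ha, hβ]
      field_simp
      ring
    rw [e8] at e7
    show 2 * (-(2 * (q t).im / ħ) * ‖h t‖ ^ 2 + inner ℝ (h t) (S t * (h t ^ 2 - 1))) ≤
      -a * (‖h t‖ ^ 2 - β)
    have e9 : a = 2 * c / ħ := ha
    rw [← e9] at e4 e7
    nlinarith
  have hψd : ∀ t ∈ Icc (0 : ℝ) (1 / 4), HasDerivAt ψ
      (2 * inner ℝ (h t) (2 * Complex.I * q t / ħ * h t + S t * (h t ^ 2 - 1)) *
        Real.exp (a * t) + (φ t - β) * (Real.exp (a * t) * a)) t := by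
    intro t ht
    have h1 : HasDerivAt (fun t : ℝ => Real.exp (a * t)) (Real.exp (a * t) * a) t := by
      have := ((hasDerivAt_id t).const_mul a).exp
      simpa using this
    exact ((hφd t ht).sub_const β).mul h1
  have hanti : AntitoneOn ψ (Icc (0 : ℝ) (1 / 4)) := by
    refine antitoneOn_of_hasDerivWithinAt_nonpos (convex_Icc _ _)
      (fun t ht => (hψd t ht).continuousAt.continuousWithinAt)
      (fun t ht => (hψd t (interior_subset ht)).hasDerivWithinAt) ?_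
    intro t ht
    have h1 := hφle t (interior_subset ht)
    have h2 := Real.exp_pos (a * t)
    nlinarith
  have h1 : ψ (1 / 4) ≤ ψ 0 := hanti ⟨le_rfl, by norm_num⟩ ⟨by norm_num, le_rfl⟩ (by norm_num)
  have h2 : ψ 0 ≤ 16 := by
    show (‖h 0‖ ^ 2 - β) * Real.exp (a * 0) ≤ 16
    rw [mul_zero, Real.exp_zero, mul_one]
    have := hh 0 ⟨le_rfl, by norm_num⟩
    have h0 := norm_nonneg (h 0)
    nlinarith
  have h3 : (‖h (1 / 4)‖ ^ 2 - β) * Real.exp (a * (1 / 4)) ≤ 16 := h1.trans h2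
  have h4 : (c / (2 * ħ)) ^ 2 / 2 ≤ Real.exp (a * (1 / 4)) := by
    have h5 := Real.quadratic_le_exp_of_nonneg (x := c / (2 * ħ)) (by positivity)
    have h6 : a * (1 / 4) = c / (2 * ħ) := by rw [ha]; field_simp; norm_num
    rw [h6]
    have h7 : 0 ≤ c / (2 * ħ) := by positivity
    linarith
  have h5 : ‖h (1 / 4)‖ ^ 2 - β ≤ 128 * ħ ^ 2 / c ^ 2 := by
    by_cases hn : ‖h (1 / 4)‖ ^ 2 - β ≤ 0
    · exact hn.trans (by positivity)
    · push Not at hn
      have h6 : (‖h (1 / 4)‖ ^ 2 - β) * ((c / (2 * ħ)) ^ 2 / 2) ≤ 16 :=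
        (mul_le_mul_of_nonneg_left h4 hn.le).trans h3
      have h7 : (‖h (1 / 4)‖ ^ 2 - β) * ((c / (2 * ħ)) ^ 2 / 2) =
          (‖h (1 / 4)‖ ^ 2 - β) * c ^ 2 / (8 * ħ ^ 2) := by
        field_simp
        norm_num
      rw [h7, div_le_iff₀ (by positivity)] at h6
      rw [le_div_iff₀ (by positivity)]
      linarith
  have h6 : ħ ^ 2 * (128 / c ^ 2 + 289 * K ^ 2 / (4 * c ^ 2)) = 128 * ħ ^ 2 / c ^ 2 + β := by
    rw [hβ]
    field_simp
  rw [h6]
  linarith


theorem p_RIC : S_RIC := by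
  intro A
  set A' : ℝ := max A 1 with hA'
  have hA1 : 1 ≤ A' := le_max_right _ _
  set c : ℝ := 1 / (4 * Real.sqrt A') with hc
  have hsA : 0 < Real.sqrt A' := Real.sqrt_pos.mpr (by linarith)
  have hcpos : 0 < c := by positivity
  set K : ℝ := A' / 2 with hK
  have hKpos : 0 < K := by positivity
  set N : ℝ := Real.sqrt (128 / c ^ 2 + 289 * K ^ 2 / (4 * c ^ 2)) with hN
  have hNpos : 0 < N := Real.sqrt_pos.mpr (by positivity)
  refine ⟨4 * Real.sqrt A' * N, 1 / (2 * N), by positivity, ?_⟩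
  intro ħ w w1 u u1 hħ hħ0 H
  -- the square root
  have hwim : ∀ t ∈ Icc (0 : ℝ) (1 / 4), 1 / 2 ≤ (w t).im := fun t ht => (H t ht).2.2.2.2.2.1
  have hslit : ∀ t ∈ Icc (0 : ℝ) (1 / 4), w t ∈ Complex.slitPlane := by
    intro t ht
    rw [Complex.mem_slitPlane_iff]
    right
    have := hwim t ht
    linarith
  have hw0 : ∀ t ∈ Icc (0 : ℝ) (1 / 4), w t ≠ 0 := fun t ht =>
    Complex.slitPlane_ne_zero (hslit t ht)
  have hwn : ∀ t ∈ Icc (0 : ℝ) (1 / 4), 1 / 2 ≤ ‖w t‖ := fun t ht =>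
    (hwim t ht).trans (((le_abs_self _).trans (Complex.abs_im_le_norm _)))
  set q : ℝ → ℂ := fun t => sq (w t) with hqdef
  have hqq : ∀ t ∈ Icc (0 : ℝ) (1 / 4), q t ^ 2 = w t := fun t ht => sq_sq (hw0 t ht)
  have hqre : ∀ t ∈ Icc (0 : ℝ) (1 / 4), 0 < (q t).re := fun t ht => sq_re_pos (hslit t ht)
  have hqn : ∀ t ∈ Icc (0 : ℝ) (1 / 4), ‖q t‖ ≤ Real.sqrt A' := by
    intro t ht
    apply Real.le_sqrt_of_sq_le
    rw [← norm_pow, hqq t ht]
    exact ((H t ht).2.2.2.1).trans (le_max_left _ _)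
  have hqim : ∀ t ∈ Icc (0 : ℝ) (1 / 4), c ≤ (q t).im ∧ (q t).im ≤ (q t).re := by
    intro t ht
    have h1 := congrArg Complex.im (hqq t ht)
    have h2 := congrArg Complex.re (hqq t ht)
    rw [pow_two, Complex.mul_im] at h1
    rw [pow_two, Complex.mul_re] at h2
    have h3 := hwim t ht
    have h4 := (H t ht).2.2.2.2.2.2.1
    have h5 := hqre t ht
    have h6 : (q t).re ≤ Real.sqrt A' := ((le_abs_self _).trans (Complex.abs_re_le_norm _)).trans
      (hqn t ht)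
    have h7 : 0 < (q t).im := by
      by_contra hcon
      push Not at hcon
      nlinarith
    refine ⟨?_, ?_⟩
    · rw [hc, div_le_iff₀ (by positivity)]
      have h8 : (q t).im * (4 * Real.sqrt A') ≥ (q t).im * (4 * (q t).re) := by
        have : 4 * (q t).re ≤ 4 * Real.sqrt A' := by linarith
        exact mul_le_mul_of_nonneg_left this h7.le
      nlinarith
    · nlinarith
  have hm : ∀ t ∈ Icc (0 : ℝ) (1 / 4), u t ≠ 0 ∧ (u1 t / u t).im < 0 := by
    intro t ht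
    have h1 := (H t ht).2.2.2.2.2.2.2
    have hu : u t ≠ 0 := by
      rintro h0
      rw [h0] at h1
      simp at h1
    refine ⟨hu, ?_⟩
    have h2 : u1 t / u t = ((1 / ‖u t‖ ^ 2 : ℝ) : ℂ) * ((starRingEnd ℂ) (u t) * u1 t) := by
      have h3 : (u t) * (starRingEnd ℂ) (u t) = ((‖u t‖ ^ 2 : ℝ) : ℂ) := by
        rw [Complex.mul_conj, Complex.normSq_eq_norm_sq]
      have h4 : ((‖u t‖ ^ 2 : ℝ) : ℂ) ≠ 0 := by
        rw [← h3]
        exact mul_ne_zero hu ((map_ne_zero _).mpr hu)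
      push_cast at h3 h4 ⊢
      rw [div_eq_iff hu]
      have h5 : 1 / (‖u t‖ : ℂ) ^ 2 * ((starRingEnd ℂ) (u t) * u1 t) * u t =
          1 / (‖u t‖ : ℂ) ^ 2 * (u t * (starRingEnd ℂ) (u t)) * u1 t := by ring
      rw [h5, h3, one_div, inv_mul_cancel₀ h4, one_mul]
    rw [h2, Complex.im_ofReal_mul]
    have h5 : 0 < ‖u t‖ := norm_pos_iff.mpr hu
    exact mul_neg_of_pos_of_neg (by positivity) h1
  -- the quotient
  set m : ℝ → ℂ := fun t => u1 t / u t with hmdef
  have hden : ∀ t ∈ Icc (0 : ℝ) (1 / 4), (q t).re ≤ ‖ħ * m t - Complex.I * q t‖ := by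
    intro t ht
    have h1 := (hm t ht).2
    have h2 : (ħ * m t - Complex.I * q t).im = ħ * (m t).im - (q t).re := by
      rw [Complex.sub_im, Complex.im_ofReal_mul]
      simp
    have h3 := Complex.abs_im_le_norm (ħ * m t - Complex.I * q t)
    rw [h2] at h3
    have h4 : ħ * (m t).im < 0 := mul_neg_of_pos_of_neg hħ h1
    have h5 := neg_le_abs (ħ * (m t).im - (q t).re)
    linarith
  have hYn : ∀ t ∈ Icc (0 : ℝ) (1 / 4), ħ * m t - Complex.I * q t ≠ 0 := by
    intro t ht h0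
    have := hden t ht
    rw [h0, norm_zero] at this
    exact absurd (hqre t ht) (not_lt.mpr this)
  set h : ℝ → ℂ := fun t => (ħ * u1 t + Complex.I * q t * u t) / (ħ * u1 t - Complex.I * q t * u t)
    with hh
  have hYY : ∀ t ∈ Icc (0 : ℝ) (1 / 4), ħ * u1 t - Complex.I * q t * u t ≠ 0 := by
    intro t ht
    have h1 : ħ * u1 t - Complex.I * q t * u t = u t * (ħ * m t - Complex.I * q t) := by
      rw [hmdef]
      have := (hm t ht).1
      field_simp
    rw [h1]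
    exact mul_ne_zero (hm t ht).1 (hYn t ht)
  have hhm : ∀ t ∈ Icc (0 : ℝ) (1 / 4),
      h t = (ħ * m t + Complex.I * q t) / (ħ * m t - Complex.I * q t) := by
    intro t ht
    have h1 := hYY t ht
    have h2 := hYn t ht
    have hu := (hm t ht).1
    rw [hh]
    show _ / _ = _ / _
    rw [div_eq_div_iff h1 h2, hmdef]
    field_simp
  have hh4 : ∀ t ∈ Icc (0 : ℝ) (1 / 4), ‖h t‖ ≤ 4 := by
    intro t ht
    have h2 := hYn t ht
    have h3 : h t = 1 + 2 * Complex.I * q t / (ħ * m t - Complex.I * q t) := by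
      rw [hhm t ht]
      field_simp
      ring
    rw [h3]
    refine (norm_add_le _ _).trans ?_
    rw [norm_one, norm_div]
    have h4 : ‖2 * Complex.I * q t‖ = 2 * ‖q t‖ := by simp
    rw [h4]
    have h5 := hden t ht
    have h6 := hqre t ht
    have h7 : ‖q t‖ ≤ 3 / 2 * (q t).re := by
      have h8 := hqim t ht
      have h9 : ‖q t‖ ^ 2 = (q t).re ^ 2 + (q t).im ^ 2 := by
        rw [← Complex.normSq_eq_norm_sq, Complex.normSq_apply]
        ring
      refine abs_le_of_sq_le_sq' ?_ (by positivity) |>.2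
      rw [h9]
      nlinarith [hcpos]
    have h8 : 2 * ‖q t‖ / ‖ħ * m t - Complex.I * q t‖ ≤ 3 := by
      rw [div_le_iff₀ (by linarith)]
      nlinarith
    linarith
  have hderiv : ∀ t ∈ Icc (0 : ℝ) (1 / 4),
      HasDerivAt h (2 * Complex.I * q t / ħ * h t + (w1 t / w t / 4) * (h t ^ 2 - 1)) t := by
    intro t ht
    obtain ⟨dw, du, du1, -⟩ := H t ht
    have dq : HasDerivAt q (q t * (w1 t / w t / 2)) t := sq_deriv dw (hslit t ht)
    have dX : HasDerivAt (fun t => ħ * u1 t + Complex.I * q t * u t)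
        (ħ * (-(w t) / (ħ : ℂ) ^ 2 * u t) +
          (Complex.I * (q t * (w1 t / w t / 2)) * u t + Complex.I * q t * u1 t)) t :=
      (du1.const_mul _).add ((dq.const_mul _).mul du)
    have dY : HasDerivAt (fun t => ħ * u1 t - Complex.I * q t * u t)
        (ħ * (-(w t) / (ħ : ℂ) ^ 2 * u t) -
          (Complex.I * (q t * (w1 t / w t / 2)) * u t + Complex.I * q t * u1 t)) t :=
      (du1.const_mul _).sub ((dq.const_mul _).mul du)
    have dh := dX.div dY (hYY t ht)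
    refine dh.congr_deriv ?_
    have hY := hYY t ht
    have hw := hw0 t ht
    have hħc : (ħ : ℂ) ≠ 0 := by exact_mod_cast hħ.ne'
    have hq2 := hqq t ht
    show _ = 2 * Complex.I * q t / ħ * ((ħ * u1 t + Complex.I * q t * u t) /
      (ħ * u1 t - Complex.I * q t * u t)) + (w1 t / w t / 4) *
      (((ħ * u1 t + Complex.I * q t * u t) / (ħ * u1 t - Complex.I * q t * u t)) ^ 2 - 1)
    set X := ħ * u1 t + Complex.I * q t * u t with hX
    set Y := ħ * u1 t - Complex.I * q t * u t with hYd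
    have eX : ħ * (-(w t) / (ħ : ℂ) ^ 2 * u t) +
          (Complex.I * (q t * (w1 t / w t / 2)) * u t + Complex.I * q t * u1 t) =
          Complex.I * q t / ħ * X + w1 t / w t / 4 * (X - Y) := by
      rw [hX, hYd]
      have e1 : ħ * (-(w t) / (ħ : ℂ) ^ 2 * u t) = -(q t ^ 2) / ħ * u t := by
        rw [hq2]; field_simp
      rw [e1]
      have e2 : Complex.I * q t / ħ * (ħ * u1 t + Complex.I * q t * u t) =
        Complex.I * q t * u1 t + Complex.I ^ 2 * q t ^ 2 / ħ * u t := by field_simp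
      rw [e2, Complex.I_sq]
      ring
    have eY : ħ * (-(w t) / (ħ : ℂ) ^ 2 * u t) -
          (Complex.I * (q t * (w1 t / w t / 2)) * u t + Complex.I * q t * u1 t) =
          -(Complex.I * q t / ħ * Y) - w1 t / w t / 4 * (X - Y) := by
      rw [hX, hYd]
      have e1 : ħ * (-(w t) / (ħ : ℂ) ^ 2 * u t) = -(q t ^ 2) / ħ * u t := by
        rw [hq2]; field_simp
      rw [e1]
      have e2 : Complex.I * q t / ħ * (ħ * u1 t - Complex.I * q t * u t) =
        Complex.I * q t * u1 t - Complex.I ^ 2 * q t ^ 2 / ħ * u t := by field_simp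
      rw [e2, Complex.I_sq]
      ring
    rw [eX, eY]
    field_simp
    ring
  have hmain := core ħ c K h (fun t => w1 t / w t / 4) q hħ hcpos hderiv
    (fun t ht => (hqim t ht).1) (by
      intro t ht
      rw [norm_div, norm_div, hK]
      have h1 : ‖w1 t‖ ≤ A' := ((H t ht).2.2.2.2.1).trans (le_max_left _ _)
      have h2 := hwn t ht
      have h3 : ‖w1 t‖ / ‖w t‖ ≤ 2 * A' := by
        rw [div_le_iff₀ (by linarith)]
        nlinarith [norm_nonneg (w1 t)]
      have h4 : ‖(4 : ℂ)‖ = 4 := by simp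
      rw [h4]
      linarith) hh4
  have h14 : (1 / 4 : ℝ) ∈ Icc (0 : ℝ) (1 / 4) := ⟨by norm_num, le_rfl⟩
  have hN2 : N ^ 2 = 128 / c ^ 2 + 289 * K ^ 2 / (4 * c ^ 2) := Real.sq_sqrt (by positivity)
  rw [← hN2, ← mul_pow] at hmain
  have hle : ‖h (1 / 4)‖ ≤ ħ * N := abs_le_of_sq_le_sq' hmain (by positivity) |>.2
  have hhalf : ħ * N ≤ 1 / 2 := by
    have := mul_le_mul_of_nonneg_right hħ0.le hNpos.le
    calc ħ * N ≤ 1 / (2 * N) * N := this
      _ = 1 / 2 := by field_simp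
  have hkey : (ħ * m (1 / 4) + Complex.I * q (1 / 4)) * (1 - h (1 / 4)) =
      -(2 * Complex.I * q (1 / 4) * h (1 / 4)) := by
    rw [hhm _ h14]
    have := hYn _ h14
    field_simp
    ring
  have h1h : 1 / 2 ≤ ‖1 - h (1 / 4)‖ := by
    have := norm_sub_norm_le (1 : ℂ) (h (1 / 4))
    rw [norm_one] at this
    linarith
  have hfin : ‖ħ * m (1 / 4) + Complex.I * q (1 / 4)‖ * ‖1 - h (1 / 4)‖ =
      2 * ‖q (1 / 4)‖ * ‖h (1 / 4)‖ := by
    rw [← norm_mul, hkey]
    simp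
  show ‖ħ * m (1 / 4) + Complex.I * q (1 / 4)‖ ≤ 4 * Real.sqrt A' * N * ħ
  have hq4 := hqn _ h14
  have e1 : ‖ħ * m (1 / 4) + Complex.I * q (1 / 4)‖ * (1 / 2) ≤
      2 * ‖q (1 / 4)‖ * ‖h (1 / 4)‖ := by
    rw [← hfin]
    exact mul_le_mul_of_nonneg_left h1h (norm_nonneg _)
  have e2 : 2 * ‖q (1 / 4)‖ * ‖h (1 / 4)‖ ≤ 2 * Real.sqrt A' * (ħ * N) := by
    apply mul_le_mul (by linarith) hle (norm_nonneg _) (by positivity)
  nlinarith

end Pool.Agent.Run7.h998.LT.PRIC
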