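import Pool.Agent.Run7.h998.LT.Stm

set_option autoImplicit false

open MeasureTheory Filter Topology Set
open scoped ENNReal NNReal

namespace Pool.Agent.Run7.h998.LT.PROU

open Pool.Agent.Helper41.CE

lemma exp_sub_one_ge {x : ℂ} (hx : ‖x‖ = 1) : 28 / 100 ≤ ‖Complex.exp x - 1‖ := by
  have h1 := Complex.norm_exp_sub_sum_le_exp_norm_sub_sum x 2
  rw [hx] at h1
  simp only [Finset.sum_range_succ, Finset.sum_range_zero, pow_zero, pow_one, Nat.factorial, Nat.cast_one,
    div_one, zero_add, one_pow] at h1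
  have h2 := Real.exp_one_lt_d9
  have h3 : ‖x‖ ≤ ‖Complex.exp x - 1‖ + ‖Complex.exp x - (1 + x)‖ := by
    have : x = (Complex.exp x - 1) - (Complex.exp x - (1 + x)) := by ring
    calc ‖x‖ = ‖(Complex.exp x - 1) - (Complex.exp x - (1 + x))‖ := by rw [← this]
      _ ≤ _ := norm_sub_le _ _
  norm_num at h1
  linarith

theorem p_ROU : S_ROU := by
  intro f z₀ R hR hU hf
  by_contra hcon
  push Not at hcon
  obtain ⟨U, hUo, hUs, hfd⟩ := hU
  have hmem : ∀ η : ℂ, ‖η‖ ≤ 1 → z₀ + R * η ∈ Metric.closedBall z₀ R := by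
    intro η hη
    rw [Metric.mem_closedBall, dist_eq_norm]
    have : z₀ + R * η - z₀ = R * η := by ring
    rw [this, norm_mul, Complex.norm_real, Real.norm_eq_abs, abs_of_pos hR]
    nlinarith
  set F : ℂ → ℂ := fun η => f (z₀ + R * η) - 1 with hF
  have hF0 : ∀ η : ℂ, ‖η‖ ≤ 1 → F η ≠ 0 := by
    intro η hη h0
    exact hcon _ (hmem η hη) (sub_eq_zero.1 h0)
  have hFd : DifferentiableOn ℂ F (Metric.closedBall 0 1) := by
    intro η hη
    rw [mem_closedBall_zero_iff] at hη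
    have h1 : DifferentiableAt ℂ f (z₀ + R * η) :=
      (hfd _ (hUs (hmem η hη))).differentiableAt (hUo.mem_nhds (hUs (hmem η hη)))
    have h2 : DifferentiableAt ℂ (fun η : ℂ => z₀ + R * η) η := by fun_prop
    exact ((h1.comp η h2).sub_const 1).differentiableWithinAt
  have hgd : DiffContOnCl ℂ (fun η => (F η)⁻¹) (Metric.ball 0 1) := by
    apply DifferentiableOn.diffContOnCl
    rw [closure_ball (0 : ℂ) one_ne_zero]
    exact hFd.inv fun η hη => hF0 η (by rwa [mem_closedBall_zero_iff] at hη)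
  have hbd : ∀ η ∈ frontier (Metric.ball (0 : ℂ) 1), ‖(F η)⁻¹‖ ≤ 100 / 18 := by
    intro η hη
    rw [frontier_ball (0 : ℂ) one_ne_zero, mem_sphere_zero_iff_norm] at hη
    have h1 := hf η hη.le
    have h2 : ‖Complex.I * η‖ = 1 := by rw [norm_mul, Complex.norm_I, hη, one_mul]
    have h3 := exp_sub_one_ge h2
    have h4 : 18 / 100 ≤ ‖F η‖ := by
      have h5 : Complex.exp (Complex.I * η) - 1 = F η - (f (z₀ + R * η) - Complex.exp (Complex.I * η)) := by
        rw [hF]; ring
      rw [h5] at h3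
      have := norm_sub_le (F η) (f (z₀ + R * η) - Complex.exp (Complex.I * η))
      linarith
    rw [norm_inv]
    calc ‖F η‖⁻¹ ≤ (18 / 100)⁻¹ := inv_anti₀ (by norm_num) h4
      _ = 100 / 18 := by norm_num
  have hmax := Complex.norm_le_of_forall_mem_frontier_norm_le Metric.isBounded_ball hgd hbd
    (z := 0) (subset_closure (Metric.mem_ball_self one_pos))
  have h0 := hf 0 (by simp)
  have h1 : ‖F 0‖ ≤ 1 / 10 := by
    rw [hF]
    simpa using h0
  have h2 : 0 < ‖F 0‖ := norm_pos_iff.2 (hF0 0 (by simp))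
  rw [norm_inv] at hmax
  have h3 : (10 : ℝ) ≤ ‖F 0‖⁻¹ := by
    rw [le_inv_comm₀ (by norm_num) h2]
    linarith
  linarith

end Pool.Agent.Run7.h998.LT.PROU
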