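import Pool.Agent.Run7.h998.LT.Stm

set_option autoImplicit false

open MeasureTheory Filter Topology Set
open scoped ENNReal NNReal

namespace Pool.Agent.Run7.h998.LT.PSGN

open Pool.Agent.Helper41.CE

/-- `N(s) = s^(D/2) Im (conj g · g1)` -/
noncomputable def NN (D : ℕ) (g g1 : ℝ → ℂ) (s : ℝ) : ℝ :=
  s ^ ((D : ℝ) / 2) * (starRingEnd ℂ (g s) * g1 s).im

lemma NN_deriv {D : ℕ} {ν : ℂ} {g g1 : ℝ → ℂ} {s : ℝ} (hs : 0 < s)
    (hg : HasDerivAt g (g1 s) s) (hg1 : HasDerivAt g1 ((ν * g s - 2 * D * g1 s) / (4 * s)) s) :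
    HasDerivAt (NN D g g1) (s ^ ((D : ℝ) / 2) * (ν.im * Complex.normSq (g s) / (4 * s))) s := by
  have hs' : (s : ℂ) ≠ 0 := by exact_mod_cast hs.ne'
  have h1 : HasDerivAt (fun s => starRingEnd ℂ (g s) * g1 s)
      (starRingEnd ℂ (g1 s) * g1 s + starRingEnd ℂ (g s) * ((ν * g s - 2 * D * g1 s) / (4 * s))) s := by
    have h2 : HasDerivAt (fun s => starRingEnd ℂ (g s)) (starRingEnd ℂ (g1 s)) s := by
      simpa using hg.star
    exact h2.mul hg1
  have h3 : HasDerivAt (fun s => (starRingEnd ℂ (g s) * g1 s).im)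
      (starRingEnd ℂ (g1 s) * g1 s + starRingEnd ℂ (g s) * ((ν * g s - 2 * D * g1 s) / (4 * s))).im s := by
    exact (Complex.imCLM.hasFDerivAt (x := starRingEnd ℂ (g s) * g1 s)).comp_hasDerivAt s h1
  have h5 := Real.hasDerivAt_rpow_const (x := s) (p := (D : ℝ) / 2) (Or.inl hs.ne')
  have h6 := h5.mul h3
  refine h6.congr_deriv ?_
  rw [Real.rpow_sub_one hs.ne']
  have e1 : (starRingEnd ℂ (g1 s) * g1 s).im = 0 := by
    rw [← Complex.normSq_eq_conj_mul_self, Complex.ofReal_im]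
  have e2 : starRingEnd ℂ (g s) * ((ν * g s - 2 * D * g1 s) / (4 * s)) =
      ((1 / (4 * s) : ℝ) : ℂ) * (ν * ((Complex.normSq (g s) : ℝ) : ℂ)) -
        (((D : ℝ) / (2 * s) : ℝ) : ℂ) * (starRingEnd ℂ (g s) * g1 s) := by
    rw [Complex.normSq_eq_conj_mul_self]
    push_cast
    field_simp
    ring
  rw [Complex.add_im, e1, e2, Complex.sub_im, Complex.im_ofReal_mul, Complex.im_ofReal_mul,
    Complex.im_mul_ofReal]
  field_simp
  ring

theorem sgn1 (hREG : S_REG) (D : ℕ) (ν : ℂ) (s : ℝ) (hD : 1 ≤ D) (hν : ν.im ≠ 0) (hs : 0 < s) :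
    0 < ν.im * (starRingEnd ℂ (Ig D ν s) * Ig1 D ν s).im := by
  obtain ⟨hR1, hR2⟩ := hREG
  have hd : ∀ s : ℝ, HasDerivAt (Ig D ν) (Ig1 D ν s) s := fun s => (hR2 D ν s hD).1
  have hd1 : ∀ s : ℝ, HasDerivAt (Ig1 D ν) (Ig2 D ν s) s := fun s => (hR2 D ν s hD).2.1
  have hc : Continuous (Ig D ν) := continuous_iff_continuousAt.2 fun s => (hd s).continuousAt
  have hc1 : Continuous (Ig1 D ν) := continuous_iff_continuousAt.2 fun s => (hd1 s).continuousAt
  have hsol : ∀ s : ℝ, 0 < s → HasDerivAt (Ig1 D ν) ((ν * Ig D ν s - 2 * D * Ig1 D ν s) / (4 * s)) s := by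
    intro s hs
    have hs' : (s : ℂ) ≠ 0 := by exact_mod_cast hs.ne'
    refine (hd1 s).congr_deriv ?_
    have h := (hR2 D ν s hD).2.2
    rw [eq_div_iff (by simpa using hs')]
    linear_combination h
  have hNd : ∀ s : ℝ, 0 < s → HasDerivAt (fun s => ν.im * NN D (Ig D ν) (Ig1 D ν) s)
      (ν.im * (s ^ ((D : ℝ) / 2) * (ν.im * Complex.normSq (Ig D ν s) / (4 * s)))) s :=
    fun s hs => (NN_deriv hs (hd s) (hsol s hs)).const_mul _
  have hDp : 0 < (D : ℝ) / 2 := by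
    have : (1 : ℝ) ≤ D := by exact_mod_cast hD
    linarith
  have hNc : Continuous (fun s => ν.im * NN D (Ig D ν) (Ig1 D ν) s) := by
    unfold NN
    refine continuous_const.mul ((Real.continuous_rpow_const hDp.le).mul ?_)
    exact Complex.continuous_im.comp ((Complex.continuous_conj.comp hc).mul hc1)
  have hN0 : ν.im * NN D (Ig D ν) (Ig1 D ν) 0 = 0 := by
    unfold NN
    rw [Real.zero_rpow hDp.ne', zero_mul, mul_zero]
  have hnn : ∀ s : ℝ, 0 < s → 0 ≤ ν.im * (s ^ ((D : ℝ) / 2) * (ν.im * Complex.normSq (Ig D ν s) / (4 * s))) := by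
    intro s hs
    have h1 : ν.im * (s ^ ((D : ℝ) / 2) * (ν.im * Complex.normSq (Ig D ν s) / (4 * s))) =
        ν.im ^ 2 * (s ^ ((D : ℝ) / 2) * (Complex.normSq (Ig D ν s) / (4 * s))) := by ring
    rw [h1]
    have := Complex.normSq_nonneg (Ig D ν s)
    positivity
  -- a small interval where `Ig ≠ 0`
  have hI0 : Ig D ν 0 = 1 := by
    unfold Ig
    simp [(hR1 D hD).2]
  obtain ⟨δ, hδ, hδ2⟩ : ∃ δ > 0, ∀ t : ℝ, |t| < δ → Ig D ν t ≠ 0 := by
    have h1 : ∀ᶠ t in 𝓝 (0 : ℝ), Ig D ν t ≠ 0 := by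
      refine hc.continuousAt.eventually_ne ?_
      rw [hI0]; exact one_ne_zero
    obtain ⟨δ, hδ, h2⟩ := Metric.eventually_nhds_iff.1 h1
    refine ⟨δ, hδ, fun t ht => h2 ?_⟩
    rwa [Real.dist_eq, sub_zero]
  set η := min s (δ / 2) with hη
  have hη0 : 0 < η := lt_min hs (by linarith)
  have hηs : η ≤ s := min_le_left _ _
  have hηδ : η ≤ δ / 2 := min_le_right _ _
  have hpos : 0 < ν.im * NN D (Ig D ν) (Ig1 D ν) η := by
    have hmono : StrictMonoOn (fun s => ν.im * NN D (Ig D ν) (Ig1 D ν) s) (Icc 0 η) := by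
      refine strictMonoOn_of_deriv_pos (convex_Icc 0 η) hNc.continuousOn ?_
      intro t ht
      rw [interior_Icc] at ht
      rw [(hNd t ht.1).deriv]
      have h1 : ν.im * (t ^ ((D : ℝ) / 2) * (ν.im * Complex.normSq (Ig D ν t) / (4 * t))) =
          ν.im ^ 2 * (t ^ ((D : ℝ) / 2) * (Complex.normSq (Ig D ν t) / (4 * t))) := by ring
      rw [h1]
      have h2 : 0 < Complex.normSq (Ig D ν t) := by
        rw [Complex.normSq_pos]
        refine hδ2 t ?_
        rw [abs_of_pos ht.1]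
        linarith [ht.2]
      have h3 : 0 < ν.im ^ 2 := by positivity
      have h4 := ht.1
      positivity
    have := hmono (left_mem_Icc.2 hη0.le) (right_mem_Icc.2 hη0.le) hη0
    simp only [hN0] at this
    exact this
  have hge : ν.im * NN D (Ig D ν) (Ig1 D ν) η ≤ ν.im * NN D (Ig D ν) (Ig1 D ν) s := by
    have hmono : MonotoneOn (fun s => ν.im * NN D (Ig D ν) (Ig1 D ν) s) (Ici η) := by
      refine monotoneOn_of_deriv_nonneg (convex_Ici η) hNc.continuousOn ?_ ?_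
      · intro t ht
        rw [interior_Ici] at ht
        exact (hNd t (hη0.trans ht)).differentiableAt.differentiableWithinAt
      · intro t ht
        rw [interior_Ici] at ht
        rw [(hNd t (hη0.trans ht)).deriv]
        exact hnn t (hη0.trans ht)
    exact hmono (mem_Ici.2 le_rfl) (mem_Ici.2 hηs) hηs
  have hfin := hpos.trans_le hge
  unfold NN at hfin
  have h1 : ν.im * (s ^ ((D : ℝ) / 2) * (starRingEnd ℂ (Ig D ν s) * Ig1 D ν s).im) =
      s ^ ((D : ℝ) / 2) * (ν.im * (starRingEnd ℂ (Ig D ν s) * Ig1 D ν s).im) := by ring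
  rw [h1] at hfin
  have h2 : 0 < s ^ ((D : ℝ) / 2) := by positivity
  exact (mul_pos_iff_of_pos_left h2).1 hfin

theorem sgn2 (hDEC : S_DEC) (D : ℕ) (κ : ℂ) (s : ℝ) (hD : 4 ≤ D) (hκ : 0 < κ.re)
    (hκ2 : (κ ^ 2).im ≠ 0) (hs : 0 < s) :
    (κ ^ 2).im * (starRingEnd ℂ (Kg D κ s) * Kg1 D κ s).im < 0 := by
  obtain ⟨-, h2, h3, h4⟩ := hDEC
  have hsol := h2 D κ hD hκ
  obtain ⟨C, ρ, hρ, hdec⟩ := h3 D κ hD hκ
  have hnz := h4 D κ hD hκ
  set m := (κ ^ 2).im with hm
  set N : ℝ → ℝ := fun s => m * NN D (Kg D κ) (Kg1 D κ) s with hN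
  have hNd : ∀ s : ℝ, 0 < s → HasDerivAt N
      (m * (s ^ ((D : ℝ) / 2) * (m * Complex.normSq (Kg D κ s) / (4 * s)))) s :=
    fun s hs => (NN_deriv hs (hsol s hs).1 (hsol s hs).2).const_mul _
  have hnn : ∀ s : ℝ, 0 < s → 0 ≤ m * (s ^ ((D : ℝ) / 2) * (m * Complex.normSq (Kg D κ s) / (4 * s))) := by
    intro s hs
    have h1 : m * (s ^ ((D : ℝ) / 2) * (m * Complex.normSq (Kg D κ s) / (4 * s))) =
        m ^ 2 * (s ^ ((D : ℝ) / 2) * (Complex.normSq (Kg D κ s) / (4 * s))) := by ring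
    rw [h1]
    have := Complex.normSq_nonneg (Kg D κ s)
    positivity
  have hmono : MonotoneOn N (Ioi 0) := by
    refine monotoneOn_of_deriv_nonneg (convex_Ioi 0) ?_ ?_ ?_
    · intro t ht
      exact (hNd t ht).continuousAt.continuousWithinAt
    · intro t ht
      rw [interior_Ioi] at ht
      exact (hNd t ht).differentiableAt.differentiableWithinAt
    · intro t ht
      rw [interior_Ioi] at ht
      rw [(hNd t ht).deriv]
      exact hnn t ht
  -- limit at infinity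
  have hlim : Tendsto N atTop (𝓝 0) := by
    have hb : ∀ᶠ t in atTop, ‖N t‖ ≤ (|m| * C ^ 2) * ((Real.sqrt t) ^ (D : ℝ) * Real.exp (-(2 * ρ) * Real.sqrt t)) := by
      filter_upwards [eventually_ge_atTop (4 : ℝ)] with t ht
      have ht0 : 0 < t := by linarith
      obtain ⟨a1, a2⟩ := hdec t ht
      have b1 : |(starRingEnd ℂ (Kg D κ t) * Kg1 D κ t).im| ≤
          (C * Real.exp (-(ρ * Real.sqrt t))) * (C * Real.exp (-(ρ * Real.sqrt t))) := by
        refine (Complex.abs_im_le_norm _).trans ?_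
        rw [norm_mul, RCLike.norm_conj]
        exact mul_le_mul a1 a2 (norm_nonneg _) ((norm_nonneg _).trans a1)
      have b2 : (C * Real.exp (-(ρ * Real.sqrt t))) * (C * Real.exp (-(ρ * Real.sqrt t))) =
          C ^ 2 * Real.exp (-(2 * ρ) * Real.sqrt t) := by
        have : Real.exp (-(2 * ρ) * Real.sqrt t) = Real.exp (-(ρ * Real.sqrt t)) * Real.exp (-(ρ * Real.sqrt t)) := by
          rw [← Real.exp_add]; congr 1; ring
        rw [this]; ring
      rw [b2] at b1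
      have b3 : t ^ ((D : ℝ) / 2) = (Real.sqrt t) ^ (D : ℝ) := by
        rw [Real.sqrt_eq_rpow, ← Real.rpow_mul ht0.le]
        congr 1
        ring
      rw [hN]
      simp only [NN]
      rw [Real.norm_eq_abs, abs_mul, abs_mul, b3, abs_of_nonneg (Real.rpow_nonneg (Real.sqrt_nonneg _) _)]
      have b4 : 0 ≤ (Real.sqrt t) ^ (D : ℝ) := Real.rpow_nonneg (Real.sqrt_nonneg _) _
      calc |m| * ((Real.sqrt t) ^ (D : ℝ) * |(starRingEnd ℂ (Kg D κ t) * Kg1 D κ t).im|)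
          ≤ |m| * ((Real.sqrt t) ^ (D : ℝ) * (C ^ 2 * Real.exp (-(2 * ρ) * Real.sqrt t))) := by gcongr
        _ = _ := by ring
    have hb2 : Tendsto (fun t => (|m| * C ^ 2) * ((Real.sqrt t) ^ (D : ℝ) * Real.exp (-(2 * ρ) * Real.sqrt t)))
        atTop (𝓝 0) := by
      have := (tendsto_rpow_mul_exp_neg_mul_atTop_nhds_zero (D : ℝ) (2 * ρ) (by linarith)).comp
        Real.tendsto_sqrt_atTop
      simpa using this.const_mul (|m| * C ^ 2)
    exact squeeze_zero_norm' hb hb2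
  have hle : ∀ t : ℝ, 0 < t → N t ≤ 0 := by
    intro t ht
    refine ge_of_tendsto hlim ?_
    filter_upwards [eventually_ge_atTop t] with u hu
    exact hmono (mem_Ioi.2 ht) (mem_Ioi.2 (ht.trans_le hu)) hu
  have hlt : N s < 0 := by
    refine lt_of_le_of_ne (hle s hs) fun h0 => ?_
    have hzero : ∀ t, s ≤ t → N t = 0 := by
      intro t ht
      have := hmono (mem_Ioi.2 hs) (mem_Ioi.2 (hs.trans_le ht)) ht
      rw [h0] at this
      exact le_antisymm (hle t (hs.trans_le ht)) this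
    obtain ⟨t, ht, ht0, hne⟩ := hnz s
    have h5 := hNd t ht0
    have h6 : HasDerivAt N 0 t := by
      refine (hasDerivAt_const t (0 : ℝ)).congr_of_eventuallyEq ?_
      filter_upwards [lt_mem_nhds ht] with u hu
      exact hzero u hu.le
    have h7 := h5.unique h6
    have h8 : m * (t ^ ((D : ℝ) / 2) * (m * Complex.normSq (Kg D κ t) / (4 * t))) =
        m ^ 2 * (t ^ ((D : ℝ) / 2) * (Complex.normSq (Kg D κ t) / (4 * t))) := by ring
    rw [h8] at h7
    have h9 : 0 < Complex.normSq (Kg D κ t) := Complex.normSq_pos.2 hne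
    have h10 : 0 < m ^ 2 := by positivity
    have : 0 < m ^ 2 * (t ^ ((D : ℝ) / 2) * (Complex.normSq (Kg D κ t) / (4 * t))) := by positivity
    linarith
  rw [hN] at hlt
  simp only [NN] at hlt
  have h1 : m * (s ^ ((D : ℝ) / 2) * (starRingEnd ℂ (Kg D κ s) * Kg1 D κ s).im) =
      s ^ ((D : ℝ) / 2) * (m * (starRingEnd ℂ (Kg D κ s) * Kg1 D κ s).im) := by ring
  rw [h1] at hlt
  have h2 : 0 < s ^ ((D : ℝ) / 2) := by positivity
  by_contra hcon
  have := mul_nonneg h2.le (not_lt.1 hcon)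
  linarith

theorem p_SGN (hREG : S_REG) (hDEC : S_DEC) : S_SGN :=
  ⟨fun D ν s hD hν hs => sgn1 hREG D ν s hD hν hs,
    fun D κ s hD hκ hκ2 hs => sgn2 hDEC D κ s hD hκ hκ2 hs⟩

end Pool.Agent.Run7.h998.LT.PSGN
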