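import Pool.Agent.Run7.h998.LT.Stm

/-! The piece WKB: transfer through the annulus. -/

set_option autoImplicit false

open MeasureTheory Filter Topology Set
open scoped ENNReal NNReal

namespace Pool.Agent.Run7.h998.LT.PWKB

theorem sq_sq {w : ℂ} (hw : w ≠ 0) : sq w ^ 2 = w := by
  unfold sq
  rw [← Complex.exp_nat_mul]
  rw [show ((2 : ℕ) : ℂ) * (Complex.log w / 2) = Complex.log w by push_cast; ring]
  exact Complex.exp_log hw

theorem sq_ne {w : ℂ} : sq w ≠ 0 := Complex.exp_ne_zero _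

theorem sq_re_pos {w : ℂ} (hw : w ∈ Complex.slitPlane) : 0 < (sq w).re := by
  unfold sq
  rw [Complex.exp_re]
  refine mul_pos (Real.exp_pos _) ?_
  have h1 : (Complex.log w / 2).im = w.arg / 2 := by
    rw [show Complex.log w / 2 = ((1 / 2 : ℝ) : ℂ) * Complex.log w by push_cast; ring]
    rw [Complex.im_ofReal_mul, Complex.log_im]
    ring
  rw [h1]
  have h2 := Complex.neg_pi_lt_arg w
  have h3 := Complex.arg_le_pi w
  have h4 : w.arg ≠ Real.pi := (Complex.mem_slitPlane_iff_arg.mp hw).1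
  have h5 : w.arg < Real.pi := lt_of_le_of_ne h3 h4
  exact Real.cos_pos_of_mem_Ioo ⟨by linarith, by linarith⟩

theorem sq_deriv {w : ℝ → ℂ} {w1 : ℂ} {t : ℝ} (hw : HasDerivAt w w1 t)
    (hs : w t ∈ Complex.slitPlane) :
    HasDerivAt (fun s => sq (w s)) (sq (w t) * (w1 / w t / 2)) t := by
  unfold sq
  exact ((hw.clog_real hs).div_const 2).cexp

theorem le_of_sq_le_sq_aux {a b : ℝ} (h : a ^ 2 ≤ b ^ 2) (hb : 0 < b) : a ≤ b := by
  nlinarith [sq_nonneg (a + b), sq_nonneg (a - b)]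

/-- the estimate for the reduced system -/
theorem core (κ : ℝ) (x y S T T1 em ep : ℝ → ℂ) (hκ0 : 0 ≤ κ) (hκ : κ ≤ 1 / 30)
    (hx : ∀ t ∈ Icc (0 : ℝ) 1, HasDerivAt x (-(S t * em t * y t)) t)
    (hy : ∀ t ∈ Icc (0 : ℝ) 1, HasDerivAt y (-(S t * ep t * x t)) t)
    (hm : ∀ t ∈ Icc (0 : ℝ) 1, HasDerivAt (fun s => T s * em s) (T1 t * em t - S t * em t) t)
    (hp : ∀ t ∈ Icc (0 : ℝ) 1, HasDerivAt (fun s => T s * ep s) (T1 t * ep t + S t * ep t) t)
    (hmp : ∀ t ∈ Icc (0 : ℝ) 1, em t * ep t = 1)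
    (b1 : ∀ t ∈ Icc (0 : ℝ) 1, ‖T t * em t‖ ≤ κ) (b2 : ∀ t ∈ Icc (0 : ℝ) 1, ‖T t * ep t‖ ≤ κ)
    (b3 : ∀ t ∈ Icc (0 : ℝ) 1, ‖T1 t * em t‖ ≤ κ) (b4 : ∀ t ∈ Icc (0 : ℝ) 1, ‖T1 t * ep t‖ ≤ κ)
    (b5 : ∀ t ∈ Icc (0 : ℝ) 1, ‖T t * S t‖ ≤ κ) (h0 : ‖x 0‖ ≤ ‖y 0‖) (hy0 : y 0 ≠ 0) :
    y 1 ≠ 0 ∧ ‖x 1 / y 1 - x 0 / y 0‖ ≤ 60 * κ := by
  let X : ℝ → ℂ := fun t => x t - T t * em t * y t
  let Y : ℝ → ℂ := fun t => y t + T t * ep t * x t
  let z : ℝ → ℂ × ℂ := fun t => (X t, Y t)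
  let z' : ℝ → ℂ × ℂ := fun t =>
    (-(T1 t * em t * y t) + T t * S t * x t, T1 t * ep t * x t - T t * S t * y t)
  let M : ℝ → ℝ := fun t => max ‖x t‖ ‖y t‖
  have hMx : ∀ t, ‖x t‖ ≤ M t := fun t => le_max_left _ _
  have hMy : ∀ t, ‖y t‖ ≤ M t := fun t => le_max_right _ _
  have hM0 : ∀ t, 0 ≤ M t := fun t => (norm_nonneg _).trans (hMx t)
  have hdX : ∀ t ∈ Icc (0 : ℝ) 1, HasDerivAt X (-(T1 t * em t * y t) + T t * S t * x t) t := by
    intro t ht
    have h1 := (hx t ht).sub ((hm t ht).mul (hy t ht))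
    refine h1.congr_deriv ?_
    have e : T t * em t * -(S t * ep t * x t) = -(T t * S t * (em t * ep t) * x t) := by ring
    rw [e, hmp t ht]
    ring
  have hdY : ∀ t ∈ Icc (0 : ℝ) 1, HasDerivAt Y (T1 t * ep t * x t - T t * S t * y t) t := by
    intro t ht
    have h1 := (hy t ht).add ((hp t ht).mul (hx t ht))
    refine h1.congr_deriv ?_
    have e : T t * ep t * -(S t * em t * y t) = -(T t * S t * (em t * ep t) * y t) := by ring
    rw [e, hmp t ht]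
    ring
  have hdz : ∀ t ∈ Icc (0 : ℝ) 1, HasDerivAt z (z' t) t := fun t ht =>
    (hdX t ht).prodMk (hdY t ht)
  have hzz : ∀ t ∈ Icc (0 : ℝ) 1, ‖z' t‖ ≤ 2 * κ * M t := by
    intro t ht
    have hx' := hMx t
    have hy' := hMy t
    have e1 : ‖-(T1 t * em t * y t) + T t * S t * x t‖ ≤ 2 * κ * M t := by
      refine (norm_add_le _ _).trans ?_
      rw [norm_neg, norm_mul, norm_mul (T t * S t)]
      have := mul_le_mul (b3 t ht) hy' (norm_nonneg _) hκ0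
      have := mul_le_mul (b5 t ht) hx' (norm_nonneg _) hκ0
      linarith
    have e2 : ‖T1 t * ep t * x t - T t * S t * y t‖ ≤ 2 * κ * M t := by
      refine (norm_sub_le _ _).trans ?_
      rw [norm_mul, norm_mul (T t * S t)]
      have := mul_le_mul (b4 t ht) hx' (norm_nonneg _) hκ0
      have := mul_le_mul (b5 t ht) hy' (norm_nonneg _) hκ0
      linarith
    exact norm_prod_le_iff.mpr ⟨e1, e2⟩
  have hXx : ∀ t ∈ Icc (0 : ℝ) 1, ‖X t - x t‖ ≤ κ * M t := by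
    intro t ht
    have : X t - x t = -(T t * em t * y t) := by show x t - _ - _ = _; ring
    rw [this, norm_neg, norm_mul]
    exact mul_le_mul (b1 t ht) (hMy t) (norm_nonneg _) hκ0
  have hYy : ∀ t ∈ Icc (0 : ℝ) 1, ‖Y t - y t‖ ≤ κ * M t := by
    intro t ht
    have : Y t - y t = T t * ep t * x t := by show y t + _ - _ = _; ring
    rw [this, norm_mul]
    exact mul_le_mul (b2 t ht) (hMx t) (norm_nonneg _) hκ0
  have hMz : ∀ t ∈ Icc (0 : ℝ) 1, M t ≤ 2 * ‖z t‖ := by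
    intro t ht
    have h1 : ‖X t‖ ≤ ‖z t‖ := norm_fst_le (z t)
    have h2 : ‖Y t‖ ≤ ‖z t‖ := norm_snd_le (z t)
    have h3 : ‖x t‖ ≤ ‖X t‖ + κ * M t := by
      have := norm_sub_norm_le (x t) (X t)
      rw [norm_sub_rev (x t) (X t)] at this
      have := hXx t ht
      linarith
    have h4 : ‖y t‖ ≤ ‖Y t‖ + κ * M t := by
      have := norm_sub_norm_le (y t) (Y t)
      rw [norm_sub_rev (y t) (Y t)] at this
      have := hYy t ht
      linarith
    have h5 : M t ≤ ‖z t‖ + κ * M t := max_le (by linarith) (by linarith)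
    nlinarith [hM0 t]
  have hz0 : ‖z 0‖ ≤ 31 / 30 * ‖y 0‖ := by
    have h00 : (0 : ℝ) ∈ Icc (0 : ℝ) 1 := ⟨le_rfl, zero_le_one⟩
    have hM00 : M 0 = ‖y 0‖ := max_eq_right h0
    have h1 := hXx 0 h00
    have h2 := hYy 0 h00
    rw [hM00] at h1 h2
    have h3 := norm_sub_norm_le (X 0) (x 0)
    have h4 := norm_sub_norm_le (Y 0) (y 0)
    have h5 := norm_nonneg (y 0)
    refine norm_prod_le_iff.mpr ⟨?_, ?_⟩
    · show ‖X 0‖ ≤ _
      nlinarith
    · show ‖Y 0‖ ≤ _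
      nlinarith
  have hgron : ∀ t ∈ Icc (0 : ℝ) 1, ‖z t‖ ≤ 2 * ‖z 0‖ := by
    have hg := norm_le_gronwallBound_of_norm_deriv_right_le (f := z) (f' := z') (δ := ‖z 0‖)
      (K := 4 * κ) (ε := 0) (a := 0) (b := 1)
      (fun t ht => (hdz t ht).continuousAt.continuousWithinAt)
      (fun t ht => (hdz t (Ico_subset_Icc_self ht)).hasDerivWithinAt) le_rfl
      (by
        intro t ht
        have h1 := hzz t (Ico_subset_Icc_self ht)
        have h2 := hMz t (Ico_subset_Icc_self ht)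
        nlinarith)
    intro t ht
    have h1 := hg t ht
    rw [gronwallBound_ε0] at h1
    refine h1.trans ?_
    have h2 : Real.exp (4 * κ * (t - 0)) ≤ 2 := by
      have h3 : 4 * κ * (t - 0) ≤ 4 / 30 := by
        have := ht.2
        have := ht.1
        nlinarith
      have h4 : Real.exp (4 / 30) ≤ 2 := by
        have h5 := Real.exp_bound_div_one_sub_of_interval (x := 4 / 30) (by norm_num) (by norm_num)
        refine h5.trans ?_
        norm_num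
      exact (Real.exp_le_exp.mpr h3).trans h4
    have h3 := norm_nonneg (z 0)
    nlinarith
  have hMt : ∀ t ∈ Icc (0 : ℝ) 1, M t ≤ 5 * ‖y 0‖ := by
    intro t ht
    have h1 := hMz t ht
    have h2 := hgron t ht
    have h5 := norm_nonneg (y 0)
    nlinarith
  have hz10 : ‖z 1 - z 0‖ ≤ 10 * κ * ‖y 0‖ := by
    refine norm_image_sub_le_of_norm_deriv_le_segment_01' (f := z) (f' := z')
      (fun t ht => (hdz t ht).hasDerivWithinAt) ?_
    intro t ht
    have h1 := hzz t (Ico_subset_Icc_self ht)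
    have h2 := hMt t (Ico_subset_Icc_self ht)
    nlinarith
  have hx10 : ‖x 1 - x 0‖ ≤ 15 * κ * ‖y 0‖ + κ * ‖y 0‖ := by
    have h11 : (1 : ℝ) ∈ Icc (0 : ℝ) 1 := ⟨zero_le_one, le_rfl⟩
    have h00 : (0 : ℝ) ∈ Icc (0 : ℝ) 1 := ⟨le_rfl, zero_le_one⟩
    have hM00 : M 0 = ‖y 0‖ := max_eq_right h0
    have e : x 1 - x 0 = (X 1 - X 0) - (X 1 - x 1) + (X 0 - x 0) := by ring
    rw [e]
    have h1 : ‖X 1 - X 0‖ ≤ 10 * κ * ‖y 0‖ := (norm_fst_le (z 1 - z 0)).trans hz10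
    have h2 := hXx 1 h11
    have h3 := hXx 0 h00
    rw [hM00] at h3
    have h4 := hMt 1 h11
    have h5 := norm_add_le ((X 1 - X 0) - (X 1 - x 1)) (X 0 - x 0)
    have h6 := norm_sub_le (X 1 - X 0) (X 1 - x 1)
    nlinarith
  have hy10 : ‖y 1 - y 0‖ ≤ 15 * κ * ‖y 0‖ := by
    have h11 : (1 : ℝ) ∈ Icc (0 : ℝ) 1 := ⟨zero_le_one, le_rfl⟩
    have h00 : (0 : ℝ) ∈ Icc (0 : ℝ) 1 := ⟨le_rfl, zero_le_one⟩
    have hM00 : M 0 = ‖y 0‖ := max_eq_right h0
    have hYY1 : ‖Y 1 - y 1‖ ≤ κ * (19 / 5 * ‖y 0‖) := by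
      have e' : Y 1 - y 1 = T 1 * ep 1 * x 1 := by show y 1 + _ - _ = _; ring
      rw [e', norm_mul]
      refine mul_le_mul (b2 1 h11) ?_ (norm_nonneg _) hκ0
      have e2 : x 1 = (x 1 - x 0) + x 0 := by ring
      rw [e2]
      have h5 := norm_add_le (x 1 - x 0) (x 0)
      have h6 := norm_nonneg (y 0)
      nlinarith
    have e : y 1 - y 0 = (Y 1 - Y 0) - (Y 1 - y 1) + (Y 0 - y 0) := by ring
    rw [e]
    have h1 : ‖Y 1 - Y 0‖ ≤ 10 * κ * ‖y 0‖ := (norm_snd_le (z 1 - z 0)).trans hz10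
    have h3 := hYy 0 h00
    rw [hM00] at h3
    have h5 := norm_add_le ((Y 1 - Y 0) - (Y 1 - y 1)) (Y 0 - y 0)
    have h6 := norm_sub_le (Y 1 - Y 0) (Y 1 - y 1)
    have h7 := norm_nonneg (y 0)
    have h8 : 0 ≤ κ * ‖y 0‖ := mul_nonneg hκ0 h7
    nlinarith
  have hx10' : ‖x 1 - x 0‖ ≤ 15 * κ * ‖y 0‖ := by
    have h11 : (1 : ℝ) ∈ Icc (0 : ℝ) 1 := ⟨zero_le_one, le_rfl⟩
    have h00 : (0 : ℝ) ∈ Icc (0 : ℝ) 1 := ⟨le_rfl, zero_le_one⟩
    have hM00 : M 0 = ‖y 0‖ := max_eq_right h0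
    have hXX1 : ‖X 1 - x 1‖ ≤ κ * (19 / 5 * ‖y 0‖) := by
      have e' : X 1 - x 1 = -(T 1 * em 1 * y 1) := by show x 1 - _ - _ = _; ring
      rw [e', norm_neg, norm_mul]
      refine mul_le_mul (b1 1 h11) ?_ (norm_nonneg _) hκ0
      have e2 : y 1 = (y 1 - y 0) + y 0 := by ring
      rw [e2]
      have h5 := norm_add_le (y 1 - y 0) (y 0)
      have h6 := norm_nonneg (y 0)
      nlinarith
    have e : x 1 - x 0 = (X 1 - X 0) - (X 1 - x 1) + (X 0 - x 0) := by ring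
    rw [e]
    have h1 : ‖X 1 - X 0‖ ≤ 10 * κ * ‖y 0‖ := (norm_fst_le (z 1 - z 0)).trans hz10
    have h3 := hXx 0 h00
    rw [hM00] at h3
    have h5 := norm_add_le ((X 1 - X 0) - (X 1 - x 1)) (X 0 - x 0)
    have h6 := norm_sub_le (X 1 - X 0) (X 1 - x 1)
    have h7 := norm_nonneg (y 0)
    have h8 : 0 ≤ κ * ‖y 0‖ := mul_nonneg hκ0 h7
    nlinarith
  have hy0n : 0 < ‖y 0‖ := norm_pos_iff.mpr hy0
  have hy1n : ‖y 0‖ / 2 ≤ ‖y 1‖ := by
    have h1 := norm_sub_norm_le (y 0) (y 1)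
    rw [norm_sub_rev (y 0) (y 1)] at h1
    nlinarith
  have hy1 : y 1 ≠ 0 := by
    intro h
    rw [h, norm_zero] at hy1n
    linarith
  refine ⟨hy1, ?_⟩
  have e : x 1 / y 1 - x 0 / y 0 = ((x 1 - x 0) * y 0 - x 0 * (y 1 - y 0)) / (y 1 * y 0) := by
    field_simp
    ring
  rw [e, norm_div, norm_mul, div_le_iff₀ (by positivity)]
  refine (norm_sub_le _ _).trans ?_
  rw [norm_mul, norm_mul]
  have h1 : ‖x 1 - x 0‖ * ‖y 0‖ ≤ 15 * κ * ‖y 0‖ * ‖y 0‖ :=
    mul_le_mul_of_nonneg_right hx10' hy0n.le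
  have h2 : ‖x 0‖ * ‖y 1 - y 0‖ ≤ ‖y 0‖ * (15 * κ * ‖y 0‖) :=
    mul_le_mul h0 hy10 (norm_nonneg _) hy0n.le
  have h3 : 60 * κ * (‖y 0‖ / 2 * ‖y 0‖) ≤ 60 * κ * (‖y 1‖ * ‖y 0‖) := by
    apply mul_le_mul_of_nonneg_left _ (by positivity)
    exact mul_le_mul_of_nonneg_right hy1n hy0n.le
  nlinarith


/-- `S_WKB` with the extra hypothesis `0 < B`. -/
theorem main (A B : ℝ) (hB : 0 < B) :
    ∃ C ħ₀ : ℝ, 0 < ħ₀ ∧ ∀ (ħ : ℝ) (w w1 w2 u u1 : ℝ → ℂ), 0 < ħ → ħ < ħ₀ →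
    (∀ t ∈ Icc (0 : ℝ) 1, HasDerivAt w (w1 t) t ∧ HasDerivAt w1 (w2 t) t ∧
      HasDerivAt u (u1 t) t ∧ HasDerivAt u1 (-(w t) / (ħ : ℂ) ^ 2 * u t) t ∧
      ‖w t‖ ≤ A ∧ ‖w1 t‖ ≤ A ∧ ‖w2 t‖ ≤ A ∧ 1 ≤ B * (w t).re ∧ |(w t).im| ≤ A * ħ) →
    ħ * u1 0 - Complex.I * sq (w 0) * u 0 ≠ 0 →
    ‖ħ * u1 0 + Complex.I * sq (w 0) * u 0‖ ≤ ‖ħ * u1 0 - Complex.I * sq (w 0) * u 0‖ →
    ħ * u1 1 - Complex.I * sq (w 1) * u 1 ≠ 0 ∧
    ‖Complex.exp (-(2 * Complex.I / ħ * ∫ t in (0 : ℝ)..1, sq (w t))) *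
        ((ħ * u1 1 + Complex.I * sq (w 1) * u 1) / (ħ * u1 1 - Complex.I * sq (w 1) * u 1)) -
      (ħ * u1 0 + Complex.I * sq (w 0) * u 0) / (ħ * u1 0 - Complex.I * sq (w 0) * u 0)‖ ≤ C * ħ := by
  set A' : ℝ := max A 1 with hA'
  set B' : ℝ := max B 1 with hB'
  have hA1 : 1 ≤ A' := le_max_right _ _
  have hB1 : 1 ≤ B' := le_max_right _ _
  set R : ℝ := A' ^ 2 * B' ^ 3 with hR
  set E : ℝ := Real.exp (A' * B') with hE
  have hR1 : 1 ≤ R := by
    rw [hR]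
    exact one_le_mul_of_one_le_of_one_le (one_le_pow₀ hA1) (one_le_pow₀ hB1)
  have hE1 : 1 ≤ E := by
    rw [hE]
    exact Real.one_le_exp (by positivity)
  have hRE : 0 < R * E := by positivity
  refine ⟨60 * (R * E), 1 / (30 * (R * E)), by positivity, ?_⟩
  intro ħ w w1 w2 u u1 hħ hħ0 H hY0 hXY0
  have hħc : (ħ : ℂ) ≠ 0 := by exact_mod_cast hħ.ne'
  set κ : ℝ := R * E * ħ with hκ
  have hκ0 : 0 ≤ κ := by positivity
  have hκ30 : κ ≤ 1 / 30 := by
    have h1 := mul_le_mul_of_nonneg_left hħ0.le hRE.le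
    have h2 : R * E * (1 / (30 * (R * E))) = 1 / 30 := by field_simp
    rw [h2] at h1
    exact h1
  -- basic facts
  have hre : ∀ t ∈ Icc (0 : ℝ) 1, 1 / B' ≤ (w t).re := by
    intro t ht
    have h1 := (H t ht).2.2.2.2.2.2.2.1
    have h2 : 0 < (w t).re := by
      by_contra h
      push Not at h
      nlinarith
    rw [div_le_iff₀ (by positivity)]
    have h3 : B ≤ B' := le_max_left _ _
    nlinarith
  have hrepos : ∀ t ∈ Icc (0 : ℝ) 1, 0 < (w t).re := fun t ht =>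
    lt_of_lt_of_le (by positivity) (hre t ht)
  have hw0 : ∀ t ∈ Icc (0 : ℝ) 1, w t ≠ 0 := by
    intro t ht h
    have := hrepos t ht
    rw [h] at this
    simp at this
  have hslit : ∀ t ∈ Icc (0 : ℝ) 1, w t ∈ Complex.slitPlane := fun t ht =>
    Complex.mem_slitPlane_iff.mpr (Or.inl (hrepos t ht))
  have hnw : ∀ t ∈ Icc (0 : ℝ) 1, 1 / B' ≤ ‖w t‖ := fun t ht =>
    (hre t ht).trans (Complex.re_le_norm _)
  have hw1 : ∀ t ∈ Icc (0 : ℝ) 1, ‖w1 t‖ ≤ A' := fun t ht =>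
    ((H t ht).2.2.2.2.2.1).trans (le_max_left _ _)
  have hw2 : ∀ t ∈ Icc (0 : ℝ) 1, ‖w2 t‖ ≤ A' := fun t ht =>
    ((H t ht).2.2.2.2.2.2.1).trans (le_max_left _ _)
  have him : ∀ t ∈ Icc (0 : ℝ) 1, |(w t).im| ≤ A' * ħ := fun t ht =>
    ((H t ht).2.2.2.2.2.2.2.2).trans (mul_le_mul_of_nonneg_right (le_max_left _ _) hħ.le)
  let q : ℝ → ℂ := fun t => sq (w t)
  have hqq : ∀ t ∈ Icc (0 : ℝ) 1, q t ^ 2 = w t := fun t ht => sq_sq (hw0 t ht)
  have hq0 : ∀ t, q t ≠ 0 := fun t => sq_ne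
  have hqre : ∀ t ∈ Icc (0 : ℝ) 1, 1 / B' ≤ (q t).re := by
    intro t ht
    have h1 : 0 < (q t).re := sq_re_pos (hslit t ht)
    have h2 : (q t).re ^ 2 - (q t).im ^ 2 = (w t).re := by
      rw [← hqq t ht, pow_two (q t), Complex.mul_re]
      ring
    have h3 := hre t ht
    have h4 : (1 / B') ^ 2 ≤ (q t).re ^ 2 := by
      have h5 : (1 / B') ^ 2 ≤ 1 / B' := by
        have h6 : 1 / B' ≤ 1 := by
          rw [div_le_iff₀ (by positivity)]
          linarith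
        have h7 : 0 ≤ 1 / B' := by positivity
        nlinarith
      nlinarith [sq_nonneg (q t).im]
    exact le_of_sq_le_sq_aux h4 h1
  have hqn : ∀ t ∈ Icc (0 : ℝ) 1, 1 / B' ≤ ‖q t‖ := fun t ht =>
    (hqre t ht).trans (Complex.re_le_norm _)
  have hqim : ∀ t ∈ Icc (0 : ℝ) 1, |(q t).im| ≤ A' * B' * ħ / 2 := by
    intro t ht
    have h1 := hqre t ht
    have h2 : 2 * (q t).re * (q t).im = (w t).im := by
      rw [← hqq t ht, pow_two (q t), Complex.mul_im]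
      ring
    have h3 := him t ht
    rw [← h2, abs_mul, abs_of_nonneg (by have : (0 : ℝ) ≤ 1 / B' := by positivity
                                         linarith)] at h3
    have h4 : 2 * (1 / B') * |(q t).im| ≤ A' * ħ :=
      le_trans (mul_le_mul_of_nonneg_right (by linarith) (abs_nonneg _)) h3
    have h5 : |(q t).im| = B' / 2 * (2 * (1 / B') * |(q t).im|) := by field_simp
    rw [h5]
    have h6 := mul_le_mul_of_nonneg_left h4 (show 0 ≤ B' / 2 by positivity)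
    nlinarith
  have hqd : ∀ t ∈ Icc (0 : ℝ) 1, HasDerivAt q (q t * (w1 t / w t / 2)) t := fun t ht =>
    sq_deriv (H t ht).1 (hslit t ht)
  -- the phase
  let p : ℝ → ℝ := fun t => (projIcc (0 : ℝ) 1 zero_le_one t : ℝ)
  have hpc : Continuous p := continuous_subtype_val.comp continuous_projIcc
  have hpm : ∀ t, p t ∈ Icc (0 : ℝ) 1 := fun t => (projIcc (0 : ℝ) 1 zero_le_one t).2
  have hpe : ∀ t ∈ Icc (0 : ℝ) 1, p t = t := fun t ht => by
    show ((projIcc (0 : ℝ) 1 zero_le_one t : Icc (0 : ℝ) 1) : ℝ) = t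
    rw [projIcc_of_mem zero_le_one ht]
  have hqc : ContinuousOn q (Icc (0 : ℝ) 1) := fun t ht =>
    (hqd t ht).continuousAt.continuousWithinAt
  have hqpc : Continuous (fun t => q (p t)) := by
    have := hqc.comp_continuous hpc hpm
    exact this
  let θ : ℝ → ℂ := fun t => (1 / (ħ : ℂ)) * ∫ s in (0 : ℝ)..t, q (p s)
  have hθd : ∀ t ∈ Icc (0 : ℝ) 1, HasDerivAt θ (q t / ħ) t := by
    intro t ht
    have h1 := (hqpc.integral_hasStrictDerivAt 0 t).hasDerivAt.const_mul (1 / (ħ : ℂ))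
    refine h1.congr_deriv ?_
    rw [hpe t ht]
    ring
  have hθ0 : θ 0 = 0 := by
    show (1 / (ħ : ℂ)) * ∫ s in (0 : ℝ)..0, q (p s) = 0
    simp
  have hθ1 : θ 1 = (1 / (ħ : ℂ)) * ∫ t in (0 : ℝ)..1, sq (w t) := by
    show (1 / (ħ : ℂ)) * _ = _
    congr 1
    refine intervalIntegral.integral_congr ?_
    intro t ht
    rw [uIcc_of_le zero_le_one] at ht
    show q (p t) = _
    rw [hpe t ht]
  have hθim : ∀ t ∈ Icc (0 : ℝ) 1, |(θ t).im| ≤ A' * B' / 2 := by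
    intro t ht
    have hd : ∀ s ∈ Icc (0 : ℝ) t,
        HasDerivWithinAt (fun s => (θ s).im) ((q s / ħ).im) (Icc 0 t) s := by
      intro s hs
      have h1 := Complex.imCLM.hasFDerivAt.comp_hasDerivAt s (hθd s ⟨hs.1, hs.2.trans ht.2⟩)
      exact h1.hasDerivWithinAt
    have hb : ∀ s ∈ Ico (0 : ℝ) t, ‖(q s / ħ).im‖ ≤ A' * B' / 2 := by
      intro s hs
      have h1 := hqim s ⟨hs.1, hs.2.le.trans ht.2⟩
      rw [Complex.div_ofReal_im, Real.norm_eq_abs, abs_div, abs_of_pos hħ, div_le_iff₀ hħ]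
      linarith
    have h2 := norm_image_sub_le_of_norm_deriv_le_segment' hd hb t ⟨ht.1, le_rfl⟩
    have h3 : (θ t).im = (θ t).im - (θ 0).im := by rw [hθ0]; simp
    rw [h3, ← Real.norm_eq_abs]
    refine h2.trans ?_
    have h4 : 0 ≤ A' * B' / 2 := by positivity
    have := ht.2
    nlinarith
  let em : ℝ → ℂ := fun t => Complex.exp (-(2 * Complex.I * θ t))
  let ep : ℝ → ℂ := fun t => Complex.exp (2 * Complex.I * θ t)
  let e1 : ℝ → ℂ := fun t => Complex.exp (-(Complex.I * θ t))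
  let e2 : ℝ → ℂ := fun t => Complex.exp (Complex.I * θ t)
  let μ : ℝ → ℂ := fun t => Complex.exp (-(Complex.log (w t) / 4))
  let S : ℝ → ℂ := fun t => w1 t / w t / 4
  let X : ℝ → ℂ := fun t => ħ * u1 t + Complex.I * q t * u t
  let Y : ℝ → ℂ := fun t => ħ * u1 t - Complex.I * q t * u t
  have hem : ∀ t, e1 t = em t * e2 t := by
    intro t
    show Complex.exp _ = Complex.exp _ * Complex.exp _
    rw [← Complex.exp_add]
    congr 1
    ring
  have hep : ∀ t, e2 t = ep t * e1 t := by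
    intro t
    show Complex.exp _ = Complex.exp _ * Complex.exp _
    rw [← Complex.exp_add]
    congr 1
    ring
  have hmp : ∀ t, em t * ep t = 1 := by
    intro t
    show Complex.exp _ * Complex.exp _ = 1
    rw [← Complex.exp_add]
    rw [show -(2 * Complex.I * θ t) + 2 * Complex.I * θ t = 0 by ring, Complex.exp_zero]
  have hemn : ∀ t ∈ Icc (0 : ℝ) 1, ‖em t‖ ≤ E := by
    intro t ht
    show ‖Complex.exp _‖ ≤ _
    rw [Complex.norm_exp, hE]
    apply Real.exp_le_exp.mpr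
    have h1 := hθim t ht
    have h2 : (-(2 * Complex.I * θ t)).re = 2 * (θ t).im := by simp
    rw [h2]
    have h3 := le_abs_self (θ t).im
    linarith
  have hepn : ∀ t ∈ Icc (0 : ℝ) 1, ‖ep t‖ ≤ E := by
    intro t ht
    show ‖Complex.exp _‖ ≤ _
    rw [Complex.norm_exp, hE]
    apply Real.exp_le_exp.mpr
    have h1 := hθim t ht
    have h2 : (2 * Complex.I * θ t).re = -(2 * (θ t).im) := by simp
    rw [h2]
    have h3 := neg_abs_le (θ t).im
    linarith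
  have hXd : ∀ t ∈ Icc (0 : ℝ) 1,
      HasDerivAt X (Complex.I * q t / ħ * X t + S t * (X t - Y t)) t := by
    intro t ht
    obtain ⟨dw, -, du, du1, -⟩ := H t ht
    have dX : HasDerivAt X
        (ħ * (-(w t) / (ħ : ℂ) ^ 2 * u t) +
          (Complex.I * (q t * (w1 t / w t / 2)) * u t + Complex.I * q t * u1 t)) t :=
      (du1.const_mul _).add (((hqd t ht).const_mul _).mul du)
    refine dX.congr_deriv ?_
    show _ = Complex.I * q t / ħ * (ħ * u1 t + Complex.I * q t * u t) + w1 t / w t / 4 *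
      ((ħ * u1 t + Complex.I * q t * u t) - (ħ * u1 t - Complex.I * q t * u t))
    have e1 : ħ * (-(w t) / (ħ : ℂ) ^ 2 * u t) = -(q t ^ 2) / ħ * u t := by
      rw [hqq t ht]; field_simp
    rw [e1]
    have e2 : Complex.I * q t / ħ * (ħ * u1 t + Complex.I * q t * u t) =
      Complex.I * q t * u1 t + Complex.I ^ 2 * q t ^ 2 / ħ * u t := by field_simp
    rw [e2, Complex.I_sq]
    ring
  have hYd : ∀ t ∈ Icc (0 : ℝ) 1,
      HasDerivAt Y (-(Complex.I * q t / ħ * Y t) - S t * (X t - Y t)) t := by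
    intro t ht
    obtain ⟨dw, -, du, du1, -⟩ := H t ht
    have dY : HasDerivAt Y
        (ħ * (-(w t) / (ħ : ℂ) ^ 2 * u t) -
          (Complex.I * (q t * (w1 t / w t / 2)) * u t + Complex.I * q t * u1 t)) t :=
      (du1.const_mul _).sub (((hqd t ht).const_mul _).mul du)
    refine dY.congr_deriv ?_
    show _ = -(Complex.I * q t / ħ * (ħ * u1 t - Complex.I * q t * u t)) - w1 t / w t / 4 *
      ((ħ * u1 t + Complex.I * q t * u t) - (ħ * u1 t - Complex.I * q t * u t))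
    have e1 : ħ * (-(w t) / (ħ : ℂ) ^ 2 * u t) = -(q t ^ 2) / ħ * u t := by
      rw [hqq t ht]; field_simp
    rw [e1]
    have e2 : Complex.I * q t / ħ * (ħ * u1 t - Complex.I * q t * u t) =
      Complex.I * q t * u1 t - Complex.I ^ 2 * q t ^ 2 / ħ * u t := by field_simp
    rw [e2, Complex.I_sq]
    ring
  have hμd : ∀ t ∈ Icc (0 : ℝ) 1, HasDerivAt μ (-(S t) * μ t) t := by
    intro t ht
    have h1 := (((H t ht).1.clog_real (hslit t ht)).div_const 4).neg.cexp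
    refine h1.congr_deriv ?_
    show Complex.exp (-(Complex.log (w t) / 4)) * _ = -(w1 t / w t / 4) * Complex.exp _
    ring
  have he1d : ∀ t ∈ Icc (0 : ℝ) 1, HasDerivAt e1 (-(Complex.I * (q t / ħ)) * e1 t) t := by
    intro t ht
    have h1 := ((hθd t ht).const_mul Complex.I).neg.cexp
    refine h1.congr_deriv ?_
    show Complex.exp (-(Complex.I * θ t)) * _ = _ * Complex.exp (-(Complex.I * θ t))
    ring
  have he2d : ∀ t ∈ Icc (0 : ℝ) 1, HasDerivAt e2 ((Complex.I * (q t / ħ)) * e2 t) t := by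
    intro t ht
    have h1 := ((hθd t ht).const_mul Complex.I).cexp
    refine h1.congr_deriv ?_
    show Complex.exp _ * _ = _ * Complex.exp _
    ring
  have hemd : ∀ t ∈ Icc (0 : ℝ) 1, HasDerivAt em (-(2 * Complex.I * (q t / ħ)) * em t) t := by
    intro t ht
    have h1 := ((hθd t ht).const_mul (2 * Complex.I)).neg.cexp
    refine h1.congr_deriv ?_
    show Complex.exp (-(2 * Complex.I * θ t)) * _ = _ * Complex.exp (-(2 * Complex.I * θ t))
    ring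
  have hepd : ∀ t ∈ Icc (0 : ℝ) 1, HasDerivAt ep ((2 * Complex.I * (q t / ħ)) * ep t) t := by
    intro t ht
    have h1 := ((hθd t ht).const_mul (2 * Complex.I)).cexp
    refine h1.congr_deriv ?_
    show Complex.exp _ * _ = _ * Complex.exp _
    ring
  let x : ℝ → ℂ := fun t => μ t * e1 t * X t
  let y : ℝ → ℂ := fun t => μ t * e2 t * Y t
  let T : ℝ → ℂ := fun t => ħ / (8 * Complex.I) * (w1 t / w t / q t)
  let T1 : ℝ → ℂ := fun t =>
    ħ / (8 * Complex.I) * (w2 t / w t / q t - 3 / 2 * (w1 t / w t) ^ 2 / q t)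
  have hTd : ∀ t ∈ Icc (0 : ℝ) 1, HasDerivAt T (T1 t) t := by
    intro t ht
    obtain ⟨dw, dw1, -⟩ := H t ht
    have h1 := ((dw1.div dw (hw0 t ht)).div (hqd t ht) (hq0 t)).const_mul (ħ / (8 * Complex.I))
    refine h1.congr_deriv ?_
    show _ = ħ / (8 * Complex.I) * (w2 t / w t / q t - 3 / 2 * (w1 t / w t) ^ 2 / q t)
    congr 1
    rw [show (w1 / w) t = w1 t / w t from rfl]
    have a1 := hw0 t ht
    have a2 := hq0 t
    field_simp
    ring
  have hTS : ∀ t ∈ Icc (0 : ℝ) 1, 2 * Complex.I * (q t / ħ) * T t = S t := by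
    intro t ht
    show 2 * Complex.I * (q t / ħ) * (ħ / (8 * Complex.I) * (w1 t / w t / q t)) = w1 t / w t / 4
    have a1 := hw0 t ht
    have a2 := hq0 t
    have a3 := Complex.I_ne_zero
    field_simp
    ring
  have hinvw : ∀ t ∈ Icc (0 : ℝ) 1, ‖w t‖⁻¹ ≤ B' := by
    intro t ht
    have h1 := hnw t ht
    rw [inv_le_comm₀ (lt_of_lt_of_le (by positivity) h1) (by positivity), ← one_div]
    exact h1
  have hinvq : ∀ t ∈ Icc (0 : ℝ) 1, ‖q t‖⁻¹ ≤ B' := by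
    intro t ht
    have h1 := hqn t ht
    rw [inv_le_comm₀ (lt_of_lt_of_le (by positivity) h1) (by positivity), ← one_div]
    exact h1
  have hn1 : ∀ t ∈ Icc (0 : ℝ) 1, ‖w1 t / w t‖ ≤ A' * B' := by
    intro t ht
    rw [norm_div, div_eq_mul_inv]
    exact mul_le_mul (hw1 t ht) (hinvw t ht) (by positivity) (by positivity)
  have hn2 : ∀ t ∈ Icc (0 : ℝ) 1, ‖w2 t / w t‖ ≤ A' * B' := by
    intro t ht
    rw [norm_div, div_eq_mul_inv]
    exact mul_le_mul (hw2 t ht) (hinvw t ht) (by positivity) (by positivity)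
  have hc8 : ‖(ħ : ℂ) / (8 * Complex.I)‖ = ħ / 8 := by
    rw [norm_div, norm_mul, Complex.norm_I, Complex.norm_real, Real.norm_eq_abs, abs_of_pos hħ]
    simp
  have hTn : ∀ t ∈ Icc (0 : ℝ) 1, ‖T t‖ ≤ R * ħ := by
    intro t ht
    show ‖(ħ : ℂ) / (8 * Complex.I) * (w1 t / w t / q t)‖ ≤ _
    rw [norm_mul, hc8, norm_div, div_eq_mul_inv ‖w1 t / w t‖]
    have h1 : ‖w1 t / w t‖ * ‖q t‖⁻¹ ≤ A' * B' * B' :=
      mul_le_mul (hn1 t ht) (hinvq t ht) (by positivity) (by positivity)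
    have h2 : A' * B' * B' ≤ R := by
      rw [hR]
      have : A' ^ 2 * B' ^ 3 = (A' * B' * B') * (A' * B') := by ring
      rw [this]
      have h3 : 1 ≤ A' * B' := one_le_mul_of_one_le_of_one_le hA1 hB1
      have h4 : 0 ≤ A' * B' * B' := by positivity
      nlinarith
    have h3 : 0 ≤ ‖w1 t / w t‖ * ‖q t‖⁻¹ := by positivity
    nlinarith
  have hT1n : ∀ t ∈ Icc (0 : ℝ) 1, ‖T1 t‖ ≤ R * ħ := by
    intro t ht
    show ‖(ħ : ℂ) / (8 * Complex.I) *
      (w2 t / w t / q t - 3 / 2 * (w1 t / w t) ^ 2 / q t)‖ ≤ _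
    rw [norm_mul, hc8]
    have h1 : ‖w2 t / w t / q t‖ ≤ A' * B' * B' := by
      rw [norm_div, div_eq_mul_inv ‖w2 t / w t‖]
      exact mul_le_mul (hn2 t ht) (hinvq t ht) (by positivity) (by positivity)
    have h2 : ‖3 / 2 * (w1 t / w t) ^ 2 / q t‖ ≤ 3 / 2 * (A' * B') ^ 2 * B' := by
      rw [norm_div, div_eq_mul_inv ‖3 / 2 * (w1 t / w t) ^ 2‖, norm_mul, norm_pow]
      have h3 : ‖(3 / 2 : ℂ)‖ = 3 / 2 := by norm_num
      rw [h3]
      refine mul_le_mul ?_ (hinvq t ht) (by positivity) (by positivity)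
      refine mul_le_mul_of_nonneg_left ?_ (by norm_num)
      exact pow_le_pow_left₀ (norm_nonneg _) (hn1 t ht) 2
    have h2' : A' * B' * B' ≤ R := by
      rw [hR]
      have : A' ^ 2 * B' ^ 3 = (A' * B' * B') * (A' * B') := by ring
      rw [this]
      have h3 : 1 ≤ A' * B' := one_le_mul_of_one_le_of_one_le hA1 hB1
      have h4 : 0 ≤ A' * B' * B' := by positivity
      nlinarith
    have h3' : 3 / 2 * (A' * B') ^ 2 * B' = 3 / 2 * R := by rw [hR]; ring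
    rw [h3'] at h2
    have h4 := norm_sub_le (w2 t / w t / q t) (3 / 2 * (w1 t / w t) ^ 2 / q t)
    have h5 : ‖w2 t / w t / q t - 3 / 2 * (w1 t / w t) ^ 2 / q t‖ ≤ 8 * R := by linarith
    nlinarith
  have hSn : ∀ t ∈ Icc (0 : ℝ) 1, ‖S t‖ ≤ A' * B' := by
    intro t ht
    show ‖w1 t / w t / 4‖ ≤ _
    rw [norm_div]
    have h1 := hn1 t ht
    have h4 : ‖(4 : ℂ)‖ = 4 := by simp
    rw [h4]
    have := norm_nonneg (w1 t / w t)
    linarith
  have hTSn : ∀ t ∈ Icc (0 : ℝ) 1, ‖T t * S t‖ ≤ R * ħ := by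
    intro t ht
    show ‖(ħ : ℂ) / (8 * Complex.I) * (w1 t / w t / q t) * S t‖ ≤ _
    rw [norm_mul, norm_mul, hc8, norm_div, div_eq_mul_inv ‖w1 t / w t‖]
    have h1 : ‖w1 t / w t‖ * ‖q t‖⁻¹ * ‖S t‖ ≤ A' * B' * B' * (A' * B') :=
      mul_le_mul (mul_le_mul (hn1 t ht) (hinvq t ht) (by positivity) (by positivity)) (hSn t ht)
        (norm_nonneg _) (by positivity)
    have h2 : A' * B' * B' * (A' * B') = R := by rw [hR]; ring
    rw [h2] at h1
    have h3 : ħ / 8 * (‖w1 t / w t‖ * ‖q t‖⁻¹) * ‖S t‖ =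
      ħ / 8 * (‖w1 t / w t‖ * ‖q t‖⁻¹ * ‖S t‖) := by ring
    rw [h3]
    have h4 : 0 ≤ ‖w1 t / w t‖ * ‖q t‖⁻¹ * ‖S t‖ := by positivity
    nlinarith
  have hprod : ∀ a b : ℂ, ‖a‖ ≤ R * ħ → ‖b‖ ≤ E → ‖a * b‖ ≤ κ := by
    intro a b ha hb
    rw [norm_mul]
    have := mul_le_mul ha hb (norm_nonneg _) (by positivity)
    rw [hκ]
    linarith
  have h00 : (0 : ℝ) ∈ Icc (0 : ℝ) 1 := ⟨le_rfl, zero_le_one⟩
  have h11 : (1 : ℝ) ∈ Icc (0 : ℝ) 1 := ⟨zero_le_one, le_rfl⟩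
  have he10 : e1 0 = 1 := by
    show Complex.exp (-(Complex.I * θ 0)) = 1
    rw [hθ0]
    simp
  have he20 : e2 0 = 1 := by
    show Complex.exp (Complex.I * θ 0) = 1
    rw [hθ0]
    simp
  have hμ0 : ∀ t, μ t ≠ 0 := fun t => Complex.exp_ne_zero _
  have he20' : ∀ t, e2 t ≠ 0 := fun t => Complex.exp_ne_zero _
  have hx0 : x 0 = μ 0 * X 0 := by
    show μ 0 * e1 0 * X 0 = _
    rw [he10, mul_one]
  have hy0 : y 0 = μ 0 * Y 0 := by
    show μ 0 * e2 0 * Y 0 = _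
    rw [he20, mul_one]
  have hmain := core κ x y S T T1 em ep hκ0 hκ30
    (by
      intro t ht
      refine (((hμd t ht).mul (he1d t ht)).mul (hXd t ht)).congr_deriv ?_
      show (-(S t) * μ t * e1 t + μ t * (-(Complex.I * (q t / ħ)) * e1 t)) * X t +
        μ t * e1 t * (Complex.I * q t / ħ * X t + S t * (X t - Y t)) =
        -(S t * em t * (μ t * e2 t * Y t))
      rw [hem t]
      ring)
    (by
      intro t ht
      refine (((hμd t ht).mul (he2d t ht)).mul (hYd t ht)).congr_deriv ?_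
      show (-(S t) * μ t * e2 t + μ t * ((Complex.I * (q t / ħ)) * e2 t)) * Y t +
        μ t * e2 t * (-(Complex.I * q t / ħ * Y t) - S t * (X t - Y t)) =
        -(S t * ep t * (μ t * e1 t * X t))
      rw [hep t]
      ring)
    (by
      intro t ht
      refine ((hTd t ht).mul (hemd t ht)).congr_deriv ?_
      rw [← hTS t ht]
      ring)
    (by
      intro t ht
      refine ((hTd t ht).mul (hepd t ht)).congr_deriv ?_
      rw [← hTS t ht]
      ring)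
    (fun t _ => hmp t)
    (fun t ht => hprod _ _ (hTn t ht) (hemn t ht))
    (fun t ht => hprod _ _ (hTn t ht) (hepn t ht))
    (fun t ht => hprod _ _ (hT1n t ht) (hemn t ht))
    (fun t ht => hprod _ _ (hT1n t ht) (hepn t ht))
    (by
      intro t ht
      refine (hTSn t ht).trans ?_
      rw [hκ]
      have : 0 ≤ R * ħ := by positivity
      nlinarith)
    (by
      rw [hx0, hy0, norm_mul, norm_mul]
      exact mul_le_mul_of_nonneg_left hXY0 (norm_nonneg _))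
    (by
      rw [hy0]
      exact mul_ne_zero (hμ0 0) hY0)
  obtain ⟨hy1, hfin⟩ := hmain
  have hY1 : Y 1 ≠ 0 := by
    intro h
    apply hy1
    show μ 1 * e2 1 * Y 1 = 0
    rw [h, mul_zero]
  refine ⟨hY1, ?_⟩
  have hr0 : x 0 / y 0 = X 0 / Y 0 := by
    rw [hx0, hy0, mul_div_mul_left _ _ (hμ0 0)]
  have hr1 : x 1 / y 1 = em 1 * (X 1 / Y 1) := by
    show μ 1 * e1 1 * X 1 / (μ 1 * e2 1 * Y 1) = _
    rw [hem 1]
    have a1 := hμ0 1
    have a2 := he20' 1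
    field_simp
  have hem1 : em 1 = Complex.exp (-(2 * Complex.I / ħ * ∫ t in (0 : ℝ)..1, sq (w t))) := by
    show Complex.exp (-(2 * Complex.I * θ 1)) = _
    rw [hθ1]
    congr 1
    ring
  rw [hr0, hr1, hem1] at hfin
  refine hfin.trans (le_of_eq ?_)
  rw [hκ]
  ring

theorem p_WKB : S_WKB := fun A B hB => main A B hB

end Pool.Agent.Run7.h998.LT.PWKB
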