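import Pool.Agent.Run7.h998.LT.Stm

/-!
# MP_c84763_mp, piece ZERO: the quantisation condition has a solution
-/

set_option autoImplicit false

open MeasureTheory Filter Topology Set
open scoped ENNReal NNReal

namespace Pool.Agent.Run7.h998.LT

namespace ZEROp

lemma sq_sq {w : ℂ} (hw : w ≠ 0) : sq w ^ 2 = w := by
  unfold sq
  rw [← Complex.exp_nat_mul, show ((2 : ℕ) : ℂ) * (Complex.log w / 2) = Complex.log w by
    push_cast; ring]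
  exact Complex.exp_log hw

lemma sq_re_pos {w : ℂ} (hw : 0 < w.re) : 0 < (sq w).re := by
  unfold sq
  rw [Complex.exp_re]
  refine mul_pos (Real.exp_pos _) (Real.cos_pos_of_mem_Ioo ?_)
  have h1 : (Complex.log w / 2).im = w.arg / 2 := by
    rw [show Complex.log w / 2 = (Complex.log w) / ((2 : ℝ) : ℂ) by norm_num,
      Complex.div_ofReal_im, Complex.log_im]
  have h2 := abs_le.1 (Complex.abs_arg_le_pi_div_two_iff.2 hw.le)
  have h3 := Real.pi_pos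
  rw [h1]
  constructor <;> linarith [h2.1, h2.2]

lemma ne_of_re {w : ℂ} (hw : 0 < w.re) : w ≠ 0 := by
  rintro rfl
  simp at hw

lemma sq_re {w : ℂ} (hw : 0 < w.re) : w.re ≤ (sq w).re ^ 2 := by
  have h1 : ((sq w) ^ 2).re = w.re := by rw [sq_sq (ne_of_re hw)]
  have h2 : ((sq w) ^ 2).re = (sq w).re ^ 2 - (sq w).im ^ 2 := by
    rw [pow_two, Complex.mul_re]; ring
  nlinarith [sq_nonneg (sq w).im]

lemma half_le {w : ℂ} (hw : 1 / 4 ≤ w.re) : 1 / 2 ≤ (sq w).re := by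
  have h1 := sq_re (w := w) (by linarith)
  have h2 := sq_re_pos (w := w) (by linarith)
  by_contra h
  push Not at h
  nlinarith

lemma one_le_add {w w' : ℂ} (hw : 1 / 4 ≤ w.re) (hw' : 1 / 4 ≤ w'.re) :
    1 ≤ ‖sq w + sq w'‖ := by
  have h1 := half_le hw
  have h2 := half_le hw'
  calc (1 : ℝ) ≤ (sq w + sq w').re := by rw [Complex.add_re]; linarith
    _ ≤ ‖sq w + sq w'‖ := Complex.re_le_norm _

lemma sq_lip {w w' : ℂ} (hw : 1 / 4 ≤ w.re) (hw' : 1 / 4 ≤ w'.re) :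
    ‖sq w - sq w'‖ ≤ ‖w - w'‖ := by
  have h1 := one_le_add hw hw'
  have h2 : (sq w - sq w') * (sq w + sq w') = w - w' := by
    have e1 := sq_sq (w := w) (ne_of_re (by linarith))
    have e2 := sq_sq (w := w') (ne_of_re (by linarith))
    calc (sq w - sq w') * (sq w + sq w') = sq w ^ 2 - sq w' ^ 2 := by ring
      _ = w - w' := by rw [e1, e2]
  rw [← h2, norm_mul]
  nlinarith [norm_nonneg (sq w - sq w')]

lemma sq_diff {w : ℂ} (hw : 0 < w.re) : DifferentiableAt ℂ sq w := by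
  have h1 : w ∈ Complex.slitPlane := Or.inl hw
  have h2 : DifferentiableAt ℂ (fun w => Complex.exp (Complex.log w / 2)) w :=
    ((Complex.differentiableAt_log h1).div_const 2).cexp
  exact h2

lemma sq_norm {w : ℂ} (hw : w ≠ 0) : ‖sq w‖ ^ 2 = ‖w‖ := by
  rw [← norm_pow, sq_sq hw]

/-- the reflection coefficient -/
noncomputable def rho (b : ℝ) (r : ℝ) (z : ℂ) : ℂ :=
  Complex.I / (pp b (z + Complex.I) r + pp b z r) ^ 2

lemma arg_re {Λ b : ℝ} (hΛ : 2 ≤ Λ) (hb : b ≤ Λ / 32) (hb0 : 0 ≤ b) {r : ℝ} (hr : 1 ≤ r) {z : ℂ}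
    (hz : Λ / 4 ≤ z.re) : 1 / 4 ≤ (z - ((b / r ^ 2 : ℝ) : ℂ)).re ∧
      1 / 4 ≤ (z + Complex.I - ((b / r ^ 2 : ℝ) : ℂ)).re ∧ b / r ^ 2 ≤ Λ / 32 ∧ 0 ≤ b / r ^ 2 := by
  have h1 : b / r ^ 2 ≤ b := div_le_self hb0 (by nlinarith)
  have h2 : 0 ≤ b / r ^ 2 := by positivity
  simp only [Complex.sub_re, Complex.add_re, Complex.ofReal_re, Complex.I_re]
  refine ⟨by linarith, by linarith, by linarith, h2⟩

lemma pp_sq {Λ b : ℝ} (hΛ : 2 ≤ Λ) (hb : b ≤ Λ / 32) (hb0 : 0 ≤ b) {r : ℝ} (hr : 1 ≤ r) {z : ℂ}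
    (hz : Λ / 4 ≤ z.re) : pp b (z + Complex.I) r ^ 2 - pp b z r ^ 2 = Complex.I := by
  obtain ⟨h1, h2, -, -⟩ := arg_re hΛ hb hb0 hr hz
  unfold pp
  rw [sq_sq (ne_of_re (by linarith)), sq_sq (ne_of_re (by linarith))]
  ring

lemma pp_add {Λ b : ℝ} (hΛ : 2 ≤ Λ) (hb : b ≤ Λ / 32) (hb0 : 0 ≤ b) {r : ℝ} (hr : 1 ≤ r) {z : ℂ}
    (hz : Λ / 4 ≤ z.re) : 1 ≤ ‖pp b (z + Complex.I) r + pp b z r‖ := by
  obtain ⟨h1, h2, -, -⟩ := arg_re hΛ hb hb0 hr hz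
  exact one_le_add h2 h1

lemma rho_norm {Λ b : ℝ} (hΛ : 2 ≤ Λ) (hb : b ≤ Λ / 32) (hb0 : 0 ≤ b) {r : ℝ} (hr : 1 ≤ r) {z : ℂ}
    (hz : Λ / 4 ≤ z.re) : ‖rho b r z‖ ≤ 1 := by
  have h1 := pp_add hΛ hb hb0 hr hz
  unfold rho
  rw [norm_div, Complex.norm_I, norm_pow]
  exact (div_le_one (by positivity)).2 (one_le_pow₀ h1)

lemma rho_lip {Λ b : ℝ} (hΛ : 2 ≤ Λ) (hb : b ≤ Λ / 32) (hb0 : 0 ≤ b) {r : ℝ} (hr : 1 ≤ r)
    {z z' : ℂ} (hz : Λ / 4 ≤ z.re) (hz' : Λ / 4 ≤ z'.re) :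
    ‖rho b r z - rho b r z'‖ ≤ 4 * ‖z - z'‖ := by
  have h1 := pp_add hΛ hb hb0 hr hz
  have h1' := pp_add hΛ hb hb0 hr hz'
  obtain ⟨a1, a2, -, -⟩ := arg_re hΛ hb hb0 hr hz
  obtain ⟨b1, b2, -, -⟩ := arg_re hΛ hb hb0 hr hz'
  have e1 : ‖pp b (z + Complex.I) r - pp b (z' + Complex.I) r‖ ≤ ‖z - z'‖ := by
    have := sq_lip a2 b2
    rw [show z + Complex.I - ((b / r ^ 2 : ℝ) : ℂ) - (z' + Complex.I - ((b / r ^ 2 : ℝ) : ℂ)) =
      z - z' by ring] at this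
    exact this
  have e2 : ‖pp b z r - pp b z' r‖ ≤ ‖z - z'‖ := by
    have := sq_lip a1 b1
    rw [show z - ((b / r ^ 2 : ℝ) : ℂ) - (z' - ((b / r ^ 2 : ℝ) : ℂ)) = z - z' by ring] at this
    exact this
  unfold rho
  obtain ⟨P, hP⟩ : ∃ P, P = pp b (z + Complex.I) r + pp b z r := ⟨_, rfl⟩
  obtain ⟨P', hP'⟩ : ∃ P', P' = pp b (z' + Complex.I) r + pp b z' r := ⟨_, rfl⟩
  rw [← hP, ← hP']
  rw [← hP] at h1
  rw [← hP'] at h1'
  have e3 : ‖P' - P‖ ≤ 2 * ‖z - z'‖ := by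
    rw [norm_sub_rev, hP, hP', show pp b (z + Complex.I) r + pp b z r -
      (pp b (z' + Complex.I) r + pp b z' r) = (pp b (z + Complex.I) r - pp b (z' + Complex.I) r) +
      (pp b z r - pp b z' r) by ring]
    linarith [norm_add_le (pp b (z + Complex.I) r - pp b (z' + Complex.I) r)
      (pp b z r - pp b z' r)]
  have n1 : P ≠ 0 := by
    rintro rfl
    simp at h1
    linarith
  have n2 : P' ≠ 0 := by
    rintro rfl
    simp at h1'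
    linarith
  have e4 : Complex.I / P ^ 2 - Complex.I / P' ^ 2 =
      Complex.I * ((P' - P) * (1 / (P * P' ^ 2) * (P' * (1 / P)) + 1 / (P * P' ^ 2))) := by
    field_simp
    ring
  have i1 : ‖1 / P‖ ≤ 1 := by
    rw [norm_div, norm_one]
    exact (div_le_one (by linarith)).2 h1
  have i1' : ‖1 / P'‖ ≤ 1 := by
    rw [norm_div, norm_one]
    exact (div_le_one (by linarith)).2 h1'
  have e5 : ‖1 / (P * P' ^ 2) * (P' * (1 / P)) + 1 / (P * P' ^ 2)‖ ≤ 2 := by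
    have e6 : 1 / (P * P' ^ 2) * (P' * (1 / P)) + 1 / (P * P' ^ 2) =
        (1 / P) * (1 / P) * (1 / P') + (1 / P) * (1 / P') * (1 / P') := by
      field_simp
    rw [e6]
    have j1 : ‖(1 / P) * (1 / P) * (1 / P')‖ ≤ 1 := by
      rw [norm_mul, norm_mul]
      calc ‖1 / P‖ * ‖1 / P‖ * ‖1 / P'‖ ≤ 1 * 1 * 1 := by gcongr
        _ = 1 := by norm_num
    have j2 : ‖(1 / P) * (1 / P') * (1 / P')‖ ≤ 1 := by
      rw [norm_mul, norm_mul]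
      calc ‖1 / P‖ * ‖1 / P'‖ * ‖1 / P'‖ ≤ 1 * 1 * 1 := by gcongr
        _ = 1 := by norm_num
    linarith [norm_add_le ((1 / P) * (1 / P) * (1 / P')) ((1 / P) * (1 / P') * (1 / P'))]
  rw [e4, norm_mul, Complex.norm_I, one_mul, norm_mul]
  calc ‖P' - P‖ * ‖1 / (P * P' ^ 2) * (P' * (1 / P)) + 1 / (P * P' ^ 2)‖
      ≤ (2 * ‖z - z'‖) * 2 := by gcongr
    _ = 4 * ‖z - z'‖ := by ring

lemma ratio {u p p' e : ℂ} (hu : ‖u‖ = 1) (hP : 1 ≤ ‖p' + p‖) (h : p' ^ 2 - p ^ 2 = Complex.I)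
    (he : ‖e‖ ≤ 1 / 2) :
    ‖(u * (p' - p) + e) / (u * (p' + p) + e) - Complex.I / (p' + p) ^ 2‖ ≤ 4 * ‖e‖ ∧
      u * (p' + p) + e ≠ 0 := by
  obtain ⟨P, hPd⟩ : ∃ P, P = p' + p := ⟨_, rfl⟩
  obtain ⟨N, hNd⟩ : ∃ N, N = p' - p := ⟨_, rfl⟩
  have hNP : N * P = Complex.I := by rw [hNd, hPd, ← h]; ring
  rw [← hPd, ← hNd]
  rw [← hPd] at hP
  have n1 : P ≠ 0 := by
    rintro rfl
    simp at hP
    linarith
  have hN : ‖N‖ ≤ 1 := by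
    have : ‖N‖ * ‖P‖ = 1 := by rw [← norm_mul, hNP, Complex.norm_I]
    nlinarith [norm_nonneg N]
  have hd : ‖P‖ / 2 ≤ ‖u * P + e‖ := by
    have h1 : ‖u * P‖ ≤ ‖u * P + e‖ + ‖e‖ := by
      calc ‖u * P‖ = ‖(u * P + e) - e‖ := by rw [add_sub_cancel_right]
        _ ≤ _ := norm_sub_le _ _
    rw [norm_mul, hu, one_mul] at h1
    linarith
  have n2 : u * P + e ≠ 0 := by
    intro h0
    rw [h0, norm_zero] at hd
    linarith
  refine ⟨?_, n2⟩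
  have e1 : (u * N + e) / (u * P + e) - Complex.I / P ^ 2 =
      e * (P - N) / (P * (u * P + e)) := by
    rw [← hNP]
    field_simp
    ring
  rw [e1, norm_div, norm_mul, norm_mul]
  rw [div_le_iff₀ (by positivity)]
  have h2 : ‖P - N‖ ≤ ‖P‖ + 1 := by linarith [norm_sub_le P N]
  have h3 : ‖P‖ + 1 ≤ 4 * (‖P‖ * (‖P‖ / 2)) := by nlinarith
  calc ‖e‖ * ‖P - N‖ ≤ ‖e‖ * (4 * (‖P‖ * (‖P‖ / 2))) := by
        gcongr
        linarith
    _ ≤ ‖e‖ * (4 * (‖P‖ * ‖u * P + e‖)) := by gcongr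
    _ = 4 * ‖e‖ * (‖P‖ * ‖u * P + e‖) := by ring

lemma core {Q0 Ez ω δ η Ψ : ℂ} {q : ℝ} (hq : 0 < q) (hE : Ez * Q0 = Complex.exp (Complex.I * ω) *
    Complex.exp δ) (hω : ‖ω‖ ≤ 1) (hδ : ‖δ‖ ≤ 1) (hQ : q ≤ ‖Q0‖) (hΨ : Ψ = Ez * (Q0 + η)) :
    ‖Ψ - Complex.exp (Complex.I * ω)‖ ≤ 6 * ‖δ‖ + 9 / q * ‖η‖ := by
  have hexp : ∀ x : ℂ, ‖x‖ ≤ 1 → ‖Complex.exp x‖ ≤ 3 := by
    intro x hx
    calc ‖Complex.exp x‖ ≤ Real.exp ‖x‖ := Complex.norm_exp_le_exp_norm x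
      _ ≤ Real.exp 1 := Real.exp_le_exp.2 hx
      _ ≤ 3 := by have := Real.exp_one_lt_d9; linarith
  have h1 : ‖Complex.exp (Complex.I * ω)‖ ≤ 3 := hexp _ (by rw [norm_mul, Complex.norm_I]; linarith)
  have h2 : ‖Complex.exp δ‖ ≤ 3 := hexp _ hδ
  have h3 : ‖Complex.exp δ - 1‖ ≤ 2 * ‖δ‖ := Complex.norm_exp_sub_one_le hδ
  have h4 : ‖Ez‖ ≤ 9 / q := by
    have h5 : ‖Ez‖ * ‖Q0‖ ≤ 9 := by
      rw [← norm_mul, hE, norm_mul]
      calc ‖Complex.exp (Complex.I * ω)‖ * ‖Complex.exp δ‖ ≤ 3 * 3 := by gcongr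
        _ = 9 := by norm_num
    rw [le_div_iff₀ hq]
    exact le_trans (by gcongr) h5
  have h6 : Ψ - Complex.exp (Complex.I * ω) =
      Complex.exp (Complex.I * ω) * (Complex.exp δ - 1) + Ez * η := by
    rw [hΨ, mul_add, hE]; ring
  rw [h6]
  calc ‖Complex.exp (Complex.I * ω) * (Complex.exp δ - 1) + Ez * η‖
      ≤ ‖Complex.exp (Complex.I * ω)‖ * ‖Complex.exp δ - 1‖ + ‖Ez‖ * ‖η‖ := by
        rw [← norm_mul, ← norm_mul]; exact norm_add_le _ _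
    _ ≤ 3 * (2 * ‖δ‖) + 9 / q * ‖η‖ := by gcongr
    _ = 6 * ‖δ‖ + 9 / q * ‖η‖ := by ring

lemma rho_bds {Λ b x₀ : ℝ} (hΛ : 2 ≤ Λ) (hb : b ≤ Λ / 32) (hb0 : 0 ≤ b) {r : ℝ} (hr : 1 ≤ r)
    (h1 : Λ / 2 ≤ x₀) (h2 : x₀ ≤ Λ) :
    1 / (4 * (Λ + 1)) ≤ ‖rho b r x₀‖ ∧ ‖rho b r x₀‖ ≤ 1 / 3 := by
  obtain ⟨-, -, hr1, hr2⟩ := arg_re (z := (x₀ : ℂ)) hΛ hb hb0 hr (by
    rw [Complex.ofReal_re]; linarith)
  obtain ⟨β, hβ⟩ : ∃ β, β = b / r ^ 2 := ⟨_, rfl⟩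
  unfold rho pp
  rw [← hβ] at hr1 hr2 ⊢
  have a1 : ((x₀ : ℂ) - (β : ℂ)).re = x₀ - β := by simp
  have a2 : ((x₀ : ℂ) + Complex.I - (β : ℂ)).re = x₀ - β := by simp
  have b1 : 0 < ((x₀ : ℂ) - (β : ℂ)).re := by rw [a1]; linarith
  have b2 : 0 < ((x₀ : ℂ) + Complex.I - (β : ℂ)).re := by rw [a2]; linarith
  have c1 := sq_re b1
  have c2 := sq_re b2
  have d1 := sq_re_pos b1
  have d2 := sq_re_pos b2
  have n1 := sq_norm (ne_of_re b1)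
  have n2 := sq_norm (ne_of_re b2)
  rw [a1] at c1
  rw [a2] at c2
  obtain ⟨p, hp⟩ : ∃ p, p = sq ((x₀ : ℂ) - (β : ℂ)) := ⟨_, rfl⟩
  obtain ⟨p', hp'⟩ : ∃ p', p' = sq ((x₀ : ℂ) + Complex.I - (β : ℂ)) := ⟨_, rfl⟩
  rw [← hp] at c1 d1 n1 ⊢
  rw [← hp'] at c2 d2 n2 ⊢
  have e1 : 9 / 10 ≤ p.re := by
    by_contra h
    push Not at h
    nlinarith
  have e2 : 9 / 10 ≤ p'.re := by
    by_contra h
    push Not at h
    nlinarith
  have f1 : 9 / 5 ≤ ‖p' + p‖ := by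
    calc (9 / 5 : ℝ) ≤ (p' + p).re := by rw [Complex.add_re]; linarith
      _ ≤ ‖p' + p‖ := Complex.re_le_norm _
  have m1 : ‖(x₀ : ℂ) - (β : ℂ)‖ ≤ Λ := by
    rw [← Complex.ofReal_sub, Complex.norm_real, Real.norm_eq_abs, abs_of_nonneg (by linarith)]
    linarith
  have m2 : ‖(x₀ : ℂ) + Complex.I - (β : ℂ)‖ ≤ Λ + 1 := by
    calc ‖(x₀ : ℂ) + Complex.I - (β : ℂ)‖ = ‖((x₀ : ℂ) - (β : ℂ)) + Complex.I‖ := by
          congr 1; ring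
      _ ≤ ‖(x₀ : ℂ) - (β : ℂ)‖ + ‖Complex.I‖ := norm_add_le _ _
      _ ≤ Λ + 1 := by rw [Complex.norm_I]; linarith
  have f2 : ‖p' + p‖ ^ 2 ≤ 4 * (Λ + 1) := by
    have g1 := norm_add_le p' p
    have g2 := norm_nonneg (p' + p)
    nlinarith [sq_nonneg (‖p'‖ - ‖p‖), norm_nonneg p, norm_nonneg p']
  rw [norm_div, Complex.norm_I, norm_pow]
  have f3 : 0 < ‖p' + p‖ ^ 2 := by positivity
  refine ⟨one_div_le_one_div_of_le f3 f2, one_div_le_one_div_of_le (by norm_num) ?_⟩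
  nlinarith

lemma mem_aux {Λ ħ s Lm M R x₀ : ℝ} {m z₀ z : ℂ} (hΛ : 2 ≤ Λ) (hħ : 0 < ħ)
    (hLm0 : 0 < Lm) (hM : M = s * (Lm + 5)) (k1 : 40 * (s * ħ) < 1)
    (k2 : 2 * (s * (Lm + 1) * ħ) < 1) (hR0 : 0 < R) (hRs : R ≤ s * ħ) (hmre1 : m.re ≤ Lm)
    (hmre2 : 1 < m.re) (hmim : |m.im| ≤ 4) (hmn : ‖m‖ ≤ Lm + 4)
    (hz₀ : z₀ = x₀ - Complex.I * (R * m)) (hz₀re : z₀.re = x₀ + R * m.im)
    (hz₀im : z₀.im = -(R * m.re)) (hx1 : Λ / 2 ≤ x₀) (hx2 : x₀ ≤ Λ) (hz : ‖z - z₀‖ ≤ R) :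
    z ∈ Bx Λ ∧ -((s * (Lm + 1) + 1) * ħ) < z.im ∧ |z.re - x₀| ≤ 5 * s * ħ ∧
      ‖z - x₀‖ ≤ M * ħ := by
  have t1 := abs_le.1 ((Complex.abs_re_le_norm (z - z₀)).trans hz)
  have t2 := abs_le.1 ((Complex.abs_im_le_norm (z - z₀)).trans hz)
  rw [Complex.sub_re, hz₀re] at t1
  rw [Complex.sub_im, hz₀im] at t2
  have t3 := abs_le.1 hmim
  have t4 : R * m.im ≤ R * 4 := by gcongr; exact t3.2
  have t5 : R * (-4) ≤ R * m.im := by gcongr; exact t3.1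
  have t6 : R * 1 < R * m.re := by gcongr
  have t7 : R * m.re ≤ R * Lm := by gcongr
  have t8 : R * (Lm + 1) ≤ s * ħ * (Lm + 1) := by gcongr
  have t9 : s * ħ * (Lm + 1) = s * (Lm + 1) * ħ := by ring
  have t10 : R * (Lm + 1) = R * Lm + R := by ring
  have t11 : (s * (Lm + 1) + 1) * ħ = s * (Lm + 1) * ħ + ħ := by ring
  have hre : |z.re - x₀| ≤ 5 * s * ħ := by
    rw [abs_le, mul_assoc]
    constructor <;> linarith [t1.1, t1.2]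
  have hre' := abs_le.1 hre
  rw [mul_assoc] at hre'
  have him1 : -(s * (Lm + 1) * ħ) ≤ z.im := by linarith [t2.1]
  have him2 : z.im < 0 := by linarith [t2.2]
  refine ⟨⟨by linarith [hre'.1], by linarith [hre'.2], by linarith, him2⟩, by linarith, hre, ?_⟩
  have u1 : z - x₀ = (z - z₀) - Complex.I * (R * m) := by rw [hz₀]; ring
  calc ‖z - x₀‖ ≤ ‖z - z₀‖ + ‖Complex.I * (R * m)‖ := by rw [u1]; exact norm_sub_le _ _
    _ ≤ R + R * (Lm + 4) := by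
      rw [norm_mul, Complex.norm_I, one_mul, norm_mul, Complex.norm_real, Real.norm_eq_abs,
        abs_of_pos hR0]
      gcongr
    _ = R * (Lm + 5) := by ring
    _ ≤ s * ħ * (Lm + 5) := by gcongr
    _ = M * ħ := by rw [hM]; ring

lemma eta_aux {b Λ M ħ C' : ℝ} {x₀ : ℝ} {z δ₁ δ₂ Q0 η : ℂ} (hΛ : 2 ≤ Λ) (hb : b ≤ Λ / 32)
    (hb0 : 0 ≤ b) (hzr : Λ / 4 ≤ z.re) (hxr : Λ / 4 ≤ ((x₀ : ℝ) : ℂ).re)
    (hQ0 : Q0 = rho b 1 x₀ * rho b 2 x₀) (hη : η = (rho b 1 z + δ₁) * (rho b 2 z + δ₂) - Q0)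
    (hM0 : 0 < M) (hC'0 : 0 < C') (hħ : 0 < ħ) (k3 : 2 * (C' * ħ) < 1)
    (hzx : ‖z - x₀‖ ≤ M * ħ) (hδ₁n : ‖δ₁‖ ≤ 5 * (C' * ħ)) (hδ₂n : ‖δ₂‖ ≤ 4 * (C' * ħ)) :
    ‖η‖ ≤ (19 * C' + 8 * M) * ħ := by
  have l1 := rho_norm hΛ hb hb0 (le_refl (1 : ℝ)) hzr
  have l2 := rho_norm hΛ hb hb0 (show (1 : ℝ) ≤ 2 by norm_num) hzr
  have l3 := rho_lip hΛ hb hb0 (le_refl (1 : ℝ)) hzr hxr
  have l4 := rho_lip hΛ hb hb0 (show (1 : ℝ) ≤ 2 by norm_num) hzr hxr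
  have l5 := rho_norm hΛ hb hb0 (le_refl (1 : ℝ)) hxr
  have v1 : η = (rho b 1 z - rho b 1 x₀) * rho b 2 z + rho b 1 x₀ * (rho b 2 z - rho b 2 x₀) +
      δ₁ * rho b 2 z + rho b 1 z * δ₂ + δ₁ * δ₂ := by
    rw [hη, hQ0]; ring
  have hMp : 0 ≤ M * ħ := by positivity
  have hCp : 0 ≤ C' * ħ := by positivity
  have g1 : ‖(rho b 1 z - rho b 1 x₀) * rho b 2 z‖ ≤ 4 * (M * ħ) := by
    rw [norm_mul]
    calc _ ≤ (4 * (M * ħ)) * 1 := mul_le_mul (by linarith) l2 (norm_nonneg _) (by positivity)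
      _ = _ := by ring
  have g2 : ‖rho b 1 x₀ * (rho b 2 z - rho b 2 x₀)‖ ≤ 4 * (M * ħ) := by
    rw [norm_mul]
    calc _ ≤ 1 * (4 * (M * ħ)) := mul_le_mul l5 (by linarith) (norm_nonneg _) (by norm_num)
      _ = _ := by ring
  have g3 : ‖δ₁ * rho b 2 z‖ ≤ 5 * (C' * ħ) := by
    rw [norm_mul]
    calc _ ≤ (5 * (C' * ħ)) * 1 := mul_le_mul hδ₁n l2 (norm_nonneg _) (by positivity)
      _ = _ := by ring
  have g4 : ‖rho b 1 z * δ₂‖ ≤ 4 * (C' * ħ) := by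
    rw [norm_mul]
    calc _ ≤ 1 * (4 * (C' * ħ)) := mul_le_mul l1 hδ₂n (norm_nonneg _) (by norm_num)
      _ = _ := by ring
  have g5 : ‖δ₁ * δ₂‖ ≤ 10 * (C' * ħ) := by
    rw [norm_mul]
    calc ‖δ₁‖ * ‖δ₂‖ ≤ (5 * (C' * ħ)) * (4 * (C' * ħ)) :=
          mul_le_mul hδ₁n hδ₂n (norm_nonneg _) (by positivity)
      _ ≤ _ := by nlinarith
  rw [v1]
  have a1 := norm_add_le ((rho b 1 z - rho b 1 x₀) * rho b 2 z +
    rho b 1 x₀ * (rho b 2 z - rho b 2 x₀) + δ₁ * rho b 2 z + rho b 1 z * δ₂) (δ₁ * δ₂)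
  have a2 := norm_add_le ((rho b 1 z - rho b 1 x₀) * rho b 2 z +
    rho b 1 x₀ * (rho b 2 z - rho b 2 x₀) + δ₁ * rho b 2 z) (rho b 1 z * δ₂)
  have a3 := norm_add_le ((rho b 1 z - rho b 1 x₀) * rho b 2 z +
    rho b 1 x₀ * (rho b 2 z - rho b 2 x₀)) (δ₁ * rho b 2 z)
  have a4 := norm_add_le ((rho b 1 z - rho b 1 x₀) * rho b 2 z)
    (rho b 1 x₀ * (rho b 2 z - rho b 2 x₀))
  linarith

end ZEROp

open ZEROp in
theorem p_ZERO (hR : S_ROU) (hA : S_ACT) : S_ZERO := by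
  intro Λ hΛ
  obtain ⟨CA, hCA⟩ := hA Λ hΛ
  obtain ⟨Lm, hLm⟩ : ∃ Lm, Lm = Real.log (16 * (Λ + 1) ^ 2) := ⟨_, rfl⟩
  have hLm0 : 0 < Lm := by rw [hLm]; exact Real.log_pos (by nlinarith)
  obtain ⟨s, hs⟩ : ∃ s, s = Real.sqrt Λ := ⟨_, rfl⟩
  have hs1 : 1 ≤ s := by
    rw [hs]
    exact Real.one_le_sqrt.2 (by linarith)
  refine ⟨s * (Lm + 1) + 1, by positivity, ?_⟩
  intro C
  obtain ⟨M, hM⟩ : ∃ M, M = s * (Lm + 5) := ⟨_, rfl⟩
  obtain ⟨C', hC'⟩ : ∃ C', C' = |C| + 1 := ⟨_, rfl⟩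
  obtain ⟨K, hK⟩ : ∃ K, K = 12 * (|CA| * M ^ 2) + 144 * (Λ + 1) ^ 2 * (19 * C' + 8 * M) := ⟨_, rfl⟩
  obtain ⟨D, hD⟩ : ∃ D, D = 40 * s + 2 * (s * (Lm + 1)) + 2 * C' + 2 * (|CA| * M ^ 2) + 10 * K + 1 :=
    ⟨_, rfl⟩
  have hM0 : 0 < M := by rw [hM]; positivity
  have hC'0 : 0 < C' := by rw [hC']; positivity
  have hK0 : 0 < K := by rw [hK]; positivity
  have hCA0 : 0 ≤ |CA| * M ^ 2 := by positivity
  have hsL : 0 < s * (Lm + 1) := by positivity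
  have hD0 : 0 < D := by rw [hD]; positivity
  refine ⟨1 / D, by positivity, ?_⟩
  intro ħ b x₀ a c h hħ hħD hb0 hb hx1 hx2 hc hh hac hth
  have hDħ : D * ħ < 1 := by
    rw [lt_div_iff₀ hD0] at hħD
    linarith
  have k1 : 40 * (s * ħ) < 1 := by
    have : 40 * s * ħ ≤ D * ħ := by
      gcongr
      rw [hD]
      linarith
    linarith
  have k2 : 2 * (s * (Lm + 1) * ħ) < 1 := by
    have : 2 * (s * (Lm + 1)) * ħ ≤ D * ħ := by
      gcongr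
      rw [hD]
      linarith
    linarith
  have k3 : 2 * (C' * ħ) < 1 := by
    have : 2 * C' * ħ ≤ D * ħ := by
      gcongr
      rw [hD]
      linarith
    linarith
  have k4 : 2 * (|CA| * M ^ 2 * ħ) < 1 := by
    have : 2 * (|CA| * M ^ 2) * ħ ≤ D * ħ := by
      gcongr
      rw [hD]
      linarith
    linarith
  have k5 : 10 * (K * ħ) < 1 := by
    have : 10 * K * ħ ≤ D * ħ := by
      gcongr
      rw [hD]
      linarith
    linarith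
  clear hD hD0 hħD hDħ
  obtain ⟨τ, hτ1, hτ2, him, hact⟩ := hCA b x₀ hb0 hb hx1 hx2
  rw [← hs] at hτ1 ⊢
  have hτ0 : 0 < τ := lt_of_lt_of_le (by positivity) hτ1
  obtain ⟨R, hRd⟩ : ∃ R, R = ħ / (2 * τ) := ⟨_, rfl⟩
  have hR0 : 0 < R := by rw [hRd]; positivity
  have hRs : R ≤ s * ħ := by
    rw [hRd, div_le_iff₀ (by positivity)]
    have : 1 ≤ 2 * s * τ := by
      rw [div_le_iff₀ (by positivity)] at hτ1
      linarith
    nlinarith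
  obtain ⟨q1a, q1b⟩ := rho_bds hΛ hb hb0 (le_refl (1 : ℝ)) hx1 hx2
  obtain ⟨q2a, q2b⟩ := rho_bds hΛ hb hb0 (show (1 : ℝ) ≤ 2 by norm_num) hx1 hx2
  obtain ⟨Q0, hQ0⟩ : ∃ Q0, Q0 = rho b 1 x₀ * rho b 2 x₀ := ⟨_, rfl⟩
  have hQl : 1 / (16 * (Λ + 1) ^ 2) ≤ ‖Q0‖ := by
    rw [hQ0, norm_mul]
    calc 1 / (16 * (Λ + 1) ^ 2) = 1 / (4 * (Λ + 1)) * (1 / (4 * (Λ + 1))) := by
          rw [div_mul_div_comm]; ring
      _ ≤ _ := by gcongr
  have hQu : ‖Q0‖ ≤ 1 / 9 := by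
    rw [hQ0, norm_mul]
    calc ‖rho b 1 x₀‖ * ‖rho b 2 x₀‖ ≤ 1 / 3 * (1 / 3) := by gcongr
      _ = 1 / 9 := by norm_num
  have hQpos : 0 < ‖Q0‖ := lt_of_lt_of_le (by positivity) hQl
  obtain ⟨E0, hE0⟩ : ∃ E0, E0 = Complex.exp (2 * Complex.I / ħ * th b x₀) := ⟨_, rfl⟩
  have hE0n : ‖E0‖ = 1 := by
    rw [hE0, Complex.norm_exp]
    have : (2 * Complex.I / ħ * th b x₀).re = 0 := by
      rw [show (2 * Complex.I / ħ * th b x₀) = ((2 / ħ : ℝ) : ℂ) * (Complex.I * th b x₀) by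
        push_cast; ring, Complex.re_ofReal_mul]
      simp [him]
    rw [this, Real.exp_zero]
  obtain ⟨m, hm⟩ : ∃ m, m = -Complex.log (Q0 * E0) := ⟨_, rfl⟩
  have hQE : Q0 * E0 ≠ 0 := by
    refine mul_ne_zero (norm_pos_iff.1 hQpos) ?_
    rw [hE0]
    exact Complex.exp_ne_zero _
  have hexpm : Q0 * E0 * Complex.exp m = 1 := by
    rw [hm, Complex.exp_neg, Complex.exp_log hQE, mul_inv_cancel₀ hQE]
  have hmre : m.re = -Real.log ‖Q0‖ := by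
    rw [hm, Complex.neg_re, Complex.log_re, norm_mul, hE0n, mul_one]
  have hmre1 : m.re ≤ Lm := by
    rw [hmre, hLm, ← Real.log_inv]
    refine Real.log_le_log (inv_pos.2 hQpos) ?_
    rw [inv_le_comm₀ hQpos (by positivity), inv_eq_one_div]
    exact hQl
  have hmre2 : 1 < m.re := by
    rw [hmre, ← Real.log_inv, Real.lt_log_iff_exp_lt (inv_pos.2 hQpos)]
    have : 9 ≤ ‖Q0‖⁻¹ := by
      rw [le_inv_comm₀ (by norm_num) hQpos]
      linarith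
    have := Real.exp_one_lt_d9
    linarith
  have hmim : |m.im| ≤ 4 := by
    rw [hm, Complex.neg_im, Complex.log_im, abs_neg]
    exact le_trans (Complex.abs_arg_le_pi _) Real.pi_le_four
  have hpi : |m.im| ≤ Real.pi := by
    rw [hm, Complex.neg_im, Complex.log_im, abs_neg]
    exact Complex.abs_arg_le_pi _
  have hmn : ‖m‖ ≤ Lm + 4 := by
    calc ‖m‖ ≤ |m.re| + |m.im| := Complex.norm_le_abs_re_add_abs_im m
      _ ≤ Lm + 4 := by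
        rw [abs_of_pos (by linarith)]
        linarith
  obtain ⟨z₀, hz₀⟩ : ∃ z₀ : ℂ, z₀ = x₀ - Complex.I * (R * m) := ⟨_, rfl⟩
  have hz₀re : z₀.re = x₀ + R * m.im := by
    rw [hz₀]
    simp
  have hz₀im : z₀.im = -(R * m.re) := by
    rw [hz₀]
    simp
  have hmem : ∀ z : ℂ, ‖z - z₀‖ ≤ R → z ∈ Bx Λ ∧ -((s * (Lm + 1) + 1) * ħ) < z.im ∧
      |z.re - x₀| ≤ 5 * s * ħ ∧ ‖z - x₀‖ ≤ M * ħ := by
    intro z hz
    exact mem_aux hΛ hħ hLm0 hM k1 k2 hR0 hRs hmre1 hmre2 hmim hmn hz₀ hz₀re hz₀im hx1 hx2 hz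
  have hCħ : C * ħ ≤ C' * ħ := by
    gcongr
    rw [hC']
    linarith [le_abs_self C]
  have hden : ∀ z ∈ Bx Λ, ‖(c z - Complex.I * pp b z 2) / (c z + Complex.I * pp b z 2) -
      rho b 2 z‖ ≤ 4 * (C' * ħ) ∧ c z + Complex.I * pp b z 2 ≠ 0 := by
    intro z hz
    have hzr : Λ / 4 ≤ z.re := hz.1.le
    have r0 := ratio (u := Complex.I) (p := pp b z 2) (p' := pp b (z + Complex.I) 2)
      (e := c z - Complex.I * pp b (z + Complex.I) 2) Complex.norm_I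
      (pp_add hΛ hb hb0 (by norm_num) hzr) (pp_sq hΛ hb hb0 (by norm_num) hzr)
      (by linarith [(hac z hz).2])
    rw [show Complex.I * (pp b (z + Complex.I) 2 - pp b z 2) +
        (c z - Complex.I * pp b (z + Complex.I) 2) = c z - Complex.I * pp b z 2 by ring,
      show Complex.I * (pp b (z + Complex.I) 2 + pp b z 2) +
        (c z - Complex.I * pp b (z + Complex.I) 2) = c z + Complex.I * pp b z 2 by ring] at r0
    refine ⟨r0.1.trans ?_, r0.2⟩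
    have := (hac z hz).2
    linarith
  have hnum : ∀ z ∈ Bx Λ, ‖(a z + Complex.I * pp b z 1) / (a z - Complex.I * pp b z 1) -
      rho b 1 z‖ ≤ 4 * (C' * ħ) := by
    intro z hz
    have hzr : Λ / 4 ≤ z.re := hz.1.le
    have r0 := ratio (u := -Complex.I) (p := pp b z 1) (p' := pp b (z + Complex.I) 1)
      (e := a z + Complex.I * pp b (z + Complex.I) 1) (by rw [norm_neg, Complex.norm_I])
      (pp_add hΛ hb hb0 (by norm_num) hzr) (pp_sq hΛ hb hb0 (by norm_num) hzr)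
      (by linarith [(hac z hz).1])
    rw [show -Complex.I * (pp b (z + Complex.I) 1 - pp b z 1) +
        (a z + Complex.I * pp b (z + Complex.I) 1) = a z + Complex.I * pp b z 1 by ring,
      show -Complex.I * (pp b (z + Complex.I) 1 + pp b z 1) +
        (a z + Complex.I * pp b (z + Complex.I) 1) = a z - Complex.I * pp b z 1 by ring] at r0
    refine r0.1.trans ?_
    have := (hac z hz).1
    linarith
  obtain ⟨f, hf⟩ : ∃ f : ℂ → ℂ, f = fun z => h z *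
      ((c z - Complex.I * pp b z 2) / (c z + Complex.I * pp b z 2)) := ⟨_, rfl⟩
  have hUopen : IsOpen {z : ℂ | z ∈ Bx Λ ∧ -((s * (Lm + 1) + 1) * ħ) < z.im} := by
    have : {z : ℂ | z ∈ Bx Λ ∧ -((s * (Lm + 1) + 1) * ħ) < z.im} =
        {z : ℂ | Λ / 4 < z.re} ∩ {z : ℂ | z.re < 2 * Λ} ∩ {z : ℂ | -(1 / 2) < z.im} ∩
        {z : ℂ | z.im < 0} ∩ {z : ℂ | -((s * (Lm + 1) + 1) * ħ) < z.im} := by
      ext z
      simp only [Bx, Set.mem_ofPred_eq, Set.mem_inter_iff]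
      tauto
    rw [this]
    refine ((((isOpen_lt continuous_const Complex.continuous_re).inter
      (isOpen_lt Complex.continuous_re continuous_const)).inter
      (isOpen_lt continuous_const Complex.continuous_im)).inter
      (isOpen_lt Complex.continuous_im continuous_const)).inter
      (isOpen_lt continuous_const Complex.continuous_im)
  have hsub : Metric.closedBall z₀ R ⊆ {z : ℂ | z ∈ Bx Λ ∧ -((s * (Lm + 1) + 1) * ħ) < z.im} := by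
    intro z hz
    rw [Metric.mem_closedBall, dist_eq_norm] at hz
    exact ⟨(hmem z hz).1, (hmem z hz).2.1⟩
  have hpp2 : DifferentiableOn ℂ (fun z => pp b z 2) (Bx Λ) := by
    intro z hz
    have hzr : Λ / 4 ≤ z.re := hz.1.le
    obtain ⟨h1, -, -, -⟩ := arg_re hΛ hb hb0 (show (1 : ℝ) ≤ 2 by norm_num) hzr
    have h2 : DifferentiableAt ℂ (fun z : ℂ => z - ((b / (2 : ℝ) ^ 2 : ℝ) : ℂ)) z :=
      differentiableAt_id.sub_const _
    exact (DifferentiableAt.comp z (sq_diff (by linarith)) h2).differentiableWithinAt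
  have hfd : DifferentiableOn ℂ f {z : ℂ | z ∈ Bx Λ ∧ -((s * (Lm + 1) + 1) * ħ) < z.im} := by
    have hBsub : {z : ℂ | z ∈ Bx Λ ∧ -((s * (Lm + 1) + 1) * ħ) < z.im} ⊆ Bx Λ := fun z hz => hz.1
    rw [hf]
    refine hh.mul (DifferentiableOn.div ?_ ?_ ?_)
    · exact (hc.mono hBsub).sub ((hpp2.mono hBsub).const_mul _)
    · exact (hc.mono hBsub).add ((hpp2.mono hBsub).const_mul _)
    · intro z hz
      exact (hden z hz.1).2
  obtain ⟨z, hz, hfz⟩ := hR f z₀ R hR0 ⟨_, hUopen, hsub, hfd⟩ (by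
    intro ω hω
    obtain ⟨z, hz⟩ : ∃ z, z = z₀ + R * ω := ⟨_, rfl⟩
    rw [← hz]
    have hzz : ‖z - z₀‖ ≤ R := by
      rw [hz, add_sub_cancel_left, norm_mul, Complex.norm_real, Real.norm_eq_abs, abs_of_pos hR0]
      nlinarith
    obtain ⟨hzB, hzim, -, hzx⟩ := hmem z hzz
    have hzr : Λ / 4 ≤ z.re := hzB.1.le
    have hxr : Λ / 4 ≤ ((x₀ : ℝ) : ℂ).re := by rw [Complex.ofReal_re]; linarith
    obtain ⟨ε, hε⟩ : ∃ ε, ε = th b z - th b x₀ - τ * (z - x₀) := ⟨_, rfl⟩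
    have hεn : ‖ε‖ ≤ |CA| * M ^ 2 * ħ * ħ := by
      have v1 := hact z hzB.1
      rw [← hε] at v1
      calc ‖ε‖ ≤ CA * ‖z - x₀‖ ^ 2 := v1
        _ ≤ |CA| * (M * ħ) ^ 2 := by
          have := le_abs_self CA
          gcongr
        _ = |CA| * M ^ 2 * ħ * ħ := by ring
    obtain ⟨δ, hδ⟩ : ∃ δ, δ = 2 * Complex.I / ħ * ε := ⟨_, rfl⟩
    have hδn : ‖δ‖ ≤ 2 * (|CA| * M ^ 2 * ħ) := by
      rw [hδ, norm_mul, norm_div, norm_mul, Complex.norm_I, Complex.norm_real, Real.norm_eq_abs,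
        abs_of_pos hħ]
      have : ‖(2 : ℂ)‖ = 2 := by norm_num
      rw [this, mul_one, div_mul_eq_mul_div, div_le_iff₀ hħ]
      linarith
    obtain ⟨Ez, hEz⟩ : ∃ Ez, Ez = Complex.exp (2 * Complex.I / ħ * th b z) := ⟨_, rfl⟩
    have hħne : (ħ : ℂ) ≠ 0 := Complex.ofReal_ne_zero.2 hħ.ne'
    have hτne : (τ : ℂ) ≠ 0 := Complex.ofReal_ne_zero.2 hτ0.ne'
    have hEQ : Ez * Q0 = Complex.exp (Complex.I * ω) * Complex.exp δ := by
      have w1 : 2 * Complex.I / ħ * th b z = 2 * Complex.I / ħ * th b x₀ + m + Complex.I * ω + δ := by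
        have w2 : th b z = th b x₀ + τ * (z - x₀) + ε := by rw [hε]; ring
        have w3 : z - x₀ = R * ω - Complex.I * (R * m) := by rw [hz, hz₀]; ring
        have w4 : (R : ℂ) = ħ / (2 * τ) := by rw [hRd]; push_cast; ring
        rw [w2, w3, w4, hδ]
        field_simp
        ring_nf
        simp only [Complex.I_sq]
        ring
      rw [hEz, w1, Complex.exp_add, Complex.exp_add, Complex.exp_add, ← hE0]
      calc E0 * Complex.exp m * Complex.exp (Complex.I * ω) * Complex.exp δ * Q0 =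
          (Q0 * E0 * Complex.exp m) * (Complex.exp (Complex.I * ω) * Complex.exp δ) := by ring
        _ = _ := by rw [hexpm, one_mul]
    obtain ⟨δ₁, hδ₁⟩ : ∃ δ₁, δ₁ = Complex.exp (-(2 * Complex.I / ħ * th b z)) * h z - rho b 1 z :=
      ⟨_, rfl⟩
    have hδ₁n : ‖δ₁‖ ≤ 5 * (C' * ħ) := by
      have v1 := hth z hzB hzim
      have v2 := hnum z hzB
      have v3 : δ₁ = (Complex.exp (-(2 * Complex.I / ħ * th b z)) * h z -
          (a z + Complex.I * pp b z 1) / (a z - Complex.I * pp b z 1)) +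
          ((a z + Complex.I * pp b z 1) / (a z - Complex.I * pp b z 1) - rho b 1 z) := by
        rw [hδ₁]; ring
      rw [v3]
      refine (norm_add_le _ _).trans ?_
      linarith
    obtain ⟨δ₂, hδ₂⟩ : ∃ δ₂, δ₂ = (c z - Complex.I * pp b z 2) / (c z + Complex.I * pp b z 2) -
        rho b 2 z := ⟨_, rfl⟩
    have hδ₂n : ‖δ₂‖ ≤ 4 * (C' * ħ) := by
      rw [hδ₂]
      exact (hden z hzB).1
    obtain ⟨η, hη⟩ : ∃ η, η = (rho b 1 z + δ₁) * (rho b 2 z + δ₂) - Q0 := ⟨_, rfl⟩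
    have hfη : f z = Ez * (Q0 + η) := by
      have v1 : Ez * Complex.exp (-(2 * Complex.I / ħ * th b z)) = 1 := by
        rw [hEz, ← Complex.exp_add, add_neg_cancel, Complex.exp_zero]
      have v2 : h z = Ez * (rho b 1 z + δ₁) := by
        rw [hδ₁]
        calc h z = (Ez * Complex.exp (-(2 * Complex.I / ħ * th b z))) * h z := by rw [v1, one_mul]
          _ = _ := by ring
      have v3 : (c z - Complex.I * pp b z 2) / (c z + Complex.I * pp b z 2) = rho b 2 z + δ₂ := by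
        rw [hδ₂]; ring
      rw [hf]
      simp only
      rw [v3, v2, hη]
      ring
    have hηn : ‖η‖ ≤ (19 * C' + 8 * M) * ħ := by
      exact eta_aux hΛ hb hb0 hzr hxr hQ0 hη hM0 hC'0 hħ k3 hzx hδ₁n hδ₂n
    have hfin := core (q := 1 / (16 * (Λ + 1) ^ 2)) (by positivity) hEQ hω (by linarith) hQl hfη
    refine hfin.trans ?_
    have e1 : 9 / (1 / (16 * (Λ + 1) ^ 2)) = 144 * (Λ + 1) ^ 2 := by
      field_simp
      ring
    rw [e1]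
    calc 6 * ‖δ‖ + 144 * (Λ + 1) ^ 2 * ‖η‖ ≤ 6 * (2 * (|CA| * M ^ 2 * ħ)) +
          144 * (Λ + 1) ^ 2 * ((19 * C' + 8 * M) * ħ) := by gcongr
      _ = K * ħ := by rw [hK]; ring
      _ ≤ 1 / 10 := by linarith)
  rw [Metric.mem_closedBall, dist_eq_norm] at hz
  obtain ⟨hzB, hzim, hzre, -⟩ := hmem z hz
  refine ⟨z, hzB, hzre, hzim, ?_⟩
  rw [hf] at hfz
  simp only at hfz
  have hne := (hden z hzB).2
  rw [← mul_div_assoc, div_eq_one_iff_eq hne] at hfz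
  exact hfz

end Pool.Agent.Run7.h998.LT
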