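import Pool.Agent.Run7.h998.LT.Defs

/-!
# MP_c84763_mp : the statements of the pieces

Each `S_XXX : Prop` below is one piece, with its full proof in words. A piece is proved in its own
file `Pool/Agent/Run7/h998/LT/P<XXX>.lean` as
`theorem p_XXX (h₁ : S_YYY) … : S_XXX`, where the `S_YYY` are the pieces named under Uses in its
docstring (never import another piece's file: take its statement as a hypothesis).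

## The idea
`V = i 1_{1<|x|<2}` on `ℝᵈ`. For a harmonic homogeneous polynomial `P` of degree `ℓ`, the function
`ψ(x) = P(x) g(|x|²)` satisfies `(-ħ²Δ + V) ψ = E ψ` iff (with `s = |x|²`, `D = d + 2ℓ`)
`4 s g'' + 2 D g' + ((E - V)/ħ²) g = 0`.
With `u(r) = r^((D-1)/2) g(r²)` this reads `u'' = -(w/ħ²) u`, `w = E - V - b/r²`,
`b = ħ² (D-1)(D-3)/4`. We look for `E = z + i` with `Re z ∼ Λ` large, `Im z ∼ -ħ √Λ`: in the annulus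
`w = z - b/r²` is nearly real (waves travel), outside of it `w = z + i - b/r²` (waves decay).
Matching at `r = 1, 2` gives the quantisation condition
`exp (2 i θ(z)/ħ) ρ₁ ρ₂ (1 + O(ħ)) = 1`, `θ(z) = ∫_1^2 √(z - b/r²) dr`,
`ρ_j = (√(z+i-b/j²) - √(z-b/j²))/(√(z+i-b/j²) + √(z-b/j²))`, `|ρ_j| ∼ 1/(4Λ)`; its solutions have
`Re z` with spacing `∼ ħ √Λ` and `Im z ∼ -ħ √Λ log Λ`, so `E` has `Re E ∼ Λ`, `1/2 < Im E < 1`. For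
every `ℓ ≤ c √Λ/ħ` there are `∼ √Λ/ħ` of them, each of multiplicity `≥ dim H_ℓ ∼ ℓ^(d-2)`, in total
`∼ Λ^(d/2) ħ^(-d)` eigenvalues, contributing `Λ^(d/2-σ) ħ^(-d) ≥ ħ^(-d)` to `S_{γ,σ}`. Summing over
`Λ = 2·4^i`, `i < n`, with `n → ∞`, gives `ħ^d S_{γ,σ}(V, ħ) → ∞`.
-/

set_option autoImplicit false

open MeasureTheory Filter Topology Set
open scoped ENNReal NNReal

namespace Pool.Agent.Run7.h998.LT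

open Pool.Agent.Helper41.CE

/-- **REG** (regular solution). Uses: nothing.
Proof. `Reg D y = ∑ a_m y^m`, `a_m = 1/(m! (D/2)_m)`, `|a_m| ≤ C/m!` (`|(D/2)_m| ≥ 2^(-m)…`, in fact
`(D/2)_m ≥ (1/2)^m m!/…`; simplest: `(D/2)_m ≥ (1/2)·(m-1)!` or ratio test), hence entire, and
termwise `Reg D' = (2/D) Reg (D+2)` because `m a_m^{(D)} = (2/D) a_{m-1}^{(D+2)}`
(`(D/2)_m = (D/2) (D/2+1)_{m-1}`). Identity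
`Reg D y = Reg (D+2) y + (4 y/(D (D+2))) Reg (D+4) y`, coefficientwise with `a = D/2`:
`1/(a)_m = a/((a)_m (a+m)) + m/((a)_m (a+m))`. Chain rule with `y = ν s/4`. -/
def S_REG : Prop :=
  (∀ D : ℕ, 0 < D → Differentiable ℂ (Reg D) ∧ Reg D 0 = 1) ∧
  ∀ (D : ℕ) (ν : ℂ) (s : ℝ), 0 < D →
    HasDerivAt (Ig D ν) (Ig1 D ν s) s ∧ HasDerivAt (Ig1 D ν) (Ig2 D ν s) s ∧
    4 * (s : ℂ) * Ig2 D ν s + 2 * D * Ig1 D ν s = ν * Ig D ν s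

/-- **DEC** (decaying solution). Uses: nothing. Let `α = (D-3)/2 ≥ 1/2`.
Proof. `Dec D w = ∫_1^∞ e^{-wt} (t²-1)^α dt` is holomorphic in `Re w > 0` (differentiate under the
integral sign, `hasDerivAt_integral_of_dominated_loc_of_deriv_le`),
`Dec D' (w) = -∫ t e^{-wt} (t²-1)^α = -(w/(D-1)) Dec (D+2) w` (integrate by parts:
`t (t²-1)^α = d/dt (t²-1)^(α+1)/(2(α+1))`, `2(α+1) = D-1`, e.g.
`integral_Ioi_mul_deriv_eq_deriv_mul` / `integral_Ioi_of_hasDerivAt_of_tendsto`). Two more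
integrations by parts: `w Dec (D+4) w/(D+1) = ∫ e^{-wt} t (t²-1)^(α+1)` and
`w ∫ e^{-wt} t (t²-1)^(α+1) = ∫ e^{-wt} ((t²-1)^(α+1) + (D-1) t² (t²-1)^α)
 = D · Dec (D+2) w + (D-1) Dec D w` (`t² = (t²-1) + 1`). So
`w²/((D-1)(D+1)) Dec (D+4) w = (D/(D-1)) Dec (D+2) w + Dec D w`.
Then `Kg' = Kg1` and `Kg1' = κ⁴/(4(D-1)(D+1)) Dec (D+4) (κ√s)` and the ODE.
Decay: for `r = √s ≥ 2`, `t ≥ 1`: `Re κ · r t ≥ Re κ (r - 2) + 2 Re κ t`, so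
`|Dec D (κ r)| ≤ e^{-Re κ (r-2)} Dec D (2 Re κ)`.
Nonvanishing: if `Kg D κ s = 0` for all `s > R`, then `Dec D = 0` on the ray `{κ r : r > √R}`, so by
the identity theorem (`AnalyticOnNhd.eqOn_of_preconnected_of_frequently_eq`, half plane convex)
`Dec D = 0` on `Re w > 0`, but `Dec D 1 > 0`. -/
def S_DEC : Prop :=
  (∀ D : ℕ, 4 ≤ D → DifferentiableOn ℂ (Dec D) {w : ℂ | 0 < w.re}) ∧
  (∀ (D : ℕ) (κ : ℂ), 4 ≤ D → 0 < κ.re → SolG D (κ ^ 2) (Kg D κ) (Kg1 D κ) (Ioi 0)) ∧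
  (∀ (D : ℕ) (κ : ℂ), 4 ≤ D → 0 < κ.re → ∃ C ρ : ℝ, 0 < ρ ∧ ∀ s : ℝ, 4 ≤ s →
    ‖Kg D κ s‖ ≤ C * Real.exp (-(ρ * Real.sqrt s)) ∧
    ‖Kg1 D κ s‖ ≤ C * Real.exp (-(ρ * Real.sqrt s))) ∧
  (∀ (D : ℕ) (κ : ℂ), 4 ≤ D → 0 < κ.re → ∀ R : ℝ, ∃ s : ℝ, R < s ∧ 0 < s ∧ Kg D κ s ≠ 0)

/-- **CONV** (Liouville transform). Uses: nothing.
Proof. `u = r^a g(r²)`, `a = (D-1)/2`, `a(a-1) = (D-1)(D-3)/4`. Differentiate. The last formula: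
`conj u · u1 = r^(D-1) (2 r conj g · g1 + (real) |g|²)`. -/
def S_CONV : Prop :=
  (∀ (D : ℕ) (ν : ℂ) (g g1 : ℝ → ℂ) (r : ℝ), 0 < r → SolG D ν g g1 {r ^ 2} →
    HasDerivAt (uu D g) (uu1 D g g1 r) r ∧
    HasDerivAt (uu1 D g g1)
      ((ν + ((D : ℂ) - 1) * ((D : ℂ) - 3) / (4 * (r : ℂ) ^ 2)) * uu D g r) r) ∧
  ∀ (D : ℕ) (g g1 : ℝ → ℂ) (r : ℝ), 0 < r → 1 ≤ D →
    (starRingEnd ℂ (uu D g r) * uu1 D g g1 r).im =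
      r ^ (D - 1) * (2 * r * (starRingEnd ℂ (g (r ^ 2)) * g1 (r ^ 2)).im)

/-- **SGN** (signs of the Wronskians). Uses: `S_REG`, `S_DEC`.
Proof. For a solution of `4 s g1' + 2 D g1 = ν g` (`g' = g1`) on `s > 0` put
`N(s) = s^(D/2) Im (conj g · g1)`. Then
`N' = s^(D/2-1) Im ((D/2) conj g g1 + s |g1|² + conj g · s g1') = s^(D/2-1) (Im ν) |g|²/4`.
(i) Regular solution: `N → 0` as `s → 0+` and `g(0) = 1`, so `Im ν · N` is increasing and positive.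
(ii) Decaying solution: `N → 0` as `s → ∞` (exponential decay beats `s^(D/2)`) and `Im ν · N` is
nondecreasing, so `≤ 0`; if `Im ν · N(s₀) = 0` then `N = 0` on `[s₀, ∞)`, so `N' = 0`, `g = 0` on
`(s₀, ∞)`, which contradicts the last part of `S_DEC`. -/
def S_SGN : Prop :=
  (∀ (D : ℕ) (ν : ℂ) (s : ℝ), 1 ≤ D → ν.im ≠ 0 → 0 < s →
    0 < ν.im * (starRingEnd ℂ (Ig D ν s) * Ig1 D ν s).im) ∧
  ∀ (D : ℕ) (κ : ℂ) (s : ℝ), 4 ≤ D → 0 < κ.re → (κ ^ 2).im ≠ 0 → 0 < s →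
    (κ ^ 2).im * (starRingEnd ℂ (Kg D κ s) * Kg1 D κ s).im < 0

/-- **RIC** (Riccati/WKB in the absorbing region). Uses: nothing. Here `L = 1/4`.
Proof. `k = √w/ħ` (`√ = sq`; `0 ≤ arg w ≤ π/2`, so `Re k ≥ Im k`, `Im k ≥ c/ħ`, `|k| ≤ √2 Re k`),
`X = u1 + i k u`, `Y = u1 - i k u`. `Im (conj u u1) < 0` gives `u ≠ 0` and, with `m = u1/u`,
`Im m < 0`, hence `|m - i k| ≥ Re k` (as `Im (i k) = Re k > 0`), so `Y ≠ 0` and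
`h = X/Y = 1 + 2 i k/(m - i k)` has `|h| ≤ M := 1 + 2√2`.
`X' = i k X + S (X - Y)`, `Y' = -i k Y - S (X - Y)`, `S = k'/(2k) = w'/(4w)`, so
`h' = 2 i k h + S (h² - 1)`. With `φ = |h|²`, `κ = c/ħ ≤ Im k`, `|S| ≤ K`:
`φ' ≤ -4 κ φ + 2 |h| K (1 + M²) ≤ -2 κ φ + K² (1+M²)²/(2κ)` (AM–GM), so
`φ(1/4) ≤ e^{-κ/2} M² + K² (1+M²)²/(4κ²) ≤ C ħ²` (e.g. `φ e^{2κt} - …e^{2κt}` is antitone).
Finally `m + i k = h (m - i k)`, so `(m + i k)(1 - h) = -2 i k h` and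
`|ħ m + i √w| ≤ 2 |√w| |h|/|1 - h| ≤ C ħ` once `|h| ≤ 1/2`, i.e. for `ħ < ħ₀`. -/
def S_RIC : Prop :=
  ∀ A : ℝ, ∃ C ħ₀ : ℝ, 0 < ħ₀ ∧ ∀ (ħ : ℝ) (w w1 u u1 : ℝ → ℂ), 0 < ħ → ħ < ħ₀ →
    (∀ t ∈ Icc (0 : ℝ) (1 / 4), HasDerivAt w (w1 t) t ∧ HasDerivAt u (u1 t) t ∧
      HasDerivAt u1 (-(w t) / (ħ : ℂ) ^ 2 * u t) t ∧ ‖w t‖ ≤ A ∧ ‖w1 t‖ ≤ A ∧
      1 / 2 ≤ (w t).im ∧ 0 ≤ (w t).re ∧ (starRingEnd ℂ (u t) * u1 t).im < 0) →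
    ‖ħ * (u1 (1 / 4) / u (1 / 4)) + Complex.I * sq (w (1 / 4))‖ ≤ C * ħ

/-- **INNER** (boundary value at `r = 1` of the regular solution of energy `z + i`).
Uses: `S_REG`, `S_CONV`, `S_SGN`, `S_RIC`.
Proof. Apply `S_RIC` on `r = t + 3/4 ∈ [3/4, 1]` with `u = uu D (Ig D ν)`, `ν = -(z+i)/ħ²`,
`w = z + i - b/r²`, `b = bb ħ D` (`u'' = (ν + (D-1)(D-3)/(4r²)) u = -(w/ħ²) u`), `A = 4 Λ`:
`Im w = Im z + 1 ≥ 1/2`, `Re w ≥ Λ/4 - 16 b/9 ≥ 0`, `|w'| = 2b/r³ ≤ Λ`; `Im ν < 0`, so by `S_SGN`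
`Im (conj g g1) < 0`, so `Im (conj u u1) < 0` (and in particular `g(1) ≠ 0`). At `r = 1`:
`u1/u = 2 g1(1)/g(1) + (D-1)/2`, `w = z + i - b`. -/
def S_INNER : Prop :=
  ∀ Λ : ℝ, 2 ≤ Λ → ∃ C ħ₀ : ℝ, 0 < ħ₀ ∧ ∀ (ħ : ℝ) (D : ℕ), 0 < ħ → ħ < ħ₀ → 4 ≤ D →
    bb ħ D ≤ Λ / 32 → ∀ z ∈ Bx Λ,
      Ig D (-(z + Complex.I) / (ħ : ℂ) ^ 2) 1 ≠ 0 ∧
      ‖aa ħ D z + Complex.I * pp (bb ħ D) (z + Complex.I) 1‖ ≤ C * ħ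

/-- **OUTER** (boundary value at `r = 2` of the decaying solution of energy `z + i`).
Uses: `S_DEC`, `S_CONV`, `S_SGN`, `S_RIC`.
Proof. `κ = kap ħ z`, `κ² = -(z+i)/ħ²`, `Re κ = Im √(z+i)/ħ > 0`. Apply `S_RIC` to the reflected
function `v(t) = u(9/4 - t)`, `v1(t) = -u1(9/4 - t)`, `t ∈ [0, 1/4]`, `u = uu D (Kg D κ)`,
`w(t) = z + i - b/(9/4 - t)²`: `Im κ² < 0`, so `S_SGN` gives `Im (conj g g1) > 0`, hence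
`Im (conj v v1) < 0`. At `t = 1/4` (`r = 2`): `u1/u = 4 g1(4)/g(4) + (D-1)/4`. -/
def S_OUTER : Prop :=
  ∀ Λ : ℝ, 2 ≤ Λ → ∃ C ħ₀ : ℝ, 0 < ħ₀ ∧ ∀ (ħ : ℝ) (D : ℕ), 0 < ħ → ħ < ħ₀ → 4 ≤ D →
    bb ħ D ≤ Λ / 32 → ∀ z ∈ Bx Λ,
      0 < (kap ħ z).re ∧ kap ħ z ^ 2 = -(z + Complex.I) / (ħ : ℂ) ^ 2 ∧
      Kg D (kap ħ z) 4 ≠ 0 ∧
      ‖cc ħ D z - Complex.I * pp (bb ħ D) (z + Complex.I) 2‖ ≤ C * ħ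

/-- **WKB** (WKB in the annulus). Uses: nothing.
Proof. `k = √w/ħ`, `X = ħ u1 + i √w u = ħ (u1 + i k u)`, `Y = ħ (u1 - i k u)`,
`θ(t) = ∫_0^t k`, `μ = w^(-1/4) = exp (-Log w/4)`, `S = w'/(4w)`, `x = μ e^{-iθ} X`,
`y = μ e^{iθ} Y`. Then `x' = -S e^{-2iθ} y`, `y' = -S e^{2iθ} x`. Since `|Im w| ≤ A ħ`,
`Re w ≥ 1/B`, `|e^{±2iθ}| ≤ C`. Put `T = S/(2 i k) = O(ħ)`, `T' = O(ħ)`,
`x̃ = x - T e^{-2iθ} y`, `ỹ = y + T e^{2iθ} x`. Then `x̃' = T S x - T' e^{-2iθ} y`,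
`ỹ' = T' e^{2iθ} x - T S y` (`(T e^{-2iθ})' = T' e^{-2iθ} - S e^{-2iθ}`), so by Gronwall
`|x(1) - x(0)| + |y(1) - y(0)| ≤ C ħ (|x(0)| + |y(0)|) ≤ 2 C ħ |y(0)|`
(`|x(0)| = |μ X(0)| ≤ |μ Y(0)| = |y(0)|`). Hence `y(1) ≠ 0` for `ħ < ħ₀` and
`|x(1)/y(1) - x(0)/y(0)| ≤ C' ħ`, where `x(1)/y(1) = e^{-2iθ(1)} X(1)/Y(1)`,
`x(0)/y(0) = X(0)/Y(0)`. -/
def S_WKB : Prop :=
  ∀ A B : ℝ, 0 < B → ∃ C ħ₀ : ℝ, 0 < ħ₀ ∧ ∀ (ħ : ℝ) (w w1 w2 u u1 : ℝ → ℂ), 0 < ħ → ħ < ħ₀ →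
    (∀ t ∈ Icc (0 : ℝ) 1, HasDerivAt w (w1 t) t ∧ HasDerivAt w1 (w2 t) t ∧
      HasDerivAt u (u1 t) t ∧ HasDerivAt u1 (-(w t) / (ħ : ℂ) ^ 2 * u t) t ∧
      ‖w t‖ ≤ A ∧ ‖w1 t‖ ≤ A ∧ ‖w2 t‖ ≤ A ∧ 1 ≤ B * (w t).re ∧ |(w t).im| ≤ A * ħ) →
    ħ * u1 0 - Complex.I * sq (w 0) * u 0 ≠ 0 →
    ‖ħ * u1 0 + Complex.I * sq (w 0) * u 0‖ ≤ ‖ħ * u1 0 - Complex.I * sq (w 0) * u 0‖ →
    ħ * u1 1 - Complex.I * sq (w 1) * u 1 ≠ 0 ∧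
    ‖Complex.exp (-(2 * Complex.I / ħ * ∫ t in (0 : ℝ)..1, sq (w t))) *
        ((ħ * u1 1 + Complex.I * sq (w 1) * u 1) / (ħ * u1 1 - Complex.I * sq (w 1) * u 1)) -
      (ħ * u1 0 + Complex.I * sq (w 0) * u 0) / (ħ * u1 0 - Complex.I * sq (w 0) * u 0)‖ ≤ C * ħ

/-- **MIDSOL** (solutions in the annulus with given data, holomorphic in `z`).
Uses: `S_REG`, `S_DEC`, `S_SGN`.
For `z ∈ Bx Λ` (only `Re z > 0 > Im z` is used), `ν = -z/ħ²`, `κ = i √z/ħ` (`Re κ = -Im √z/ħ > 0`,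
`κ² = ν`) the two solutions `Ig D ν`, `Kg D κ` of `SolG D ν` on `(0, ∞)` have a nonzero Wronskian
`W = Ig(1) Kg1(1) - Ig1(1) Kg(1)` at `s = 1`: otherwise `(Kg(1), Kg1(1)) = λ (Ig(1), Ig1(1))`
(`Ig(1) ≠ 0` by `S_SGN`) and `Im (conj Kg Kg1) = |λ|² Im (conj Ig Ig1)`, but they have opposite
signs by `S_SGN` (`Im ν > 0`, as `Im z < 0`). So
`g = α Ig + β Kg`, `α = (Kg1(1) - q Kg(1))/W`, `β = (q Ig(1) - Ig1(1))/W` has `g(1) = 1`,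
`g1(1) = q`. As functions of `z ∈ Bx Λ`: `Ig D (-z/ħ²) 1`, … are holomorphic by `S_REG` (`Reg`
entire) and `Kg D (i √z/ħ) s`, … by `S_DEC` and the chain rule. -/
def S_MIDSOL : Prop :=
  ∀ (Λ ħ : ℝ) (D : ℕ) (q : ℂ → ℂ) (U : Set ℂ), 2 ≤ Λ → 0 < ħ → 4 ≤ D → IsOpen U → U ⊆ Bx Λ →
    DifferentiableOn ℂ q U →
    ∃ G G1 : ℂ → ℝ → ℂ,
      (∀ z ∈ U, SolG D (-z / (ħ : ℂ) ^ 2) (G z) (G1 z) (Ioi 0) ∧ G z 1 = 1 ∧ G1 z 1 = q z) ∧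
      ∀ s : ℝ, 0 < s → DifferentiableOn ℂ (fun z => G z s) U ∧
        DifferentiableOn ℂ (fun z => G1 z s) U

/-- **MID** (transfer through the annulus). Uses: `S_CONV`, `S_WKB`, `S_MIDSOL`.
Proof. `U = {z ∈ Bx Λ, -Aħ < Im z}`, `q z = (a z/ħ - (D-1)/2)/2`, `G, G1` from `S_MIDSOL`,
`g = G z`, `u = uu D g`: `u(1) = 1`, `ħ u1(1) = a z`, `u(2) = 2^((D-1)/2) g(4)`,
`ħ u1(2) = 2^((D-1)/2) ħ (4 g1(4) + (D-1)/4 g(4))`. Apply `S_WKB` on `r = 1 + t`, `w = z - b/r²`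
(`u'' = -(w/ħ²) u`), `Re w ≥ Λ/4 - b ≥ Λ/8`, `|Im w| ≤ A ħ`. At `t = 0`:
`X(0) = a + i p`, `Y(0) = a - i p`, `p = pp b z 1`, `a = -i p₊ + O(ħ)`, `p₊ = pp b (z+i) 1`, so
`|Y(0)| ≥ |p₊ + p| - Cħ` and `|X(0)| ≤ |p₊ - p| + C ħ`, `(p₊-p)(p₊+p) = i`, `|p₊+p| ≥ 2 √(7Λ/32)`
(both have real part `≥ √(7Λ/32)`), so `|X(0)| ≤ 1/(2√(7/16)) + Cħ < 2 √(7/16) - Cħ ≤ |Y(0)|` for
small `ħ`. Then `h = X(1)/Y(1)` (with the common factor `2^((D-1)/2)` cancelled) is holomorphic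
(`S_MIDSOL`, and `sq` is holomorphic off `(-∞, 0]`); `∫_0^1 √w dt = th b z`. -/
def S_MID : Prop :=
  ∀ Λ A C₁ : ℝ, 2 ≤ Λ → 0 < A → ∃ C ħ₀ : ℝ, 0 < ħ₀ ∧ ∀ (ħ : ℝ) (D : ℕ) (a : ℂ → ℂ),
    0 < ħ → ħ < ħ₀ → 4 ≤ D → bb ħ D ≤ Λ / 32 → DifferentiableOn ℂ a (Bx Λ) →
    (∀ z ∈ Bx Λ, ‖a z + Complex.I * pp (bb ħ D) (z + Complex.I) 1‖ ≤ C₁ * ħ) →
    ∃ h : ℂ → ℂ, DifferentiableOn ℂ h {z | z ∈ Bx Λ ∧ -(A * ħ) < z.im} ∧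
      ∀ z ∈ Bx Λ, -(A * ħ) < z.im →
        ‖Complex.exp (-(2 * Complex.I / ħ * th (bb ħ D) z)) * h z -
          (a z + Complex.I * pp (bb ħ D) z 1) / (a z - Complex.I * pp (bb ħ D) z 1)‖ ≤ C * ħ ∧
        ∃ g g1 : ℝ → ℂ, SolG D (-z / (ħ : ℂ) ^ 2) g g1 (Ioi 0) ∧ g 1 = 1 ∧
          ħ * (2 * g1 1 + ((D : ℂ) - 1) / 2) = a z ∧
          ħ * (4 * g1 4 + ((D : ℂ) - 1) / 4 * g 4) - Complex.I * pp (bb ħ D) z 2 * g 4 ≠ 0 ∧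
          h z * (ħ * (4 * g1 4 + ((D : ℂ) - 1) / 4 * g 4) - Complex.I * pp (bb ħ D) z 2 * g 4) =
            ħ * (4 * g1 4 + ((D : ℂ) - 1) / 4 * g 4) + Complex.I * pp (bb ħ D) z 2 * g 4

/-- **ROU** (a zero near the centre). Uses: nothing.
Proof. `F(ω) = f(z₀ + R ω) - 1` is holomorphic near the closed unit disc, `|F(0)| ≤ 1/10`, and on
`|ω| = 1` `|F| ≥ |e^{iω} - 1| - 1/10 ≥ (3 - e) - 1/10 > 1/10` (`|e^x - 1 - x| ≤ e - 2` for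
`|x| ≤ 1`, cf. `Complex.norm_exp_sub_one_sub_id_le` (that gives `≤ |x|²`, not enough; use the
power series: `∑_{n≥2} 1/n! = e - 2 < 0.72`)). If `F` had no zero in the closed disc then `1/F` is
holomorphic there and `|1/F(0)| ≤ max_{|ω|=1} |1/F|`
(`Complex.norm_le_of_forall_mem_frontier_norm_le`), a contradiction. -/
def S_ROU : Prop :=
  ∀ (f : ℂ → ℂ) (z₀ : ℂ) (R : ℝ), 0 < R →
    (∃ U : Set ℂ, IsOpen U ∧ Metric.closedBall z₀ R ⊆ U ∧ DifferentiableOn ℂ f U) →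
    (∀ η : ℂ, ‖η‖ ≤ 1 → ‖f (z₀ + R * η) - Complex.exp (Complex.I * η)‖ ≤ 1 / 10) →
    ∃ z ∈ Metric.closedBall z₀ R, f z = 1

/-- **ACT** (Taylor expansion of the action and of the momenta at a real point). Uses: nothing.
Proof. `τ = ∫_1^2 dr/(2 √(x₀ - b/r²))`; `15Λ/32 ≤ x₀ - b/r² ≤ Λ` gives the bounds on `τ`
(`√` here is the real square root, and `sq` of a positive real is its real square root). For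
`z` with `Re (z - b/r²) > 0`: with `w = z - b/r²`, `w₀ = x₀ - b/r²`,
`√w - √w₀ - (w - w₀)/(2√w₀) = -(w - w₀)²/(2√w₀ (√w + √w₀)²)`, of norm `≤ C |z - x₀|²`
(`Re √w ≥ 0`). Integrate over `r`. -/
def S_ACT : Prop :=
  ∀ Λ : ℝ, 2 ≤ Λ → ∃ C : ℝ, ∀ (b x₀ : ℝ), 0 ≤ b → b ≤ Λ / 32 → Λ / 2 ≤ x₀ → x₀ ≤ Λ →
    ∃ τ : ℝ, 1 / (2 * Real.sqrt Λ) ≤ τ ∧ τ ≤ 1 ∧ (th b x₀).im = 0 ∧
      ∀ z : ℂ, Λ / 4 < z.re →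
        ‖th b z - th b x₀ - τ * (z - x₀)‖ ≤ C * ‖z - x₀‖ ^ 2

/-- **ZERO** (the quantisation condition has a solution). Uses: `S_ROU`, `S_ACT`.
Proof. Let `p_j = pp b z j`, `p_j⁺ = pp b (z+i) j`, `ρ_j = (p_j⁺-p_j)/(p_j⁺+p_j) = i/(p_j⁺+p_j)²`,
`j = 1, 2`. For `z` near `[Λ/2, Λ]`, `Re p_j, Re p_j⁺ ≥ c > 0`, `|ρ_j(z) - ρ_j(x₀)| ≤ C |z - x₀|`.
`(a + i p₁)/(a - i p₁) = ρ₁ + O(ħ)`, `(c - i p₂)/(c + i p₂) = ρ₂ + O(ħ)` (`|c + i p₂| ≥ c' > 0`),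
`Ψ := h (c - i p₂)/(c + i p₂) = e^{2iθ(z)/ħ} (ρ₁(x₀) ρ₂(x₀) + O(ħ + |z - x₀|))` (holomorphic), and
`|e^{2iθ/ħ}| ≤ e^{2|Im θ|/ħ} ≤ C` for `|z - x₀| ≤ C ħ`. At `z = x₀`:
`|p_j⁺ + p_j|² ≥ 4·15Λ/32 = 15Λ/8`, so `q := |ρ₁ρ₂| ≤ (8/(15Λ))² ≤ 0.072`, `ℓ_ρ := log (1/q) > 2`.
Let `τ` be as in `S_ACT`, choose `b' ∈ [-π, π]` with
`2θ(x₀)/ħ + arg (ρ₁ρ₂)(x₀) + b' ∈ 2πℤ` and `z₀ = x₀ + (ħ/2τ)(b' - i ℓ_ρ)`, `R = ħ/(2τ)`. For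
`z = z₀ + R ω`, `|ω| ≤ 1`: `2iθ(z)/ħ = 2iθ(x₀)/ħ + i b' + ℓ_ρ + i ω + O(ħ)`, so
`Ψ(z) = e^{iω} + O(ħ)`. Also `|Re z - x₀| ≤ (π+1) ħ/(2τ) ≤ 5 √Λ ħ`,
`Im z ≤ (ħ/2τ)(1 - ℓ_ρ) < 0`, `Im z ≥ -(ħ/2τ)(1 + ℓ_ρ) > -A ħ` with
`A = √Λ (1 + log (max…)) + 1` depending only on `Λ` (`|ρ_j| ≥ 1/(4(Λ+1))`), so the closed disc is in
the open set where `h, c` are holomorphic. Apply `S_ROU` to `Ψ`. -/
def S_ZERO : Prop :=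
  ∀ Λ : ℝ, 2 ≤ Λ → ∃ A : ℝ, 0 < A ∧ ∀ C : ℝ, ∃ ħ₀ : ℝ, 0 < ħ₀ ∧
    ∀ (ħ b x₀ : ℝ) (a c h : ℂ → ℂ), 0 < ħ → ħ < ħ₀ → 0 ≤ b → b ≤ Λ / 32 → Λ / 2 ≤ x₀ → x₀ ≤ Λ →
      DifferentiableOn ℂ c (Bx Λ) → DifferentiableOn ℂ h {z | z ∈ Bx Λ ∧ -(A * ħ) < z.im} →
      (∀ z ∈ Bx Λ, ‖a z + Complex.I * pp b (z + Complex.I) 1‖ ≤ C * ħ ∧
        ‖c z - Complex.I * pp b (z + Complex.I) 2‖ ≤ C * ħ) →
      (∀ z ∈ Bx Λ, -(A * ħ) < z.im →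
        ‖Complex.exp (-(2 * Complex.I / ħ * th b z)) * h z -
          (a z + Complex.I * pp b z 1) / (a z - Complex.I * pp b z 1)‖ ≤ C * ħ) →
      ∃ z ∈ Bx Λ, |z.re - x₀| ≤ 5 * Real.sqrt Λ * ħ ∧ -(A * ħ) < z.im ∧
        h z * (c z - Complex.I * pp b z 2) = c z + Complex.I * pp b z 2

/-- **GLUE** (profiles from matching data). Uses: `S_REG`, `S_DEC`.
Proof. `n = Ig D ν⁺ 1 ≠ 0`, `ν⁺ = -(z+i)/ħ²`, `κ = kap ħ z`. Set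
`F = Ig D ν⁺` on `s ≤ 1`, `n · g` on `[1, 4]`, `n (g(4)/Kg(4)) Kg D κ` on `s ≥ 4` and similarly
`F1`, `F2` (`F2 = Ig2`, resp. the formula from the ODE). `F`, `F1` are continuous at `1` and `4` by
the matching conditions; a function glued from two `C¹` pieces with equal values and derivatives is
differentiable at the gluing point (`HasDerivWithinAt.union`). `F(0) = Ig D ν⁺ 0 = 1`. -/
def S_GLUE : Prop :=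
  ∀ (D : ℕ) (ħ : ℝ) (z : ℂ) (g g1 : ℝ → ℂ), 4 ≤ D → 0 < ħ → 0 < (kap ħ z).re →
    kap ħ z ^ 2 = -(z + Complex.I) / (ħ : ℂ) ^ 2 →
    Ig D (-(z + Complex.I) / (ħ : ℂ) ^ 2) 1 ≠ 0 → Kg D (kap ħ z) 4 ≠ 0 →
    SolG D (-z / (ħ : ℂ) ^ 2) g g1 (Ioi 0) → g 1 = 1 →
    g1 1 = Ig1 D (-(z + Complex.I) / (ħ : ℂ) ^ 2) 1 / Ig D (-(z + Complex.I) / (ħ : ℂ) ^ 2) 1 →
    g1 4 = Kg1 D (kap ħ z) 4 / Kg D (kap ħ z) 4 * g 4 →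
    ∃ F F1 F2 : ℝ → ℂ, Prof D ħ (z + Complex.I) F F1 F2

/-- **EX** (existence of profiles). Uses: `S_REG`, `S_DEC`, `S_INNER`, `S_OUTER`, `S_MID`, `S_ZERO`,
`S_GLUE`.
Proof. `A` from `S_ZERO`, `C₁` the maximum of the constants of `S_INNER`, `S_OUTER`; `a = aa ħ D` and
`c = cc ħ D` are holomorphic on `Bx Λ`; `h` from `S_MID`; `z` from `S_ZERO` and `g, g1` from `S_MID`.
With `v = ħ (4 g1 4 + (D-1)/4 g 4)`, `p = pp b z 2`: `h (v - i p g4) = v + i p g4` and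
`h (c - i p) = c + i p`, so `(c + ip)(v - ip g4) = (c - ip)(v + ip g4)`, i.e. `2 i p (v - c g4) = 0`,
`v = c g4` (`p ≠ 0`), which is the matching condition at `s = 4`. -/
def S_EX : Prop :=
  ∀ Λ : ℝ, 2 ≤ Λ → ∃ ħ₀ : ℝ, 0 < ħ₀ ∧ ∀ (ħ : ℝ) (D : ℕ) (x₀ : ℝ), 0 < ħ → ħ < ħ₀ → 4 ≤ D →
    bb ħ D ≤ Λ / 32 → Λ / 2 ≤ x₀ → x₀ ≤ Λ →
    ∃ z ∈ Bx Λ, |z.re - x₀| ≤ 5 * Real.sqrt Λ * ħ ∧
      ∃ g g1 g2 : ℝ → ℂ, Prof D ħ (z + Complex.I) g g1 g2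

/-- **GRAD** (the eigenfunction is in `H¹`, with its classical gradient as weak gradient).
Uses: nothing.
Proof. `psi P g` and `dpsi P g g1 i` are continuous and bounded by `C (1 + |x|)^(ℓ+1) e^{-ρ|x|}`,
so in `L²` (and `L¹`). `psi P g` is differentiable with partial derivatives `dpsi P g g1 i`
(`∂_i |x|² = 2 x_i`), and `∫ u ∂_i φ = -∫ ∂_i u φ` for test functions `φ` by
`integral_mul_fderiv_eq_neg_fderiv_mul_of_integrable` or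
`integral_bilinear_hasLineDerivAt_right_eq_neg_left_of_integrable`. -/
def S_GRAD : Prop :=
  ∀ (d ℓ : ℕ) (ħ : ℝ) (z : ℂ) (P : MvPolynomial (Fin d) ℝ) (g g1 g2 : ℝ → ℂ), 0 < d →
    P ∈ HP d ℓ → Prof (d + 2 * ℓ) ħ z g g1 g2 →
    Continuous (psi P g) ∧ MemLp (psi P g) 2 volume ∧ IsGrad (psi P g) (dpsi P g g1)

/-- **WEAK1** (weak form of the Laplacian for smooth profiles). Uses: nothing.
Proof. `dpsi P G G1 i` is differentiable with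
`∑_i ∂_i (dpsi i) = ΔP G + 4 (∑ x_i ∂_i P) G1 + P (4 |x|² G2 + 2 d G1)
 = P (4 |x|² G2 + 2 (d + 2ℓ) G1)` (`ΔP = 0`; Euler: `∑ x_i ∂_i P = ℓ P`,
`MvPolynomial.IsHomogeneous.sum_X_mul_pderiv` or so). Integrate by parts against the test function
`φ` (compact support, so everything is integrable). -/
def S_WEAK1 : Prop :=
  ∀ (d ℓ : ℕ) (P : MvPolynomial (Fin d) ℝ) (G G1 G2 : ℝ → ℂ), 0 < d → P ∈ HP d ℓ →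
    (∀ s : ℝ, HasDerivAt G (G1 s) s ∧ HasDerivAt G1 (G2 s) s) → Continuous G2 →
    ∀ φ : E d → ℂ, IsTest φ →
      ∑ i, pair (dpsi P G G1 i) (pd i φ) =
        -pair (fun x => ((MvPolynomial.eval (fun j => x j) P : ℝ) : ℂ) *
          (4 * ((‖x‖ ^ 2 : ℝ) : ℂ) * G2 (‖x‖ ^ 2) + 2 * ((d : ℂ) + 2 * ℓ) * G1 (‖x‖ ^ 2))) φ

/-- **WEAK2** (the same with one jump in the second derivative). Uses: `S_WEAK1`.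
Proof. `G_n'' = q_n(s) = min 1 (max 0 (n (s - c)))`, continuous, `0 ≤ q_n ≤ 1_{s > c}`,
`G_n' = ∫_c^s q_n`, `G_n = ∫_c^s G_n'`; `|G_n' - (s-c)₊| ≤ 1/n`, and `G_n → ((s-c)₊)²/2` locally
uniformly, `q_n → 1_{s>c}` pointwise. Apply `S_WEAK1` to `G_n` and let `n → ∞` (dominated
convergence on the support of `φ`). -/
def S_WEAK2 : Prop :=
  ∀ (d ℓ : ℕ) (P : MvPolynomial (Fin d) ℝ) (c : ℝ), 0 < d → P ∈ HP d ℓ →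
    ∀ φ : E d → ℂ, IsTest φ →
      ∑ i, pair (dpsi P (fun s => (((max (s - c) 0) ^ 2 / 2 : ℝ) : ℂ))
          (fun s => ((max (s - c) 0 : ℝ) : ℂ)) i) (pd i φ) =
        -pair (fun x => ((MvPolynomial.eval (fun j => x j) P : ℝ) : ℂ) *
          (4 * ((‖x‖ ^ 2 : ℝ) : ℂ) * (if c < ‖x‖ ^ 2 then 1 else 0) +
            2 * ((d : ℂ) + 2 * ℓ) * ((max (‖x‖ ^ 2 - c) 0 : ℝ) : ℂ))) φ

/-- **WEAK3** (the weak eigenvalue equation). Uses: `S_WEAK1`, `S_WEAK2`.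
Proof. `g = g_a + J₁ ((s-1)₊)²/2 + J₄ ((s-4)₊)²/2`, `J₁ = i g(1)/(4 ħ²)`, `J₄ = -i g(4)/(16 ħ²)`:
`g_a` is `C²` on `ℝ` (after changing `g2` at `1, 4`): for `s > 0`, `s ≠ 1, 4`,
`g2 = (vv(s) - E) g/(4 s ħ²) - 2 D g1/(4s)`, whose jumps at `1, 4` are `J₁, J₄`; differentiability
of `g_a'` at `1, 4` from continuity and the limit of the derivative
(`hasDerivAt_of_hasDerivAt_of_ne'`). By linearity of `dpsi` in `(G, G1)` and of `pair`, `S_WEAK1`,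
`S_WEAK2`: `∑ pair (dpsi P g g1 i) (pd i φ) = -pair (P (4 s g2 + 2 D g1)) φ`, and off the null set
`|x|² ∈ {1, 4}` (spheres are null: `Measure.addHaar_sphere`) `4 s g2 + 2 D g1 = (V - E)/ħ² g`. -/
def S_WEAK3 : Prop :=
  ∀ (d ℓ : ℕ) (ħ : ℝ) (z : ℂ) (P : MvPolynomial (Fin d) ℝ) (g g1 g2 : ℝ → ℂ), 0 < d → 0 < ħ →
    P ∈ HP d ℓ → Prof (d + 2 * ℓ) ħ z g g1 g2 →
    WeakEq (VV d) ħ (psi P g) (dpsi P g g1) (fun x => z * psi P g x)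

/-- **IND** (multiplicity). Uses: `S_GRAD`, `S_WEAK3`.
Proof. For `ℓ ∈ L` let `g_ℓ` be the profile and `P_{ℓ,j}` a basis of `HP d ℓ`
(finite dimensional). By `S_GRAD`, `S_WEAK3`, `Graph (VV d) ħ ψ (E ψ)` for
`ψ = psi P_{ℓ,j} g_ℓ`, so `ψ` is a `GenVec` with `n = 1`. They are linearly independent over `ℂ`
modulo a.e. equality: if `∑ c_{ℓ,j} P_{ℓ,j}(x) g_ℓ(|x|²) = 0` a.e., then everywhere (continuity);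
let `ℓ₀` be the least `ℓ` with some `c_{ℓ,j} ≠ 0`, put `x = t ω`, divide by `t^ℓ₀` and let `t → 0`:
`∑_j c_{ℓ₀,j} P_{ℓ₀,j}(ω) = 0` for all `ω ∈ ℝᵈ` (`g(0) = 1`), so (real and imaginary parts, and
`MvPolynomial.funext`) `c_{ℓ₀,j} = 0`, a contradiction. -/
def S_IND : Prop :=
  ∀ (d : ℕ) (ħ : ℝ) (z : ℂ) (L : Finset ℕ), 2 ≤ d → 0 < ħ →
    (∀ ℓ ∈ L, ∃ g g1 g2 : ℝ → ℂ, Prof (d + 2 * ℓ) ħ z g g1 g2) →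
    ((∑ ℓ ∈ L, Module.finrank ℝ (HP d ℓ) : ℕ) : ℝ≥0∞) ≤ mult (VV d) ħ z

/-- **DIM** (dimension of the harmonic polynomials). Uses: nothing.
Proof. `dim HP d ℓ = dim Hom_ℓ - dim Hom_{ℓ-2}` (surjectivity of the Laplacian, proved in
`Pool/Agent/Helper477/Sph/HarmInv.lean`, theorem `finrank_harmonic`; `dim Hom_ℓ` in
`Pool/Agent/N537/RS/HDim.lean`, `finrank_homog`; or directly: only `≥` is needed, by rank–nullity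
for `LapP : Hom_ℓ → Hom_{ℓ-2}`), `= C(ℓ+d-1, d-1) - C(ℓ+d-3, d-1)
 = C(ℓ+d-2, d-2) + C(ℓ+d-3, d-2) ≥ C(ℓ+d-2, d-2) ≥ ℓ^(d-2)/(d-2)!`. -/
def S_DIM : Prop :=
  ∀ d ℓ : ℕ, 2 ≤ d → 2 ≤ ℓ →
    (ℓ : ℝ) ^ (d - 2) / ((d - 2).factorial : ℝ) ≤ (Module.finrank ℝ (HP d ℓ) : ℝ)

/-- **FIN** (the main theorem). Uses: `S_EX`, `S_IND`, `S_DIM`.
Proof. Fix `n`; for `i < n` let `Λ = 2·4^i`, `ħ₀` the minimum of the constants of `S_EX` (and small).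
For `ħ < ħ₀` take the points `x_{i,j} = Λ/2 + 11 √Λ ħ j`, `j < √Λ/(44 ħ)`, and `2 ≤ ℓ ≤ N_i`,
`D = d + 2ℓ ≤ √(Λ/8)/ħ` (so `bb ħ D ≤ ħ² D²/4 ≤ Λ/32`); `z_{i,j,ℓ}` from `S_EX`. For fixed `ℓ` they
are distinct (`|Re z - x_{i,j}| ≤ 5√Λħ`; the intervals `[4^i, 2·4^i]` are disjoint). So
`SS ≥ ∑_E mult(E) wt(E) ≥ ∑_E ∑_{ℓ : E ∈ Z_ℓ} dim(ℓ) wt(E) = ∑_ℓ dim(ℓ) ∑_{i,j} wt(E_{i,j,ℓ})`, with
`E = z + i`, `Im E ∈ (1/2, 1)`, `dRay E = Im E ≥ 1/2` (`Re E > 0`), `|E| ≤ 3Λ`,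
`wt = |E|^(-σ) dRay^(γ+σ) ≥ (3Λ)^(-σ) 2^(-γ-σ)`. Each `i` contributes
`≥ c ∑_{ℓ ≤ N_i} ℓ^(d-2) · √Λ/ħ · Λ^(-σ) ≥ c (√Λ/ħ)^d Λ^(-σ) ≥ c ħ^(-d)` with `c = c(d, γ, σ) > 0`.
So `ħ^d SS ≥ c n` for all small `ħ`. -/
def S_FIN : Prop :=
  ∀ (d : ℕ) (γ σ : ℝ), 2 ≤ d → 0 < γ → 0 ≤ σ → σ ≤ d / 2 →
    Tendsto (fun ħ : ℝ => ENNReal.ofReal (ħ ^ d) * SS γ σ (VV d) ħ) (𝓝[>] 0) (𝓝 ⊤)

end Pool.Agent.Run7.h998.LT
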